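import Pool.Agent.Lib.MP_32d347_h49.Fin

namespace Arb49
open Finset

noncomputable instance actInst (n : ℕ) : MulAction G (LL n) where
  smul σ w := act σ w
  one_smul _ := Subtype.ext rfl
  mul_smul _ _ _ := Subtype.ext rfl

theorem smul_val {n : ℕ} (σ : G) (w : LL n) : (σ • w).1 = σ w.1 := rfl

theorem inv_apply_self (σ : G) (z : L) : σ⁻¹ (σ z) = z := σ.symm_apply_apply z
theorem apply_inv_self (σ : G) (z : L) : σ (σ⁻¹ z) = z := σ.apply_symm_apply z

theorem par_smul {n : ℕ} (σ : G) (w : LL (n + 1)) : par (σ • w) = σ • par w := by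
  apply Subtype.ext; change F (σ w.1) = σ (F w.1); rw [F_aut]

theorem ng_smul {n : ℕ} (σ : G) (w : LL (n + 1)) : ng (σ • w) = σ • ng w := by
  apply Subtype.ext; change -(σ w.1) = σ (-w.1); rw [map_neg]

theorem mem_N_iff {n : ℕ} {σ : G} : σ ∈ N n ↔ ∀ w : LL n, σ • w = w :=
  ⟨fun h w => Subtype.ext (h w.1 w.2), fun h z hz => congrArg Subtype.val (h ⟨z, hz⟩)⟩

theorem N_zero : N 0 = ⊤ := by
  ext σ
  simp only [Subgroup.mem_top, iff_true]
  intro z hz
  rw [Lev_zero] at hz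
  rw [Set.mem_singleton_iff.1 hz, map_zero]

theorem N_succ_le (n : ℕ) : N (n + 1) ≤ N n := by
  intro σ h z hz
  have h1 := h (rt (z - 1)) (child_mem hz (rt_sq _))
  have h2 := congrArg (fun x => x ^ 2 + 1) h1
  simp only [← map_pow, rt_sq] at h2
  rw [map_sub, map_one] at h2
  linear_combination h2

theorem N_le {m n : ℕ} (h : m ≤ n) : N n ≤ N m := by
  induction n, h using Nat.le_induction with
  | base => exact le_rfl
  | succ n _ ih => exact (N_succ_le n).trans ih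

instance N_normal (n : ℕ) : (N n).Normal := by
  constructor
  intro σ hσ g z hz
  change g (σ (g⁻¹ z)) = z
  rw [hσ (g⁻¹ z) (Lev_aut g⁻¹ hz), apply_inv_self]

theorem N_conj {n : ℕ} {σ : G} (hσ : σ ∈ N n) (g : G) : g * σ * g⁻¹ ∈ N n := (N_normal n).conj_mem σ hσ g

/-- fixing a child implies fixing the parent -/
theorem fix_par {σ : G} {w : L} (h : σ w = w) : σ (F w) = F w := by rw [F_aut, h]

theorem fix_sub_one {σ : G} {w : L} (h : σ w = w) : σ (w - 1) = w - 1 := by rw [map_sub, h, map_one]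
theorem fix_two (σ : G) : σ 2 = 2 := map_ofNat σ 2
theorem fix_five (σ : G) : σ 5 = 5 := map_ofNat σ 5
theorem fix_neg_one (σ : G) : σ (-1) = -1 := by rw [map_neg, map_one]
theorem fix_two_sub {σ : G} {w : L} (h : σ w = w) : σ (2 - w) = 2 - w := by rw [map_sub, h, fix_two]
theorem fix_two_add {σ : G} {w : L} (h : σ w = w) : σ (2 + w) = 2 + w := by rw [map_add, h, fix_two]
theorem fix_five_sub {σ : G} {w : L} (h : σ w = w) : σ (5 - w) = 5 - w := by rw [map_sub, h, fix_five]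

theorem mem_N_succ_of_sq {n : ℕ} {σ : G} (h : σ ∈ N n) (h0 : ∀ w : LL n, chi σ (w.1 - 1) = 0) :
    σ ∈ N (n + 1) := by
  intro z hz
  have h1 : z ^ 2 = F z - 1 := by simp [F]
  have h2 : F z ∈ Lev n := (mem_Lev_succ n z).1 hz
  have h3 := h0 ⟨F z, h2⟩
  rwa [chi_eq_zero_iff (fix_sub_one (h _ h2)) h1] at h3

theorem T_eq_zero_iff {n : ℕ} {σ : G} (h : σ ∈ N n) : T n σ = 0 ↔ σ ∈ N (n + 1) := by
  constructor
  · intro h0; exact mem_N_succ_of_sq h fun w => congrFun h0 w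
  · intro h0; funext w
    change chi σ (w.1 - 1) = 0
    rw [chi_eq_zero_iff (fix_sub_one (h _ w.2)) (ch_sq w)]
    exact h0 _ (ch w).2

theorem T_mul {n : ℕ} {σ τ : G} (hσ : σ ∈ N n) (hτ : τ ∈ N n) : T n (σ * τ) = T n σ + T n τ := by
  funext w; exact chi_comp (fix_sub_one (hσ _ w.2)) (fix_sub_one (hτ _ w.2))

theorem S_mul {n : ℕ} {σ τ : G} (hσ : σ ∈ N n) (hτ : τ ∈ N n) : S n (σ * τ) = S n σ + S n τ := by
  funext w; exact chi_comp (fix_two_sub (hσ _ w.2)) (fix_two_sub (hτ _ w.2))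

theorem U_mul {n : ℕ} {σ τ : G} (hσ : σ ∈ N (n + 1)) (hτ : τ ∈ N (n + 1)) :
    U n (σ * τ) = U n σ + U n τ := by
  funext w; exact chi_comp (fix_two_sub (hσ _ (ch w).2)) (fix_two_sub (hτ _ (ch w).2))

theorem T_one (n : ℕ) : T n 1 = 0 := by funext w; exact chi_one _
theorem T_inv {n : ℕ} {σ : G} (hσ : σ ∈ N n) : T n σ⁻¹ = T n σ := by
  funext w; exact chi_inv (fix_sub_one (hσ _ w.2))

theorem T_conj {n : ℕ} {σ : G} (hσ : σ ∈ N n) (g : G) (w : LL n) :
    T n (g * σ * g⁻¹) (g • w) = T n σ w := by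
  change chi _ (g w.1 - 1) = _
  have : g w.1 - 1 = g (w.1 - 1) := by rw [map_sub, map_one]
  rw [this, chi_conj (fix_sub_one (hσ _ w.2))]; rfl

theorem S_conj {n : ℕ} {σ : G} (hσ : σ ∈ N n) (g : G) (w : LL n) :
    S n (g * σ * g⁻¹) (g • w) = S n σ w := by
  change chi _ (2 - g w.1) = _
  have : 2 - g w.1 = g (2 - w.1) := by rw [map_sub, fix_two]
  rw [this, chi_conj (fix_two_sub (hσ _ w.2))]; rfl

/-- `(w-1)(-w-1) = 2-u` for the children `±w` of `u` -/
theorem S_eq_sumch {n : ℕ} {σ : G} (h : σ ∈ N (n + 1)) : S n σ = sumch n (T (n + 1) σ) := by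
  funext u
  rw [sumch_apply]
  change chi σ (2 - u.1) = chi σ ((ch u).1 - 1) + chi σ ((ng (ch u)).1 - 1)
  have h1 := h _ (ch u).2
  have h2 := h _ (ng (ch u)).2
  have h3 : 2 - u.1 = ((ch u).1 - 1) * ((ng (ch u)).1 - 1) := by
    have := ch_sq u
    rw [ng_val]; linear_combination this
  rw [h3, chi_mul (sub_one_ne (ch u).2) (sub_one_ne (ng (ch u)).2) (fix_sub_one h1) (fix_sub_one h2)]

/-- signs of a square -/
theorem chi_child_sq {σ : G} {u w : L} (hu : σ u = u) (hw : w ^ 2 = u - 1) (hw0 : w ≠ 0)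
    (hw1 : w - 1 ≠ 0) (hwm : -w - 1 ≠ 0) :
    chi (σ ^ 2) (w - 1) = chi σ (u - 1) * chi σ (2 - u) := by
  have h1 : σ (u - 1) = u - 1 := fix_sub_one hu
  have hu1 : u - 1 ≠ 0 := by rw [← hw]; exact pow_ne_zero 2 hw0
  have hpow : ∀ z, (σ ^ 2) z = σ (σ z) := fun z => by rw [pow_two]; rfl
  rcases two_cases (chi σ (u - 1)) with h | h
  · have hσw : σ w = w := (chi_eq_zero_iff h1 hw).1 h
    rw [h, zero_mul, pow_two, chi_comp (fix_sub_one hσw) (fix_sub_one hσw), CharTwo.add_self_eq_zero]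
  · have hσw : σ w = -w := (chi_eq_one_iff hu1 h1 hw).1 h
    rw [h, one_mul]
    set y := rt (w - 1) with hy
    have hy2 : y ^ 2 = w - 1 := rt_sq _
    have hσy2 : (σ y) ^ 2 = -w - 1 := by rw [← map_pow, hy2, map_sub, hσw, map_one]
    have hc : (y * σ y) ^ 2 = 2 - u := by
      rw [mul_pow, hy2, hσy2]; linear_combination -hw
    have hy0 : y ≠ 0 := by intro h0; rw [h0] at hy2; apply hw1; rw [← hy2]; ring
    have hσy0 : σ y ≠ 0 := by intro h0; rw [h0] at hσy2; apply hwm; rw [← hσy2]; ring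
    have h2u : 2 - u ≠ 0 := by rw [← hc]; exact pow_ne_zero 2 (mul_ne_zero hy0 hσy0)
    have hfix : (σ ^ 2) (w - 1) = w - 1 := by
      rw [hpow, map_sub, map_one, hσw, map_sub, map_neg, map_one, hσw, neg_neg]
    have hfix2 : σ (2 - u) = 2 - u := fix_two_sub hu
    rcases two_cases (chi σ (2 - u)) with h' | h'
    · rw [h', chi_eq_zero_iff hfix hy2, hpow]
      have h3 := (chi_eq_zero_iff hfix2 hc).1 h'
      rw [map_mul] at h3
      have h4 : σ y * (σ (σ y) - y) = 0 := by linear_combination h3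
      rcases mul_eq_zero.1 h4 with h5 | h5
      · exact absurd h5 hσy0
      · exact sub_eq_zero.1 h5
    · rw [h', chi_eq_one_iff hw1 hfix hy2, hpow]
      have h3 := (chi_eq_one_iff h2u hfix2 hc).1 h'
      rw [map_mul] at h3
      have h4 : σ y * (σ (σ y) + y) = 0 := by linear_combination h3
      rcases mul_eq_zero.1 h4 with h5 | h5
      · exact absurd h5 hσy0
      · exact eq_neg_of_add_eq_zero_left h5

/-- signs of a square on `√(2-w)` -/
theorem chi_two_sub_sq {σ : G} {u w : L} (hu : σ u = u) (hw : w ^ 2 = u - 1) (hw0 : w ≠ 0)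
    (hw1 : 2 - w ≠ 0) (hwm : 2 + w ≠ 0) :
    chi (σ ^ 2) (2 - w) = chi σ (u - 1) * chi σ (5 - u) := by
  have h1 : σ (u - 1) = u - 1 := fix_sub_one hu
  have hu1 : u - 1 ≠ 0 := by rw [← hw]; exact pow_ne_zero 2 hw0
  have hpow : ∀ z, (σ ^ 2) z = σ (σ z) := fun z => by rw [pow_two]; rfl
  rcases two_cases (chi σ (u - 1)) with h | h
  · have hσw : σ w = w := (chi_eq_zero_iff h1 hw).1 h
    rw [h, zero_mul, pow_two, chi_comp (fix_two_sub hσw) (fix_two_sub hσw), CharTwo.add_self_eq_zero]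
  · have hσw : σ w = -w := (chi_eq_one_iff hu1 h1 hw).1 h
    rw [h, one_mul]
    set y := rt (2 - w) with hy
    have hy2 : y ^ 2 = 2 - w := rt_sq _
    have hσy2 : (σ y) ^ 2 = 2 + w := by rw [← map_pow, hy2, map_sub, hσw, fix_two, sub_neg_eq_add]
    have hc : (y * σ y) ^ 2 = 5 - u := by
      rw [mul_pow, hy2, hσy2]; linear_combination -hw
    have hy0 : y ≠ 0 := by intro h0; rw [h0] at hy2; apply hw1; rw [← hy2]; ring
    have hσy0 : σ y ≠ 0 := by intro h0; rw [h0] at hσy2; apply hwm; rw [← hσy2]; ring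
    have h2u : 5 - u ≠ 0 := by rw [← hc]; exact pow_ne_zero 2 (mul_ne_zero hy0 hσy0)
    have hfix : (σ ^ 2) (2 - w) = 2 - w := by
      rw [hpow, map_sub, fix_two, hσw, map_sub, map_neg, fix_two, hσw, neg_neg]
    have hfix2 : σ (5 - u) = 5 - u := fix_five_sub hu
    rcases two_cases (chi σ (5 - u)) with h' | h'
    · rw [h', chi_eq_zero_iff hfix hy2, hpow]
      have h3 := (chi_eq_zero_iff hfix2 hc).1 h'
      rw [map_mul] at h3
      have h4 : σ y * (σ (σ y) - y) = 0 := by linear_combination h3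
      rcases mul_eq_zero.1 h4 with h5 | h5
      · exact absurd h5 hσy0
      · exact sub_eq_zero.1 h5
    · rw [h', chi_eq_one_iff hw1 hfix hy2, hpow]
      have h3 := (chi_eq_one_iff h2u hfix2 hc).1 h'
      rw [map_mul] at h3
      have h4 : σ y * (σ (σ y) + y) = 0 := by linear_combination h3
      rcases mul_eq_zero.1 h4 with h5 | h5
      · exact absurd h5 hσy0
      · exact eq_neg_of_add_eq_zero_left h5

theorem sq_mem_N {n : ℕ} {σ : G} (h : σ ∈ N n) : σ ^ 2 ∈ N (n + 1) := by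
  have h2 : σ ^ 2 ∈ N n := (N n).pow_mem h 2
  apply mem_N_succ_of_sq h2
  intro w
  have := fix_sub_one (h _ w.2)
  rw [pow_two, chi_comp this this, CharTwo.add_self_eq_zero]

theorem pow_two_pow_mem (n : ℕ) (σ : G) : σ ^ (2 ^ n) ∈ N n := by
  induction n with
  | zero => rw [N_zero]; exact Subgroup.mem_top _
  | succ n ih => rw [pow_succ, pow_mul]; exact sq_mem_N ih

theorem T_sq {n : ℕ} {σ : G} (h : σ ∈ N n) : T (n + 1) (σ ^ 2) = pull n (T n σ * S n σ) := by
  funext w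
  rw [pull_apply]
  have hw : w.1 ^ 2 = (par w).1 - 1 := by rw [par_val]; ring
  exact chi_child_sq (h _ (par w).2) hw (ne_zero_of_mem w.2) (sub_one_ne w.2) (sub_one_ne (ng w).2)

/-- commutators: `T [τ,σ] = pull (T τ * S σ)` for `τ ∈ N n`, `σ ∈ N (n+1)` -/
theorem T_comm {n : ℕ} {τ σ : G} (hτ : τ ∈ N n) (hσ : σ ∈ N (n + 1)) :
    T (n + 1) (τ * σ * τ⁻¹ * σ⁻¹) = pull n (T n τ * S n σ) := by
  have h1 : τ * σ * τ⁻¹ ∈ N (n + 1) := N_conj hσ τ
  rw [T_mul h1 ((N (n + 1)).inv_mem hσ), T_inv hσ]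
  funext w
  rw [Pi.add_apply, pull_apply, Pi.mul_apply]
  have hw : w.1 ^ 2 = (par w).1 - 1 := by rw [par_val]; ring
  have hpar := hτ _ (par w).2
  have hS := congrFun (S_eq_sumch hσ) (par w)
  rw [sumch_apply] at hS
  have hS2 : S n σ (par w) = T (n + 1) σ w + T (n + 1) σ (ng w) := by
    rw [hS]
    rcases eq_ch_or w with h | h
    · rw [← h]
    · have h' : ng w = ch (par w) := by conv_lhs => rw [h]; exact ng_ng _
      rw [← h, h', add_comm]
  have hu1 : (par w).1 - 1 ≠ 0 := sub_one_ne (par w).2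
  rcases two_cases (T n τ (par w)) with h | h
  · have h2 : τ w.1 = w.1 := (chi_eq_zero_iff (fix_sub_one hpar) hw).1 h
    have h3 : τ • w = w := Subtype.ext h2
    have h4 := T_conj hσ τ w
    rw [h3] at h4
    rw [h4, h, zero_mul, CharTwo.add_self_eq_zero]
  · have h2 : τ w.1 = -w.1 := (chi_eq_one_iff hu1 (fix_sub_one hpar) hw).1 h
    have h3 : τ • (ng w) = w := by
      apply Subtype.ext; rw [smul_val, ng_val, map_neg, h2, neg_neg]
    have h4 := T_conj hσ τ (ng w)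
    rw [h3] at h4
    rw [h4, h, one_mul, hS2, add_comm]

end Arb49
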