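import Pool.Agent.Lib.MP_32d347_h49.BaseZ

namespace Arb49
open Finset Module

theorem mem_N_one {σ : G} (h : chi σ (-1) = 0) : σ ∈ N 1 := by
  have h1 : σ xx.1 = xx.1 := (chi_eq_zero_iff (fix_neg_one σ) xx_sq).1 h
  rw [mem_N_iff]
  intro w
  apply Subtype.ext
  rw [smul_val]
  rcases eq_xx_or w with hw | hw
  · rw [hw, h1]
  · rw [hw, ng_val, map_neg, h1]

theorem mem_N_two {σ : G} (hσ : σ ∈ N 1) (h1 : chi σ (xx.1 - 1) = 0) (h2 : chi σ (-xx.1 - 1) = 0) : σ ∈ N 2 := by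
  apply mem_N_succ_of_sq hσ
  intro w
  rcases eq_xx_or w with hw | hw
  · rw [hw, h1]
  · rw [hw, ng_val, h2]

theorem exists_swap : ∃ g : G, g xx.1 = -xx.1 := by
  obtain ⟨g, hg, _, _⟩ := b00 1 0 0
  exact ⟨g, (chi_eq_one_iff neg_one_ne (fix_neg_one g) xx_sq).1 hg⟩

theorem b0 (a b c d : ZMod 2) : ∃ σ ∈ N 1, chi σ (xx.1 - 1) = a ∧ chi σ (-xx.1 - 1) = b ∧
    chi σ (2 - xx.1) = c ∧ chi σ (2 + xx.1) = d := by
  have fa : ∀ σ ∈ N 1, σ (xx.1 - 1) = xx.1 - 1 := fun σ hσ => fix_sub_one (hσ _ xx.2)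
  have fb : ∀ σ ∈ N 1, σ (-xx.1 - 1) = -xx.1 - 1 := fun σ hσ => fix_sub_one (hσ _ (ng xx).2)
  have fc : ∀ σ ∈ N 1, σ (2 - xx.1) = 2 - xx.1 := fun σ hσ => fix_two_sub (hσ _ xx.2)
  have fd : ∀ σ ∈ N 1, σ (2 + xx.1) = 2 + xx.1 := fun σ hσ => fix_two_add (hσ _ xx.2)
  let J : Submodule (ZMod 2) (Fin 4 → ZMod 2) :=
    { carrier := {X | ∃ σ ∈ N 1, X = ![chi σ (xx.1 - 1), chi σ (-xx.1 - 1), chi σ (2 - xx.1), chi σ (2 + xx.1)]}
      add_mem' := by
        rintro _ _ ⟨σ, hσ, rfl⟩ ⟨τ, hτ, rfl⟩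
        refine ⟨σ * τ, (N 1).mul_mem hσ hτ, ?_⟩
        rw [chi_comp (fa σ hσ) (fa τ hτ), chi_comp (fb σ hσ) (fb τ hτ),
          chi_comp (fc σ hσ) (fc τ hτ), chi_comp (fd σ hσ) (fd τ hτ)]
        funext i; fin_cases i <;> rfl
      zero_mem' := by
        refine ⟨1, (N 1).one_mem, ?_⟩
        rw [chi_one, chi_one, chi_one, chi_one]
        funext i; fin_cases i <;> rfl
      smul_mem' := by
        rintro c _ ⟨σ, hσ, rfl⟩
        rcases two_cases c with h | h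
        · rw [h, zero_smul]
          refine ⟨1, (N 1).one_mem, ?_⟩
          rw [chi_one, chi_one, chi_one, chi_one]
          funext i; fin_cases i <;> rfl
        · rw [h, one_smul]; exact ⟨σ, hσ, rfl⟩ }
  by_contra hne
  have hv : (![a, b, c, d] : Fin 4 → ZMod 2) ∉ J := by
    rintro ⟨σ, hσ, h⟩
    apply hne
    exact ⟨σ, hσ, (congrFun h 0).symm, (congrFun h 1).symm, (congrFun h 2).symm, (congrFun h 3).symm⟩
  obtain ⟨X, hX, hX1⟩ := dual_sep J _ hv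
  have hrel : ∀ σ ∈ N 1, X 0 * chi σ (xx.1 - 1) + X 1 * chi σ (-xx.1 - 1) + X 2 * chi σ (2 - xx.1)
      + X 3 * chi σ (2 + xx.1) = 0 := by
    intro σ hσ
    have := hX _ ⟨σ, hσ, rfl⟩
    rw [Fin.sum_univ_four] at this
    exact this
  obtain ⟨g, hg⟩ := exists_swap
  have hrel2 : ∀ σ ∈ N 1, X 0 * chi σ (-xx.1 - 1) + X 1 * chi σ (xx.1 - 1) + X 2 * chi σ (2 + xx.1)
      + X 3 * chi σ (2 - xx.1) = 0 := by
    intro σ hσ
    have h1 := hrel (g * σ * g⁻¹) (N_conj hσ g)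
    have e1 : chi (g * σ * g⁻¹) (xx.1 - 1) = chi σ (-xx.1 - 1) := by
      rw [← chi_conj (g := g) (fb σ hσ), map_sub, map_neg, hg, neg_neg, map_one]
    have e2 : chi (g * σ * g⁻¹) (-xx.1 - 1) = chi σ (xx.1 - 1) := by
      rw [← chi_conj (g := g) (fa σ hσ), map_sub, hg, map_one]
    have e3 : chi (g * σ * g⁻¹) (2 - xx.1) = chi σ (2 + xx.1) := by
      rw [← chi_conj (g := g) (fd σ hσ), map_add, hg, fix_two, sub_eq_add_neg]
    have e4 : chi (g * σ * g⁻¹) (2 + xx.1) = chi σ (2 - xx.1) := by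
      rw [← chi_conj (g := g) (fc σ hσ), map_sub, hg, fix_two, sub_neg_eq_add]
    rw [e1, e2, e3, e4] at h1
    exact h1
  have hsum : ∀ σ ∈ N 1, (X 0 + X 1) * chi σ 2 + (X 2 + X 3) * chi σ 5 = 0 := by
    intro σ hσ
    rw [c_two_eq hσ, c_five_eq hσ]
    have h1 := hrel σ hσ
    have h2 := hrel2 σ hσ
    linear_combination h1 + h2
  obtain ⟨s1, p1, p2, p3⟩ := b00 0 1 0
  obtain ⟨s2, q1, q2, q3⟩ := b00 0 0 1
  have hs1 := mem_N_one p1
  have hs2 := mem_N_one q1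
  have h01 : X 0 + X 1 = 0 := by
    have := hsum s1 hs1; rw [p2, p3] at this; simpa using this
  have h23 : X 2 + X 3 = 0 := by
    have := hsum s2 hs2; rw [q2, q3] at this; simpa using this
  have h01' : X 1 = X 0 := by
    have : ∀ a b : ZMod 2, a + b = 0 → b = a := by decide
    exact this _ _ h01
  have h23' : X 3 = X 2 := by
    have : ∀ a b : ZMod 2, a + b = 0 → b = a := by decide
    exact this _ _ h23
  have h0 : X 0 = 0 := by
    have h1 := hrel s1 hs1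
    have h2 := c_two_eq hs1
    have h3 := c_five_eq hs1
    rw [p2] at h2; rw [p3] at h3
    rw [h01', h23'] at h1
    linear_combination h1 + X 0 * h2 + X 2 * h3
  have h2 : X 2 = 0 := by
    have h1 := hrel s2 hs2
    have h2 := c_two_eq hs2
    have h3 := c_five_eq hs2
    rw [q2] at h2; rw [q3] at h3
    rw [h01', h23'] at h1
    linear_combination h1 + X 0 * h2 + X 2 * h3
  rw [Fin.sum_univ_four, h01', h23', h0, h2] at hX1
  simp at hX1

theorem V_zero : V 0 = ⊤ := by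
  obtain ⟨σ, h, _, _⟩ := b00 1 0 0
  have h0 : σ ∈ N 0 := by rw [N_zero]; exact Subgroup.mem_top _
  refine level_lemma Tr_zero (V 0) (fun g X hX => V_conj g hX) (T_mem_V h0) ?_
  rw [Fintype.sum_eq_single root (fun u hu => absurd (eq_root u) hu)]
  change chi σ (root.1 - 1) = 1
  rw [root_val, zero_sub]; exact h

theorem top_ne_bot (n : ℕ) : (⊤ : Submodule (ZMod 2) (LL n → ZMod 2)) ≠ ⊥ := by
  intro h
  have h1 := finrank_fun n
  rw [← finrank_top, h, finrank_bot] at h1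
  have : 0 < 2 ^ n := Nat.two_pow_pos n
  omega

theorem Tr_one : Tr 1 := Tr_succ Tr_zero (by rw [V_zero]; exact top_ne_bot 0)

theorem V_one : V 1 = ⊤ := by
  obtain ⟨σ, hσ, h1, h2, _, _⟩ := b0 1 0 0 0
  refine level_lemma Tr_one (V 1) (fun g X hX => V_conj g hX) (T_mem_V hσ) ?_
  rw [sum_LL_one]
  change chi σ (xx.1 - 1) + chi σ (-xx.1 - 1) = 1
  rw [h1, h2, add_zero]

theorem Tr_two : Tr 2 := Tr_succ Tr_one (by rw [V_one]; exact top_ne_bot 1)

theorem V_two : V 2 = ⊤ := by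
  obtain ⟨σ, hσ, h1, h2, h3, h4⟩ := b0 0 0 1 0
  have hσ2 := mem_N_two hσ h1 h2
  refine level_lemma Tr_two (V 2) (fun g X hX => V_conj g hX) (T_mem_V hσ2) ?_
  rw [sum_eq_sum_sumch, ← S_eq_sumch hσ2, sum_LL_one]
  change chi σ (2 - xx.1) + chi σ (2 - (-xx.1)) = 1
  rw [sub_neg_eq_add, h3, h4, add_zero]

theorem Tr_three : Tr 3 := Tr_succ Tr_two (by rw [V_two]; exact top_ne_bot 2)

theorem chi_five_N1 {σ : G} (hσ : σ ∈ N 1) (u : LL 1) :
    chi σ (5 - u.1) = chi σ 2 + T 1 σ u + S 1 σ u := fact_one u.2 (hσ _ u.2)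

/-- `S 2 (τ²)` for `τ ∈ N 1` -/
theorem S_two_sq {τ : G} (hτ : τ ∈ N 1) :
    S 2 (τ ^ 2) = pull 1 (fun u => T 1 τ u * (chi τ 2 + T 1 τ u + S 1 τ u)) := by
  funext w
  rw [pull_apply]
  have hw : w.1 ^ 2 = (par w).1 - 1 := by rw [par_val]; ring
  change chi (τ ^ 2) (2 - w.1) = _
  rw [chi_two_sub_sq (hτ _ (par w).2) hw (ne_zero_of_mem w.2) (two_sub_ne w.2) (two_add_ne w.2),
    chi_five_N1 hτ (par w)]
  rfl

theorem Good_two : Good 2 := by
  obtain ⟨τ, hτ, h1, h2, h3, h4⟩ := b0 1 1 0 0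
  have hT1 : T 1 τ = fun _ => 1 := by
    funext u
    rcases eq_xx_or u with h | h
    · rw [h]; exact h1
    · rw [h]; exact h2
  have hS1 : S 1 τ = fun _ => 0 := by
    funext u
    rcases eq_xx_or u with h | h
    · rw [h]; exact h3
    · rw [h]; change chi τ (2 - (-xx.1)) = 0; rw [sub_neg_eq_add]; exact h4
  have hc2 : chi τ 2 = 0 := by rw [c_two_eq hτ, h1, h2]; rfl
  have hsq : τ ^ 2 ∈ N 3 := by
    rw [← T_eq_zero_iff (sq_mem_N hτ), T_sq hτ, hT1, hS1]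
    funext w; simp [pull_apply]
  have hS2 : S 2 (τ ^ 2) = fun _ => 1 := by
    rw [S_two_sq hτ, hT1, hS1, hc2]
    funext w; simp [pull_apply]
  obtain ⟨ρ, hρ, hT⟩ : (Pi.single (ch xx) 1 : LL 2 → ZMod 2) ∈ V 2 := by
    rw [V_two]; exact Submodule.mem_top
  refine ⟨ρ, hρ, τ ^ 2, hsq, ?_⟩
  rw [hT, hS2]
  simp

theorem D_two : D 2 = ⊤ := D_top Tr_two Good_two

theorem comap_V_three : (V 3).comap (pull 2) = ⊤ := by
  rw [eq_top_iff, ← D_two]; exact D_le_comap 2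

theorem v_zero : v 0 = 1 := by rw [v_of_top V_zero]; rfl
theorem v_one : v 1 = 2 := by rw [v_of_top V_one]; rfl
theorem v_two : v 2 = 4 := by rw [v_of_top V_two]; rfl

theorem v_three : v 3 = 5 := by
  apply le_antisymm v_three_le
  rw [v, RK 2 (V 3), comap_V_three, finrank_top, finrank_fun]
  obtain ⟨τ, hτ, σ, hσ, hs⟩ := Good_two
  have h1 : 0 < finrank (ZMod 2) ((V 3).map (sumch 2)) := by
    rw [Module.finrank_pos_iff_exists_ne_zero]
    refine ⟨⟨S 2 σ, ?_⟩, ?_⟩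
    · rw [S_eq_sumch hσ]; exact Submodule.mem_map_of_mem (T_mem_V hσ)
    · intro h0
      have h0' : S 2 σ = 0 := congrArg Subtype.val h0
      rw [h0'] at hs
      simp at hs
  norm_num
  omega

end Arb49
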