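import Pool.Agent.Lib.MP_32d347_h49.BaseA

namespace Arb49
open Finset Module

theorem neg_one_N1 {σ : G} (hσ : σ ∈ N 1) : chi σ (-1) = 0 := c_neg_one hσ

/-- `χ_5 (τ)` on `N 2` is the parity of `T 2 τ` -/
theorem c_five_N2 {τ : G} (hτ : τ ∈ N 2) : chi τ 5 = ∑ w, T 2 τ w := by
  rw [sum_eq_sum_sumch, ← S_eq_sumch hτ, sum_LL_one, c_five_eq (N_le (by norm_num) hτ)]
  change _ = chi τ (2 - xx.1) + chi τ (2 - (-xx.1))
  rw [sub_neg_eq_add]

theorem zmod2_mul_self (a : ZMod 2) : a * a = a := by revert a; decide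

theorem U_two_sq {τ : G} (hτ : τ ∈ N 2) (h : ∑ w, T 2 τ w = 0) : U 2 (τ ^ 2) = T 2 τ := by
  funext b
  change chi (τ ^ 2) (2 - (ch b).1) = chi τ (b.1 - 1)
  have hb := hτ _ b.2
  rw [chi_two_sub_sq hb (ch_sq b) (ne_zero_of_mem (ch b).2) (two_sub_ne (ch b).2)
    (two_add_ne (ch b).2), fact_even (by decide) b.2 hb, c_neg_one (N_le (by norm_num) hτ), c_five_N2 hτ, h,
    zero_add, zero_add]
  exact zmod2_mul_self _

theorem B_two_of_even {X : LL 2 → ZMod 2} (h : ∑ w, X w = 0) : X ∈ B 2 := by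
  obtain ⟨τ, hτ, rfl⟩ : X ∈ V 2 := by rw [V_two]; exact Submodule.mem_top
  exact STEP le_rfl hτ (U_two_sq hτ h) (by rw [D_two]; exact Submodule.mem_top)

theorem even_of_N3 {σ : G} (hσ : σ ∈ N 3) : ∑ w, U 2 σ w = 0 := by
  rw [sum_eq_sum_sumch, sum_eq_sum_sumch]
  have := four_fold (m := 0) hσ hσ
  rw [this]; simp

theorem B_two_even {X : LL 2 → ZMod 2} (h : X ∈ B 2) : ∑ w, X w = 0 := by
  obtain ⟨σ, hσ, rfl⟩ := h
  exact even_of_N3 (N_succ_le _ hσ)

theorem finrank_B_two : finrank (ZMod 2) (B 2) = 3 := by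
  have h1 := RK 1 (B 2)
  have h2 := RK 0 ((B 2).map (sumch 1))
  have h3 : (B 2).comap (pull 1) = ⊤ := by
    rw [eq_top_iff]; intro m _
    exact B_two_of_even (sum_pull m)
  have h4 : ((B 2).map (sumch 1)).map (sumch 0) = ⊥ := by
    rw [eq_bot_iff]
    rintro _ ⟨_, ⟨X, hX, rfl⟩, rfl⟩
    rw [B_four X hX]; exact Submodule.zero_mem _
  have h5 : ((B 2).map (sumch 1)).comap (pull 0) = ⊤ := by
    rw [eq_top_iff]; intro m _
    rw [Submodule.mem_comap, Submodule.mem_map]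
    -- a function on level 2 with children sums `pull m`
    let X : LL 2 → ZMod 2 := fun w => if w = ch (par w) then m (par (par w)) else 0
    have hX : sumch 1 X = pull 0 m := by
      funext u
      rw [sumch_apply, pull_apply]
      have e1 : X (ch u) = m (par u) := by
        change (if _ then _ else _) = _
        rw [par_ch, if_pos rfl]
      have e2 : X (ng (ch u)) = 0 := by
        change (if _ then _ else _) = _
        rw [par_ng, par_ch, if_neg (ng_ne _)]
      rw [e1, e2, add_zero]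
    refine ⟨X, B_two_of_even ?_, hX⟩
    rw [sum_eq_sum_sumch, hX, sum_pull]
  rw [h3, finrank_top, finrank_fun, h2, h4, h5, finrank_bot, finrank_top, finrank_fun] at h1
  rw [h1]; norm_num

/-- second commutator formula -/
theorem comm2 {n : ℕ} (hn : 1 ≤ n) {g σ : G} (hg : g ∈ N n) (hσ : σ ∈ N (n + 2)) :
    ∃ m, T (n + 2) (g * σ * g⁻¹ * σ⁻¹) = pull (n + 1) m ∧
      ∑ u, m u = ∑ a, U n σ a * S n g a := by
  have hσ1 : g * σ * g⁻¹ ∈ N (n + 2) := N_conj hσ g
  have hσ3 : σ ∈ N 3 := N_le (by omega) hσ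
  have hT : T (n + 2) (g * σ * g⁻¹ * σ⁻¹) = T (n + 2) (g * σ * g⁻¹) + T (n + 2) σ := by
    rw [T_mul hσ1 ((N (n + 2)).inv_mem hσ), T_inv hσ]
  have hsum : sumch (n + 1) (T (n + 2) (g * σ * g⁻¹ * σ⁻¹)) = 0 := by
    rw [hT, map_add, ← S_eq_sumch hσ1, ← S_eq_sumch hσ, S_eq_pull hn (N_conj hσ3 g) (N_succ_le _ hσ1),
      S_eq_pull hn hσ3 (N_succ_le _ hσ)]
    have : U n (g * σ * g⁻¹) = U n σ := by
      funext b
      have h1 := U_conj hn hσ3 (N_succ_le _ hσ) g b
      rw [mem_N_iff.1 hg b] at h1; exact h1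
    have hz : U n σ + U n σ = 0 := by funext b; exact CharTwo.add_self_eq_zero _
    rw [this, ← map_add, hz, map_zero]
  obtain ⟨m, hm⟩ := exists_pull_of_sumch_eq_zero hsum
  refine ⟨m, hm, ?_⟩
  rw [sum_LL_succ]
  refine sum_congr rfl fun a _ => ?_
  have hmu : ∀ u : LL (n + 1), m u = T (n + 2) σ (g⁻¹ • ch u) + T (n + 2) σ (ch u) := by
    intro u
    have h1 := congrFun hm (ch u)
    rw [pull_apply, par_ch, hT, Pi.add_apply] at h1
    rw [← h1]
    have h2 := T_conj hσ g (g⁻¹ • ch u)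
    rw [smul_inv_smul] at h2
    rw [h2]
  set u := ch a with hu
  set w := ch u with hw
  set w' := ch (ng u) with hw'
  rw [hmu, hmu, ← hw, ← hw']
  set X := T (n + 2) σ with hX
  -- children sums
  have hS : ∀ z : LL (n + 1), X (ch z) + X (ng (ch z)) = U n σ (par z) := by
    intro z
    have h1 := congrFun (S_eq_sumch hσ) z
    rw [S_eq_pull hn hσ3 (N_succ_le _ hσ), sumch_apply, pull_apply] at h1
    exact h1.symm
  have hS1 : X w + X (ng w) = U n σ a := by have := hS u; rwa [hu, par_ch] at this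
  have hS2 : X w' + X (ng w') = U n σ a := by have := hS (ng u); rwa [par_ng, hu, par_ch] at this
  -- the element g⁻¹
  set h := g⁻¹ with hh
  have hhN : h ∈ N n := (N n).inv_mem hg
  have ha : h a.1 = a.1 := hhN _ a.2
  have hSg : S n g a = S n h a := (chi_inv (fix_two_sub (hg _ a.2))).symm
  rw [hSg]
  have hwu : w.1 ^ 2 = u.1 - 1 := ch_sq u
  have hwu' : w'.1 ^ 2 = -u.1 - 1 := ch_sq (ng u)
  have hua : u.1 ^ 2 = a.1 - 1 := ch_sq a
  have hw0 := ne_zero_of_mem w.2
  have hw0' := ne_zero_of_mem w'.2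
  have hprod : (w.1 * w'.1) ^ 2 = 2 - a.1 := by rw [mul_pow, hwu, hwu']; linear_combination -hua
  have hfix : h (2 - a.1) = 2 - a.1 := fix_two_sub ha
  have hne : 2 - a.1 ≠ 0 := two_sub_ne a.2
  -- sign of `S`
  have hS0 : h (w.1 * w'.1) = w.1 * w'.1 → S n h a = 0 := fun e =>
    (chi_eq_zero_iff hfix hprod).2 e
  have hS1' : h (w.1 * w'.1) = -(w.1 * w'.1) → S n h a = 1 := fun e =>
    (chi_eq_one_iff hne hfix hprod).2 e
  have two : ∀ a : ZMod 2, a + a = 0 := by decide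
  rcases sq_eq_aut (fix_sub_one ha) hua with hc | hc
  · -- `h` fixes `u`
    have k1 : h w.1 = w.1 ∨ h w.1 = -w.1 := sq_eq_aut (fix_sub_one hc) hwu
    have k2 : h w'.1 = w'.1 ∨ h w'.1 = -w'.1 :=
      sq_eq_aut (y := -u.1 - 1) (by rw [map_sub, map_neg, hc, map_one]) hwu'
    rcases k1 with k1 | k1 <;> rcases k2 with k2 | k2
    · have e1 : h • w = w := Subtype.ext k1
      have e2 : h • w' = w' := Subtype.ext k2
      rw [e1, e2, hS0 (by rw [map_mul, k1, k2]), two, two]; ring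
    · have e1 : h • w = w := Subtype.ext k1
      have e2 : h • w' = ng w' := Subtype.ext k2
      rw [e1, e2, hS1' (by rw [map_mul, k1, k2]; ring), two, add_comm (X (ng w')), hS2]; ring
    · have e1 : h • w = ng w := Subtype.ext k1
      have e2 : h • w' = w' := Subtype.ext k2
      rw [e1, e2, hS1' (by rw [map_mul, k1, k2]; ring), two, add_comm (X (ng w)), hS1]; ring
    · have e1 : h • w = ng w := Subtype.ext k1
      have e2 : h • w' = ng w' := Subtype.ext k2
      rw [e1, e2, hS0 (by rw [map_mul, k1, k2]; ring), add_comm (X (ng w)), hS1, add_comm (X (ng w')), hS2,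
        two]; ring
  · -- `h` swaps
    have k1 : h w.1 = w'.1 ∨ h w.1 = -w'.1 := by
      have : (h w.1) ^ 2 = w'.1 ^ 2 := by rw [← map_pow, hwu, hwu', map_sub, hc, map_one]
      exact sq_eq_sq_iff_eq_or_eq_neg.1 this
    have k2 : h w'.1 = w.1 ∨ h w'.1 = -w.1 := by
      have : (h w'.1) ^ 2 = w.1 ^ 2 := by rw [← map_pow, hwu, hwu', map_sub, map_neg, hc, neg_neg, map_one]
      exact sq_eq_sq_iff_eq_or_eq_neg.1 this
    rcases k1 with k1 | k1 <;> rcases k2 with k2 | k2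
    · have e1 : h • w = w' := Subtype.ext k1
      have e2 : h • w' = w := Subtype.ext k2
      rw [e1, e2, hS0 (by rw [map_mul, k1, k2]; ring)]
      linear_combination two (X w) + two (X w')
    · have e1 : h • w = w' := Subtype.ext k1
      have e2 : h • w' = ng w := Subtype.ext k2
      rw [e1, e2, hS1' (by rw [map_mul, k1, k2]; ring)]
      linear_combination hS1 + two (X w')
    · have e1 : h • w = ng w' := Subtype.ext k1
      have e2 : h • w' = w := Subtype.ext k2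
      rw [e1, e2, hS1' (by rw [map_mul, k1, k2]; ring)]
      linear_combination hS2 + two (X w)
    · have e1 : h • w = ng w' := Subtype.ext k1
      have e2 : h • w' = ng w := Subtype.ext k2
      rw [e1, e2, hS0 (by rw [map_mul, k1, k2]; ring)]
      linear_combination hS1 + hS2 + two (U n σ a)

/-- an odd commutator: `g ∈ N 2`, `σ ∈ N 4` -/
theorem odd_comm : ∃ g ∈ N 2, ∃ σ ∈ N 4, ∃ m : LL 3 → ZMod 2,
    T 4 (g * σ * g⁻¹ * σ⁻¹) = pull 3 m ∧ ∑ u, m u = 1 := by
  set a : LL 2 := ch xx with ha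
  obtain ⟨g, hg, hTg⟩ : (Pi.single a 1 : LL 2 → ZMod 2) ∈ V 2 := by rw [V_two]; exact Submodule.mem_top
  obtain ⟨σ, hσ, hU⟩ : (Pi.single a 1 + Pi.single (ng a) 1 : LL 2 → ZMod 2) ∈ B 2 := by
    apply B_two_of_even
    simp only [Pi.add_apply, sum_add_distrib, Finset.sum_pi_single', mem_univ, if_true]
    rfl
  obtain ⟨m, hm, hs⟩ := comm2 (n := 2) (by norm_num) hg hσ
  refine ⟨g, hg, σ, hσ, m, hm, ?_⟩
  rw [hs, hU]
  simp only [Pi.add_apply, add_mul, sum_add_distrib, Pi.single_apply, ite_mul, one_mul, zero_mul, sum_ite_eq',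
    mem_univ, if_true]
  -- `χ_(2-a)(g) + χ_(2+a)(g) = χ_(5-x)(g)`
  have hg1 : g ∈ N 1 := N_le (by norm_num) hg
  have e1 : S 2 g a + S 2 g (ng a) = chi g (5 - xx.1) := by
    change chi g (2 - a.1) + chi g (2 - (-a.1)) = _
    have h5 : 5 - xx.1 = (2 - a.1) * (2 + a.1) := by
      have := ch_sq xx
      rw [← ha] at this; linear_combination this
    rw [h5, chi_mul (two_sub_ne a.2) (two_add_ne a.2) (fix_two_sub (hg _ a.2)) (fix_two_add (hg _ a.2)),
      sub_neg_eq_add]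
  rw [e1, chi_five_N1 hg1 xx, c_two hg]
  have e2 : T 1 g xx = 0 := congrFun ((T_eq_zero_iff hg1).2 hg) xx
  rw [e2, S_eq_sumch hg, sumch_apply, hTg, ← ha, Pi.single_eq_same, Pi.single_eq_of_ne (ng_ne a)]
  rfl

theorem comap_V_four : (V 4).comap (pull 3) = ⊤ := by
  obtain ⟨g, hg, σ, hσ, m, hm, hs⟩ := odd_comm
  refine level_lemma Tr_three _ ?_ (X0 := m) ?_ hs
  · intro h X hX
    rw [Submodule.mem_comap] at hX ⊢
    have := V_conj h hX
    convert this using 1
    funext w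
    rw [pull_apply, pull_apply, par_smul]
  · rw [Submodule.mem_comap, ← hm]
    exact T_mem_V ((N 4).mul_mem (N_conj hσ g) ((N 4).inv_mem hσ))

theorem v_four : v 4 = 11 := by
  rw [v_split 2 (by norm_num), finrank_B_two]
  change 3 + finrank (ZMod 2) ((V 4).comap (pull 3)) = 11
  rw [comap_V_four, finrank_top, finrank_fun]; norm_num

theorem Tr_four : Tr 4 := Tr_succ Tr_three (V_ne_bot_of_pos (by rw [v_three]; norm_num))

end Arb49
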