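import Pool.Agent.Lib.MP_32d347_h49.BaseB

namespace Arb49
open Finset Module

theorem sumch_mul_pull {n : ℕ} (Y : LL (n + 1) → ZMod 2) (X : LL n → ZMod 2) :
    sumch n (Y * pull n X) = sumch n Y * X := by
  funext u
  rw [Pi.mul_apply, sumch_apply, sumch_apply, Pi.mul_apply, Pi.mul_apply, pull_apply, pull_apply, par_ng,
    par_ch]
  ring

theorem pull_mem_D_three (m : LL 2 → ZMod 2) : pull 2 m ∈ D 3 := by
  have h : (D 3).comap (pull 2) = ⊤ := by
    set a : LL 2 := ch xx with ha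
    obtain ⟨τ, hτ, hT⟩ : pull 2 (Pi.single a 1) ∈ V 3 := by
      have : (Pi.single a 1 : LL 2 → ZMod 2) ∈ (V 3).comap (pull 2) := by
        rw [comap_V_three]; exact Submodule.mem_top
      exact this
    obtain ⟨σ, hσ, hU⟩ : (Pi.single a 1 + Pi.single (ng a) 1 : LL 2 → ZMod 2) ∈ B 2 := by
      apply B_two_of_even
      simp only [Pi.add_apply, sum_add_distrib, Finset.sum_pi_single', mem_univ, if_true]
      rfl
    refine level_lemma Tr_two _ ?_ (X0 := Pi.single a 1) ?_ ?_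
    · intro g X hX
      rw [Submodule.mem_comap] at hX ⊢
      have := D_conj g _ hX
      convert this using 1
      funext w
      rw [pull_apply, pull_apply, par_smul]
    · rw [Submodule.mem_comap]
      have h1 := mem_D hτ hσ
      rw [hT, S_eq_pull (k := 2) (by norm_num) (N_succ_le _ hσ) (N_succ_le _ hσ), hU] at h1
      convert h1 using 1
      funext w
      rw [Pi.mul_apply, pull_apply, pull_apply, Pi.add_apply]
      by_cases hw : par w = a
      · rw [hw, Pi.single_eq_same, Pi.single_eq_of_ne (ng_ne a).symm]; rfl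
      · rw [Pi.single_eq_of_ne hw, zero_mul]
    · simp
  have : m ∈ (D 3).comap (pull 2) := by rw [h]; exact Submodule.mem_top
  exact this

theorem S_two_eq_one : ∃ τ ∈ N 3, S 2 τ = fun _ => 1 := by
  obtain ⟨τ, hτ, σ, hσ, hs⟩ := Good_two
  refine ⟨σ, hσ, ?_⟩
  have h1 : S 2 σ (ch xx) = 1 := by
    rcases two_cases (S 2 σ (ch xx)) with h | h
    · exfalso
      have : ∀ u, S 2 σ u = 0 := fun u => by rw [S_two_const hσ u (ch xx), h]
      simp [this] at hs
    · exact h
  funext u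
  rw [S_two_const hσ u (ch xx), h1]

theorem D_three_of_even {Z : LL 3 → ZMod 2} (h : ∑ w, Z w = 0) : Z ∈ D 3 := by
  obtain ⟨τ, hτ, hS⟩ := S_two_eq_one
  rw [sum_eq_sum_sumch] at h
  obtain ⟨σ, hσ, hU⟩ := B_two_of_even h
  have hE := mem_D hτ hσ
  have hE1 : sumch 2 (T 3 τ * S 3 σ) = sumch 2 Z := by
    rw [S_eq_pull (k := 2) (by norm_num) (N_succ_le _ hσ) (N_succ_le _ hσ), sumch_mul_pull, ← S_eq_sumch hτ,
      hS, hU]
    funext w; rw [Pi.mul_apply, one_mul]
  have hz : sumch 2 (Z - T 3 τ * S 3 σ) = 0 := by rw [map_sub, hE1, sub_self]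
  obtain ⟨m, hm⟩ := exists_pull_of_sumch_eq_zero hz
  have : Z = (Z - T 3 τ * S 3 σ) + T 3 τ * S 3 σ := by rw [sub_add_cancel]
  rw [this]
  refine Submodule.add_mem _ ?_ hE
  rw [hm]; exact pull_mem_D_three m

theorem V_three_le_B : V 3 ≤ B 3 := by
  rintro _ ⟨τ, hτ, rfl⟩
  refine STEP (by norm_num) hτ (U_sq le_rfl hτ) (D_three_of_even ?_)
  change ∑ w, T 3 τ w * S 3 τ w = 0
  rw [S_eq_pull (k := 2) (by norm_num) hτ hτ, sum_mul_pull, ← S_eq_sumch hτ]
  have : ∀ u, S 2 τ u * U 2 τ u = S 2 τ (ch xx) * U 2 τ u := fun u => by rw [S_two_const hτ u (ch xx)]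
  simp only [this, ← mul_sum]
  rw [even_of_N3 hτ, mul_zero]

/-- `Γ` -/
noncomputable def Gam (r : G) (v : LL 1) : ZMod 2 := sumch 2 (U 3 r) (ch v)

theorem sumch_U_three {r : G} (hr : r ∈ N 4) : sumch 2 (U 3 r) = pull 1 (Gam r) := by
  have h := four_fold (m := 1) (N_succ_le _ hr) hr
  obtain ⟨m, hm⟩ := exists_pull_of_sumch_eq_zero h
  have : m = Gam r := by
    funext v
    have := congrFun hm (ch v)
    rw [pull_apply, par_ch] at this
    exact this.symm
  rw [← this]; exact hm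

theorem sumch_smul {n : ℕ} {X X' : LL (n + 1) → ZMod 2} {g : G} (h : ∀ w, X' (g • w) = X w) (u : LL n) :
    sumch n X' (g • u) = sumch n X u := by
  rw [sumch_apply, sumch_apply, ← h, ← h, ← ng_smul]
  have h1 : par (g • ch u) = par (ch (g • u)) := by rw [par_smul, par_ch, par_ch]
  rcases eq_or_of_par_eq h1 with h2 | h2
  · rw [h2]
  · rw [h2, ng_ng, add_comm]

theorem Gam_conj {r : G} (hr : r ∈ N 4) (g : G) (v : LL 1) : Gam (g * r * g⁻¹) (g • v) = Gam r v := by
  have h1 : ∀ w, U 3 (g * r * g⁻¹) (g • w) = U 3 r w :=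
    U_conj (k := 3) (by norm_num) (N_succ_le _ hr) hr g
  have h2 := sumch_smul h1 (ch v)
  rw [sumch_U_three (N_conj hr g), pull_apply, par_smul, par_ch] at h2
  exact h2

/-- the functional `φ` -/
noncomputable def phi (r : G) : ZMod 2 := ∑ v, Gam r v

theorem phi_conj {r : G} (hr : r ∈ N 4) (g : G) : phi (g * r * g⁻¹) = phi r := by
  unfold phi
  rw [← Equiv.sum_comp (MulAction.toPerm g)]
  exact sum_congr rfl fun v _ => Gam_conj hr g v

theorem phi_mul {r s : G} (hr : r ∈ N 4) (hs : s ∈ N 4) : phi (r * s) = phi r + phi s := by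
  unfold phi Gam
  rw [U_mul hr hs, map_add, ← sum_add_distrib]
  rfl

theorem phi_inv {r : G} (hr : r ∈ N 4) : phi r⁻¹ = phi r := by
  have h := phi_mul hr ((N 4).inv_mem hr)
  rw [mul_inv_cancel] at h
  have h1 : phi 1 = 0 := by
    unfold phi Gam
    have : U 3 1 = 0 := by funext w; exact chi_one _
    rw [this, map_zero]; simp
  rw [h1] at h
  have : ∀ a b : ZMod 2, 0 = a + b → b = a := by decide
  exact this _ _ h

end Arb49
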