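import Pool.Agent.Lib.MP_32d347_h49.BaseC

namespace Arb49
open Finset Module

/-- an element of `N 5` with `phi = 1` gives `Good 4` -/
theorem good_of_phi {σ : G} (hσ : σ ∈ N 5) (h : phi σ = 1) : Good 4 := by
  obtain ⟨τ, hτ, hU⟩ : (Pi.single (ch xx) 1 + Pi.single (ch (ng xx)) 1 : LL 2 → ZMod 2) ∈ B 2 := by
    apply B_two_of_even
    simp only [Pi.add_apply, sum_add_distrib, Finset.sum_pi_single', mem_univ, if_true]
    rfl
  have hσ4 := N_succ_le _ hσ
  refine ⟨τ, hτ, σ, hσ, ?_⟩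
  rw [S_eq_pull (k := 3) (by norm_num) (N_succ_le _ hσ4) hσ4, sum_mul_pull, ← S_eq_sumch hτ,
    S_eq_pull (k := 2) (by norm_num) (N_succ_le _ hτ) (N_succ_le _ hτ)]
  have h1 : ∑ u, pull 2 (U 2 τ) u * U 3 σ u = ∑ u, U 3 σ u * pull 2 (U 2 τ) u :=
    sum_congr rfl fun u _ => mul_comm _ _
  rw [h1, sum_mul_pull, sumch_U_three hσ4]
  have h2 : ∑ u, pull 1 (Gam σ) u * U 2 τ u = ∑ u, U 2 τ u * pull 1 (Gam σ) u :=
    sum_congr rfl fun u _ => mul_comm _ _
  rw [h2, sum_mul_pull, hU]
  have h3 : sumch 1 (Pi.single (ch xx) 1 + Pi.single (ch (ng xx)) 1 : LL 2 → ZMod 2) = fun _ => 1 := by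
    have hne : ch xx ≠ ch (ng xx) := by
      intro h; have := congrArg par h; rw [par_ch, par_ch] at this; exact ng_ne xx this.symm
    have hne2 : ng (ch xx) ≠ ch (ng xx) := by
      intro h; have := congrArg par h; rw [par_ng, par_ch, par_ch] at this; exact ng_ne xx this.symm
    have hne3 : ng (ch (ng xx)) ≠ ch xx := by
      intro h; have := congrArg par h; rw [par_ng, par_ch, par_ch] at this; exact ng_ne xx this
    funext u
    rw [sumch_apply, Pi.add_apply, Pi.add_apply]
    rcases eq_xx_or u with hu | hu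
    · rw [hu, Pi.single_eq_same, Pi.single_eq_of_ne hne, Pi.single_eq_of_ne (ng_ne _),
        Pi.single_eq_of_ne hne2]; rfl
    · rw [hu, Pi.single_eq_same, Pi.single_eq_of_ne hne.symm, Pi.single_eq_of_ne hne3,
        Pi.single_eq_of_ne (ng_ne _)]; rfl
  rw [h3]
  simp only [one_mul]
  exact h

/-- the special element -/
theorem special : ∃ r ∈ N 4, U 2 r = pull 1 (Pi.single (ng xx) 1) ∧ phi r = 1 := by
  obtain ⟨τ, hτ, h1, h2, h3, h4⟩ := b0 1 1 0 1
  have hxne : xx ≠ ng xx := (ng_ne xx).symm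
  have hT1 : T 1 τ = fun _ => 1 := by
    funext u
    rcases eq_xx_or u with h | h
    · rw [h]; exact h1
    · rw [h]; exact h2
  have hS1 : S 1 τ = Pi.single (ng xx) 1 := by
    funext u
    rcases eq_xx_or u with h | h
    · rw [h, Pi.single_eq_of_ne hxne]; exact h3
    · rw [h, Pi.single_eq_same]; change chi τ (2 - (-xx.1)) = 1; rw [sub_neg_eq_add]; exact h4
  have hc2 : chi τ 2 = 0 := by rw [c_two_eq hτ, h1, h2]; rfl
  have hs2 : τ ^ 2 ∈ N 2 := sq_mem_N hτ
  have hTs : T 2 (τ ^ 2) = pull 1 (Pi.single (ng xx) 1) := by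
    rw [T_sq hτ, hT1, hS1]
    congr 1
    funext u; rw [Pi.mul_apply, one_mul]
  have hSs : S 2 (τ ^ 2) = pull 1 (Pi.single xx 1) := by
    rw [S_two_sq hτ, hT1, hS1, hc2]
    congr 1
    funext u
    rcases eq_xx_or u with h | h
    · rw [h, Pi.single_eq_of_ne hxne, Pi.single_eq_same]; rfl
    · rw [h, Pi.single_eq_same, Pi.single_eq_of_ne (ng_ne xx)]; rfl
  have hr3 : (τ ^ 2) ^ 2 ∈ N 3 := sq_mem_N hs2
  have hr4 : (τ ^ 2) ^ 2 ∈ N 4 := by
    rw [← T_eq_zero_iff hr3, T_sq hs2, hTs, hSs]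
    funext w
    rw [pull_apply, Pi.mul_apply, pull_apply, pull_apply]
    rcases eq_xx_or (par (par w)) with h | h
    · rw [h, Pi.single_eq_of_ne hxne, zero_mul]; rfl
    · rw [h, Pi.single_eq_of_ne (ng_ne xx), mul_zero]; rfl
  have hU : U 2 ((τ ^ 2) ^ 2) = pull 1 (Pi.single (ng xx) 1) := by
    rw [U_two_sq hs2 (by rw [hTs, sum_pull]), hTs]
  refine ⟨(τ ^ 2) ^ 2, hr4, hU, ?_⟩
  set s := τ ^ 2 with hs
  -- values of `Gam`
  have hg1 : Gam (s ^ 2) xx = 1 := by
    unfold Gam
    rw [sumch_apply]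
    set a := ch xx with ha
    have hsa : chi s (a.1 - 1) = 0 := by
      have := congrFun hTs a
      rw [pull_apply, ha, par_ch, Pi.single_eq_of_ne hxne] at this
      exact this
    have hafix : s a.1 = a.1 := hs2 _ a.2
    -- any child of `a` is fixed
    have hval : ∀ b : LL 3, par b = a → U 3 (s ^ 2) b = chi s (b.1 - 1) := by
      intro b hb
      have hb2 : b.1 ^ 2 = a.1 - 1 := by rw [← hb, par_val]; ring
      have hbfix : s b.1 = b.1 := (chi_eq_zero_iff (fix_sub_one hafix) hb2).1 hsa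
      change chi (s ^ 2) (2 - (ch b).1) = _
      rw [chi_two_sub_sq hbfix (ch_sq b) (ne_zero_of_mem (ch b).2) (two_sub_ne (ch b).2)
        (two_add_ne (ch b).2), fact_odd (by decide) le_rfl b.2 hbfix]
      have hF1 : F b.1 = a.1 := congrArg Subtype.val hb
      have hF2 : F a.1 = xx.1 := by
        have : par a = xx := par_ch xx
        exact congrArg Subtype.val this
      have hx5 : chi s (5 - F (F b.1)) = 0 := by
        rw [hF1, hF2, hs, pow_two]
        have hfx := fix_five_sub (hτ _ xx.2)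
        rw [chi_comp hfx hfx, CharTwo.add_self_eq_zero]
      rw [hx5, add_zero]
      exact zmod2_mul_self _
    have e1 := hval (ch a) (par_ch a)
    have e2 := hval (ng (ch a)) (by rw [par_ng, par_ch])
    rw [e1, e2]
    have hb2 : (ch a).1 ^ 2 = a.1 - 1 := ch_sq a
    have hbfix : s (ch a).1 = (ch a).1 := (chi_eq_zero_iff (fix_sub_one hafix) hb2).1 hsa
    have hbfix' : s (ng (ch a)).1 = (ng (ch a)).1 := by rw [ng_val, map_neg, hbfix]
    rw [← chi_mul (sub_one_ne (ch a).2) (sub_one_ne (ng (ch a)).2) (fix_sub_one hbfix) (fix_sub_one hbfix')]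
    have hprod : ((ch a).1 - 1) * ((ng (ch a)).1 - 1) = 2 - a.1 := by
      rw [ng_val]; linear_combination -hb2
    rw [hprod]
    have := congrFun hSs a
    rw [pull_apply, ha, par_ch, Pi.single_eq_same] at this
    exact this
  have hg2 : Gam (s ^ 2) (ng xx) = 0 := by
    unfold Gam
    rw [sumch_apply]
    set a := ch (ng xx) with ha
    have hsa : chi s (a.1 - 1) = 1 := by
      have := congrFun hTs a
      rw [pull_apply, ha, par_ch, Pi.single_eq_same] at this
      exact this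
    have hafix : s a.1 = a.1 := hs2 _ a.2
    have hb2 : (ch a).1 ^ 2 = a.1 - 1 := ch_sq a
    have hbs : s (ch a).1 = -(ch a).1 := (chi_eq_one_iff (sub_one_ne a.2) (fix_sub_one hafix) hb2).1 hsa
    have hsm : s • ch a = ng (ch a) := Subtype.ext hbs
    have h5 := U_conj (k := 3) (by norm_num) hr3 hr4 s (ch a)
    have h6 : s * s ^ 2 * s⁻¹ = s ^ 2 := by group
    rw [h6, hsm] at h5
    rw [h5, CharTwo.add_self_eq_zero]
  unfold phi
  rw [sum_LL_one, hg1, hg2, add_zero]

theorem Good_four : Good 4 := by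
  by_contra hG
  have c1 : ∀ σ ∈ N 5, phi σ = 0 := by
    intro σ hσ
    rcases two_cases (phi σ) with h | h
    · exact h
    · exact absurd (good_of_phi hσ h) hG
  -- `phi` depends only on `T 4`
  have c1' : ∀ r ∈ N 4, ∀ s ∈ N 4, T 4 r = T 4 s → phi r = phi s := by
    intro r hr s hs h
    have h1 : r * s⁻¹ ∈ N 5 := by
      rw [← T_eq_zero_iff ((N 4).mul_mem hr ((N 4).inv_mem hs)), T_mul hr ((N 4).inv_mem hs), T_inv hs, h]
      funext w; exact CharTwo.add_self_eq_zero _
    have h2 := c1 _ h1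
    rw [phi_mul hr ((N 4).inv_mem hs), phi_inv hs] at h2
    have : ∀ a b : ZMod 2, a + b = 0 → a = b := by decide
    exact this _ _ h2
  let W0 : Submodule (ZMod 2) (LL 3 → ZMod 2) :=
    { carrier := {m | ∀ r ∈ N 4, T 4 r = pull 3 m → phi r = 0}
      add_mem' := by
        intro m1 m2 h1 h2 r hr hT
        obtain ⟨r1, hr1, hT1⟩ : pull 3 m1 ∈ V 4 := by
          have : m1 ∈ (V 4).comap (pull 3) := by rw [comap_V_four]; exact Submodule.mem_top
          exact this
        have e1 := h1 r1 hr1 hT1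
        have e2 : phi (r * r1) = 0 := by
          apply h2 _ ((N 4).mul_mem hr hr1)
          rw [T_mul hr hr1, hT, hT1, map_add]
          funext w
          simp only [Pi.add_apply]
          have : ∀ a b : ZMod 2, a + b + a = b := by decide
          exact this _ _
        rw [phi_mul hr hr1, e1, add_zero] at e2
        exact e2
      zero_mem' := by
        intro r hr hT
        rw [map_zero, T_eq_zero_iff hr] at hT
        exact c1 r hT
      smul_mem' := by
        intro c m h r hr hT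
        rcases two_cases c with hc | hc
        · rw [hc, zero_smul, map_zero, T_eq_zero_iff hr] at hT
          exact c1 r hT
        · rw [hc, one_smul] at hT; exact h r hr hT }
  have hW0 : W0 = ⊤ := by
    obtain ⟨g, hg, σ, hσ, m, hm, hs⟩ := odd_comm
    refine level_lemma Tr_three _ ?_ (X0 := m) ?_ hs
    · intro h X hX r hr hT
      have h1 : T 4 (h * r * h⁻¹) = pull 3 X := by
        funext w
        have := T_conj hr h (h⁻¹ • w)
        rw [smul_inv_smul] at this
        rw [this, hT, pull_apply, pull_apply, ← par_smul, smul_inv_smul]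
      have := hX _ (N_conj hr h) h1
      rw [phi_conj hr h] at this
      exact this
    · intro r hr hT
      rw [c1' r hr (g * σ * g⁻¹ * σ⁻¹) ((N 4).mul_mem (N_conj hσ g) ((N 4).inv_mem hσ)) (by rw [hT, hm]),
        phi_mul (N_conj hσ g) ((N 4).inv_mem hσ), phi_conj hσ, phi_inv hσ, CharTwo.add_self_eq_zero]
  -- `phi` depends only on `U 2`
  have c3 : ∀ r ∈ N 4, U 2 r = 0 → phi r = 0 := by
    intro r hr hU
    have h1 : sumch 3 (T 4 r) = 0 := by
      rw [← S_eq_sumch hr, S_eq_pull (k := 2) (by norm_num) (N_succ_le _ hr) (N_succ_le _ hr), hU, map_zero]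
    obtain ⟨m, hm⟩ := exists_pull_of_sumch_eq_zero h1
    have h2 : m ∈ W0 := by rw [hW0]; exact Submodule.mem_top
    exact h2 r hr hm
  -- the orbit argument
  obtain ⟨r1, hr1, hU1⟩ : (Pi.single (ch xx) 1 + Pi.single (ch (ng xx)) 1 : LL 2 → ZMod 2) ∈ B 2 := by
    apply B_two_of_even
    simp only [Pi.add_apply, sum_add_distrib, Finset.sum_pi_single', mem_univ, if_true]
    rfl
  obtain ⟨g, hg, g1, g2, _, _⟩ := b0 0 1 0 0
  set a1 := ch xx with ha1
  set a2 := ch (ng xx) with ha2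
  have ga1 : g • a1 = a1 := by
    apply Subtype.ext
    exact (chi_eq_zero_iff (fix_sub_one (hg _ xx.2)) (ch_sq xx)).1 g1
  have ga2 : g • a2 = ng a2 := by
    apply Subtype.ext
    exact (chi_eq_one_iff (sub_one_ne (ng xx).2) (fix_sub_one (hg _ (ng xx).2)) (ch_sq (ng xx))).1 g2
  have hr1' : g * r1 * g⁻¹ ∈ N 4 := N_conj hr1 g
  have hU2 : U 2 (g * r1 * g⁻¹) = Pi.single a1 1 + Pi.single (ng a2) 1 := by
    funext b
    have h1 := U_conj (k := 2) (by norm_num) (N_succ_le _ hr1) (N_succ_le _ hr1) g (g⁻¹ • b)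
    rw [smul_inv_smul] at h1
    rw [h1, hU1, Pi.add_apply, Pi.add_apply]
    have e1 : (Pi.single a1 1 : LL 2 → ZMod 2) (g⁻¹ • b) = (Pi.single a1 1 : LL 2 → ZMod 2) b := by
      by_cases hb : b = a1
      · have : g⁻¹ • b = a1 := by rw [hb, inv_smul_eq_iff, ga1]
        rw [this, hb]
      · have : g⁻¹ • b ≠ a1 := by
          intro h; rw [inv_smul_eq_iff, ga1] at h; exact hb h
        rw [Pi.single_eq_of_ne this, Pi.single_eq_of_ne hb]
    have e2 : (Pi.single a2 1 : LL 2 → ZMod 2) (g⁻¹ • b) = (Pi.single (ng a2) 1 : LL 2 → ZMod 2) b := by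
      by_cases hb : b = ng a2
      · have : g⁻¹ • b = a2 := by rw [hb, inv_smul_eq_iff, ga2]
        rw [this, hb, Pi.single_eq_same, Pi.single_eq_same]
      · have : g⁻¹ • b ≠ a2 := by
          intro h; rw [inv_smul_eq_iff, ga2] at h; exact hb h
        rw [Pi.single_eq_of_ne this, Pi.single_eq_of_ne hb]
    rw [e1, e2]
  obtain ⟨r, hr, hUr, hphi⟩ := special
  have key : phi (r * (g * r1 * g⁻¹ * r1⁻¹)) = 0 := by
    have hc : g * r1 * g⁻¹ * r1⁻¹ ∈ N 4 := (N 4).mul_mem hr1' ((N 4).inv_mem hr1)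
    apply c3 _ ((N 4).mul_mem hr hc)
    have hUinv : U 2 r1⁻¹ = U 2 r1 := by
      funext b; exact chi_inv (fix_two_sub ((N_succ_le _ hr1 : r1 ∈ N 3) _ (ch b).2))
    rw [U_mul (N_succ_le _ hr) (N_succ_le _ hc), U_mul (N_succ_le _ hr1') (N_succ_le _ ((N 4).inv_mem hr1)),
      hUinv, hU1, hU2, hUr]
    funext b
    simp only [Pi.add_apply, pull_apply, Pi.zero_apply]
    have e3 : (Pi.single (ng xx) 1 : LL 1 → ZMod 2) (par b) =
        (Pi.single a2 1 : LL 2 → ZMod 2) b + (Pi.single (ng a2) 1 : LL 2 → ZMod 2) b := by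
      by_cases hb : par b = ng xx
      · rw [hb, Pi.single_eq_same]
        rcases eq_ch_or b with h | h
        · rw [hb, ← ha2] at h
          rw [h, Pi.single_eq_same, Pi.single_eq_of_ne (ng_ne a2).symm]; rfl
        · rw [hb, ← ha2] at h
          rw [h, Pi.single_eq_same, Pi.single_eq_of_ne (ng_ne a2)]; rfl
      · rw [Pi.single_eq_of_ne hb, Pi.single_eq_of_ne, Pi.single_eq_of_ne]
        · rfl
        · intro h; apply hb; rw [h, par_ng, ha2, par_ch]
        · intro h; apply hb; rw [h, ha2, par_ch]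
    rw [e3]
    have : ∀ a b c : ZMod 2, a + b + (c + b + (c + a)) = 0 := by decide
    exact this _ _ _
  rw [phi_mul hr ((N 4).mul_mem hr1' ((N 4).inv_mem hr1)), phi_mul hr1' ((N 4).inv_mem hr1), phi_conj hr1,
    phi_inv hr1, hphi, CharTwo.add_self_eq_zero] at key
  exact absurd key (by decide)

end Arb49
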