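import Pool.Agent.Lib.MP_32d347_h49.Good

namespace Arb49
open Finset Module

/-- integers that are non-squares mod 8 are not squares in `ℚ_[2]` -/
theorem not_sq_of_mod (d : ℤ) (hd : ∀ z : ZMod 8, z ^ 2 ≠ (d : ZMod 8)) (y : ℚ_[2]) : y ^ 2 ≠ (d : ℚ_[2]) := by
  intro h
  have hy : ‖y‖ ≤ 1 := by
    have h1 : ‖y ^ 2‖ ≤ 1 := by rw [h]; exact Padic.norm_int_le_one d
    rw [norm_pow] at h1
    by_contra hc; push Not at hc; nlinarith
  obtain ⟨Y, hY⟩ : ∃ Y : ℤ_[2], (Y : ℚ_[2]) = y := ⟨⟨y, hy⟩, rfl⟩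
  have h2 : Y ^ 2 = (d : ℤ_[2]) := by
    apply Subtype.ext
    rw [PadicInt.coe_pow, hY, h]; simp
  have h3 := congrArg (PadicInt.toZModPow (p := 2) 3) h2
  rw [map_pow, map_intCast] at h3
  exact hd _ h3

/-- the sign of a rational number that is trivial on the whole group -/
theorem sq_of_chi_zero {d : ℚ_[2]} (h : ∀ σ : G, chi σ (algebraMap ℚ_[2] L d) = 0) :
    ∃ y : ℚ_[2], y ^ 2 = d := by
  have hfix : ∀ σ : G, σ (rt (algebraMap ℚ_[2] L d)) = rt (algebraMap ℚ_[2] L d) := by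
    intro σ
    exact (chi_eq_zero_iff (σ.commutes d) (rt_sq _)).1 (h σ)
  obtain ⟨y, hy⟩ := (InfiniteGalois.mem_range_algebraMap_iff_fixed (k := ℚ_[2]) (K := L) _).2 hfix
  refine ⟨y, ?_⟩
  apply (algebraMap ℚ_[2] L).injective
  rw [map_pow, hy, rt_sq]

theorem chi_intCast_zero (σ : G) {a : ZMod 2} {d : ℤ} :
    chi σ ((d ^ a.val : ℤ) : L) = a * chi σ (d : L) := by
  rcases two_cases a with h | h
  · rw [h]
    have : (0 : ZMod 2).val = 0 := rfl
    rw [this, pow_zero, zero_mul, Int.cast_one, chi_eq_zero_iff (r := 1) (map_one σ) (one_pow 2), map_one]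
  · rw [h]
    have : (1 : ZMod 2).val = 1 := rfl
    rw [this, pow_one, one_mul]

theorem fix_int (σ : G) (d : ℤ) : σ (d : L) = d := map_intCast σ d

theorem b00 (a b c : ZMod 2) : ∃ σ : G, chi σ (-1) = a ∧ chi σ 2 = b ∧ chi σ 5 = c := by
  let J : Submodule (ZMod 2) (Fin 3 → ZMod 2) :=
    { carrier := {X | ∃ σ : G, X = ![chi σ (-1), chi σ 2, chi σ 5]}
      add_mem' := by
        rintro _ _ ⟨σ, rfl⟩ ⟨τ, rfl⟩
        refine ⟨σ * τ, ?_⟩
        rw [chi_comp (fix_neg_one σ) (fix_neg_one τ), chi_comp (fix_two σ) (fix_two τ),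
          chi_comp (fix_five σ) (fix_five τ)]
        funext i; fin_cases i <;> rfl
      zero_mem' := by
        refine ⟨1, ?_⟩
        rw [chi_one, chi_one, chi_one]
        funext i; fin_cases i <;> rfl
      smul_mem' := by
        rintro c _ ⟨σ, rfl⟩
        rcases two_cases c with h | h
        · rw [h, zero_smul]
          refine ⟨1, ?_⟩
          rw [chi_one, chi_one, chi_one]
          funext i; fin_cases i <;> rfl
        · rw [h, one_smul]; exact ⟨σ, rfl⟩ }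
  by_contra hne
  have hv : (![a, b, c] : Fin 3 → ZMod 2) ∉ J := by
    rintro ⟨σ, h⟩
    apply hne
    exact ⟨σ, (congrFun h 0).symm, (congrFun h 1).symm, (congrFun h 2).symm⟩
  obtain ⟨X, hX, hX1⟩ := dual_sep J _ hv
  have hrel : ∀ σ : G, X 0 * chi σ (-1) + X 1 * chi σ 2 + X 2 * chi σ 5 = 0 := by
    intro σ
    have := hX _ ⟨σ, rfl⟩
    rw [Fin.sum_univ_three] at this
    exact this
  have hsq : ∃ y : ℚ_[2], y ^ 2 = (((-1) ^ (X 0).val * (2 ^ (X 1).val * 5 ^ (X 2).val) : ℤ) : ℚ_[2]) := by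
    apply sq_of_chi_zero
    intro σ
    have e1 : (algebraMap ℚ_[2] L) (((-1) ^ (X 0).val * (2 ^ (X 1).val * 5 ^ (X 2).val) : ℤ) : ℚ_[2])
        = (((-1) ^ (X 0).val : ℤ) : L) * ((((2 : ℤ) ^ (X 1).val : ℤ) : L) * (((5 : ℤ) ^ (X 2).val : ℤ) : L)) := by
      rw [map_intCast]; push_cast; ring
    have n1 : (((-1) ^ (X 0).val : ℤ) : L) ≠ 0 := by push_cast; exact pow_ne_zero _ (by norm_num)
    have n2 : (((2 : ℤ) ^ (X 1).val : ℤ) : L) ≠ 0 := by push_cast; exact pow_ne_zero _ (by norm_num)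
    have n3 : (((5 : ℤ) ^ (X 2).val : ℤ) : L) ≠ 0 := by push_cast; exact pow_ne_zero _ (by norm_num)
    rw [e1, chi_mul n1 (mul_ne_zero n2 n3) (fix_int σ _) (by rw [map_mul, fix_int, fix_int]),
      chi_mul n2 n3 (fix_int σ _) (fix_int σ _), chi_intCast_zero σ,
      chi_intCast_zero σ, chi_intCast_zero σ]
    have := hrel σ
    push_cast
    rw [← add_assoc]; exact this
  obtain ⟨y, hy⟩ := hsq
  rcases two_cases (X 0) with h0 | h0 <;> rcases two_cases (X 1) with h1 | h1 <;>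
    rcases two_cases (X 2) with h2 | h2
  · rw [Fin.sum_univ_three, h0, h1, h2] at hX1
    simp at hX1
  all_goals
    rw [h0, h1, h2] at hy
    refine not_sq_of_mod _ ?_ y hy
    decide

end Arb49
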