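import Pool.Agent.Lib.MP_32d347_h49.BaseD

namespace Arb49
open Finset Module

theorem Tr_succ_of_B {n : ℕ} (hT : Tr (n + 1)) (hG : Good n) (hT0 : Tr n) : Tr (n + 2) := by
  apply Tr_succ hT
  have h1 : (V (n + 1)).comap (pull n) = ⊤ := by
    rw [eq_top_iff, ← D_top hT0 hG]; exact D_le_comap n
  intro h0
  rw [h0] at h1
  have h2 : (fun _ => 1 : LL n → ZMod 2) ∈ (⊥ : Submodule (ZMod 2) (LL (n + 1) → ZMod 2)).comap (pull n) := by
    rw [h1]; exact Submodule.mem_top
  rw [Submodule.mem_comap, Submodule.mem_bot] at h2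
  -- the level is non-empty
  have h3 : 0 < Fintype.card (LL (n + 1)) := by rw [card_LL]; exact Nat.two_pow_pos _
  obtain ⟨w⟩ := Fintype.card_pos_iff.1 h3
  have h4 := congrFun h2 w
  exact absurd h4 (by change ¬ ((1 : ZMod 2) = 0); decide)

theorem Tr_five : Tr 5 := Tr_succ Tr_four (V_ne_bot_of_pos (by rw [v_four]; norm_num))

theorem main_ind (n : ℕ) : Tr (n + 4) ∧ Tr (n + 5) ∧ Good (n + 4) := by
  induction n with
  | zero => exact ⟨Tr_four, Tr_five, Good_four⟩
  | succ n ih =>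
    obtain ⟨h1, h2, h3⟩ := ih
    exact ⟨h2, Tr_succ_of_B h2 h3 h1, GoodStep (by omega) h1 h3⟩

theorem D_eq_top {n : ℕ} (hn : 4 ≤ n) : D n = ⊤ := by
  obtain ⟨m, rfl⟩ : ∃ m, n = m + 4 := ⟨n - 4, by omega⟩
  exact D_top (main_ind m).1 (main_ind m).2.2

theorem Tr_all (n : ℕ) : Tr n := by
  match n with
  | 0 => exact Tr_zero
  | 1 => exact Tr_one
  | 2 => exact Tr_two
  | 3 => exact Tr_three
  | n + 4 => exact (main_ind n).1

theorem v_rec {n : ℕ} (hn : 4 ≤ n) : 2 ^ (n + 1) + v n ≤ v (n + 2) :=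
  v_lower (by omega) (D_eq_top hn) (D_eq_top (by omega))

theorem exists_phi_one : ∃ σ ∈ N 5, phi σ = 1 := by
  by_contra hc
  push Not at hc
  obtain ⟨τ, hτ, σ, hσ, hs⟩ := Good_four
  have hσ4 := N_succ_le _ hσ
  rw [S_eq_pull (k := 3) (by norm_num) (N_succ_le _ hσ4) hσ4, sum_mul_pull, ← S_eq_sumch hτ,
    S_eq_pull (k := 2) (by norm_num) (N_succ_le _ hτ) (N_succ_le _ hτ)] at hs
  have h1 : ∑ u, pull 2 (U 2 τ) u * U 3 σ u = ∑ u, U 3 σ u * pull 2 (U 2 τ) u :=
    sum_congr rfl fun u _ => mul_comm _ _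
  rw [h1, sum_mul_pull, sumch_U_three hσ4] at hs
  have h2 : ∑ u, pull 1 (Gam σ) u * U 2 τ u = ∑ u, U 2 τ u * pull 1 (Gam σ) u :=
    sum_congr rfl fun u _ => mul_comm _ _
  rw [h2, sum_mul_pull, sum_LL_one] at hs
  have h3 := even_of_N3 (N_succ_le _ hτ)
  rw [sum_eq_sum_sumch, sum_LL_one] at h3
  have h4 : phi σ = 0 := by
    rcases two_cases (phi σ) with h | h
    · exact h
    · exact absurd h (hc σ hσ)
  unfold phi at h4
  rw [sum_LL_one] at h4
  have : ∀ a b c d : ZMod 2, a * c + b * d = 1 → a + b = 0 → c + d = 0 → False := by decide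
  exact this _ _ _ _ hs h3 h4

theorem finrank_B_three : finrank (ZMod 2) (B 3) = 6 := by
  apply le_antisymm
  · have := finrank_B_le 1; norm_num at this; exact this
  · have hlt : V 3 < B 3 := by
      refine lt_of_le_of_ne V_three_le_B ?_
      intro h
      obtain ⟨σ, hσ, hphi⟩ := exists_phi_one
      have h1 : U 3 σ ∈ V 3 := by rw [h]; exact ⟨σ, hσ, rfl⟩
      obtain ⟨τ, hτ, hT⟩ := h1
      have h2 : ∀ v, Gam σ v = S 2 τ (ch xx) := by
        intro v
        unfold Gam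
        rw [← hT, ← S_eq_sumch hτ]
        exact S_two_const hτ _ _
      unfold phi at hphi
      rw [sum_LL_one, h2, h2, CharTwo.add_self_eq_zero] at hphi
      exact absurd hphi (by decide)
    have h1 := Submodule.finrank_lt_finrank_of_lt hlt
    have h2 : finrank (ZMod 2) (V 3) = 5 := v_three
    omega

theorem v_five : v 5 = 22 := by
  rw [v_split 3 (by norm_num), finrank_B_three]
  have h1 : (V 5).comap (pull 4) = ⊤ := by
    rw [eq_top_iff, ← D_eq_top (n := 4) le_rfl]; exact D_le_comap 4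
  change 6 + finrank (ZMod 2) ((V 5).comap (pull 4)) = 22
  rw [h1, finrank_top, finrank_fun]; norm_num

theorem v_lower_bound (m : ℕ) : 2 ^ (m + 5) < 3 * v (m + 4) ∧ 2 ^ (m + 6) < 3 * v (m + 5) := by
  induction m with
  | zero =>
    rw [v_four, v_five]; norm_num
  | succ m ih =>
    refine ⟨ih.2, ?_⟩
    have h1 := v_rec (n := m + 4) (by omega)
    have h2 := ih.1
    have e1 : 2 ^ (m + 1 + 6) = 4 * 2 ^ (m + 5) := by ring
    have e2 : 2 ^ (m + 4 + 1) = 2 ^ (m + 5) := by ring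
    rw [e2] at h1
    rw [e1]
    change 4 * 2 ^ (m + 5) < 3 * v (m + 4 + 2)
    omega

/-- exponent of the order of the image on level `n` -/
noncomputable def g (n : ℕ) : ℕ := ∑ k ∈ range n, v k

theorem g_one : g 1 = 1 := by simp [g, v_zero]
theorem g_succ (n : ℕ) : g (n + 1) = g n + v n := sum_range_succ _ _
theorem g_two : g 2 = 3 := by rw [g_succ, g_one, v_one]
theorem g_three : g 3 = 7 := by rw [g_succ, g_two, v_two]
theorem g_four : g 4 = 12 := by rw [g_succ, g_three, v_three]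
theorem g_five : g 5 = 23 := by rw [g_succ, g_four, v_four]
theorem g_six : g 6 = 45 := by rw [g_succ, g_five, v_five]

theorem g_upper (m : ℕ) : g (m + 4) ≤ 11 * 2 ^ m + 1 := by
  induction m with
  | zero => rw [g_four]; norm_num
  | succ m ih =>
    have h1 := v_upper m
    have h2 : g (m + 1 + 4) = g (m + 4) + v (m + 4) := g_succ _
    rw [h2, pow_succ]; omega

theorem g_lower (m : ℕ) : 2 ^ (m + 5) + 4 + m ≤ 3 * g (m + 4) := by
  induction m with
  | zero => rw [g_four]; norm_num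
  | succ m ih =>
    have h1 := (v_lower_bound m).1
    have h2 : g (m + 1 + 4) = g (m + 4) + v (m + 4) := g_succ _
    have h3 : 2 ^ (m + 1 + 5) = 2 * 2 ^ (m + 5) := by ring
    rw [h2, h3]; omega

theorem index_eq (n : ℕ) : (N n).index = 2 ^ g n := index_N n

end Arb49
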