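import Pool.Agent.Lib.MP_32d347_h49.Defs

namespace Arb49

theorem two_cases (a : ZMod 2) : a = 0 ∨ a = 1 := by revert a; decide

theorem sq_eq_aut {σ : G} {y r : L} (hy : σ y = y) (hr : r ^ 2 = y) : σ r = r ∨ σ r = -r := by
  have h : (σ r) ^ 2 = r ^ 2 := by rw [← map_pow, hr, hy]
  exact sq_eq_sq_iff_eq_or_eq_neg.1 h

theorem two_ne : (2 : L) ≠ 0 := two_ne_zero

theorem neg_ne_self {r : L} (hr : r ≠ 0) : -r ≠ r := by
  intro h
  have : (2 : L) * r = 0 := by linear_combination -h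
  rcases mul_eq_zero.1 this with h | h
  · exact two_ne h
  · exact hr h

theorem chi_rt {σ : G} {y : L} (hy : σ y = y) : σ (rt y) = (-1) ^ (chi σ y).val * rt y := by
  unfold chi
  rcases sq_eq_aut hy (rt_sq y) with h | h
  · rw [if_pos h]; simpa using h
  · by_cases h0 : σ (rt y) = rt y
    · rw [if_pos h0]; simpa using h0
    · rw [if_neg h0, h]
      have : (1 : ZMod 2).val = 1 := rfl
      rw [this]; ring

/-- any square root may be used -/
theorem chi_eq_zero_iff {σ : G} {y r : L} (_hy : σ y = y) (hr : r ^ 2 = y) :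
    chi σ y = 0 ↔ σ r = r := by
  have h1 : r = rt y ∨ r = - rt y := by
    have : r ^ 2 = rt y ^ 2 := by rw [hr, rt_sq]
    exact sq_eq_sq_iff_eq_or_eq_neg.1 this
  have h2 : chi σ y = 0 ↔ σ (rt y) = rt y := by
    unfold chi; split_ifs with h <;> simp [h]
  rw [h2]
  rcases h1 with h1 | h1
  · rw [h1]
  · rw [h1, map_neg, neg_inj]

theorem chi_eq_one_iff {σ : G} {y r : L} (h0 : y ≠ 0) (hy : σ y = y) (hr : r ^ 2 = y) :
    chi σ y = 1 ↔ σ r = -r := by
  have hr0 : r ≠ 0 := by rintro rfl; apply h0; rw [← hr]; ring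
  constructor
  · intro h
    rcases sq_eq_aut hy hr with h1 | h1
    · rw [(chi_eq_zero_iff hy hr).2 h1] at h; exact absurd h (by decide)
    · exact h1
  · intro h
    rcases two_cases (chi σ y) with h1 | h1
    · rw [chi_eq_zero_iff hy hr, h] at h1; exact absurd h1 (neg_ne_self hr0)
    · exact h1

theorem chi_apply {σ : G} {y r : L} (hy : σ y = y) (hr : r ^ 2 = y) :
    σ r = (-1) ^ (chi σ y).val * r := by
  rcases two_cases (chi σ y) with h | h
  · rw [h, (chi_eq_zero_iff hy hr).1 h]; simp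
  · by_cases h0 : y = 0
    · have hr0 : r = 0 := by rw [h0] at hr; exact pow_eq_zero_iff (two_ne_zero) |>.1 hr
      rw [hr0]; simp
    · rw [h, (chi_eq_one_iff h0 hy hr).1 h]
      have : (1 : ZMod 2).val = 1 := rfl
      rw [this]; ring

theorem chi_mul {σ : G} {y z : L} (hy0 : y ≠ 0) (hz0 : z ≠ 0) (hy : σ y = y) (hz : σ z = z) :
    chi σ (y * z) = chi σ y + chi σ z := by
  have hyz : σ (y * z) = y * z := by rw [map_mul, hy, hz]
  have hr : (rt y * rt z) ^ 2 = y * z := by rw [mul_pow, rt_sq, rt_sq]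
  have ha := rt_sq y
  have hb := rt_sq z
  rcases two_cases (chi σ y) with h1 | h1 <;> rcases two_cases (chi σ z) with h2 | h2
  · rw [h1, h2, add_zero, chi_eq_zero_iff hyz hr, map_mul, (chi_eq_zero_iff hy ha).1 h1,
      (chi_eq_zero_iff hz hb).1 h2]
  · rw [h1, h2, zero_add, chi_eq_one_iff (mul_ne_zero hy0 hz0) hyz hr, map_mul,
      (chi_eq_zero_iff hy ha).1 h1, (chi_eq_one_iff hz0 hz hb).1 h2]; ring
  · rw [h1, h2, add_zero, chi_eq_one_iff (mul_ne_zero hy0 hz0) hyz hr, map_mul,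
      (chi_eq_one_iff hy0 hy ha).1 h1, (chi_eq_zero_iff hz hb).1 h2]; ring
  · rw [h1, h2, show (1 : ZMod 2) + 1 = 0 from rfl, chi_eq_zero_iff hyz hr, map_mul,
      (chi_eq_one_iff hy0 hy ha).1 h1, (chi_eq_one_iff hz0 hz hb).1 h2]; ring

theorem chi_sq {σ : G} {y : L} (hy : σ y = y) : chi σ (y ^ 2) = 0 := by
  rw [chi_eq_zero_iff (y := y ^ 2) (r := y) (by rw [map_pow, hy]) rfl]; exact hy

theorem chi_mul_sq {σ : G} {y z : L} (hy0 : y ≠ 0) (hz0 : z ≠ 0) (hy : σ y = y) (hz : σ z = z) :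
    chi σ (y * z ^ 2) = chi σ y := by
  rw [chi_mul hy0 (pow_ne_zero 2 hz0) hy (by rw [map_pow, hz]), chi_sq hz, add_zero]

theorem chi_comp {σ τ : G} {y : L} (hσ : σ y = y) (hτ : τ y = y) :
    chi (σ * τ) y = chi σ y + chi τ y := by
  by_cases h0 : y = 0
  · subst h0
    have h : ∀ ρ : G, chi ρ 0 = 0 := fun ρ => by
      rw [chi_eq_zero_iff (r := 0) (map_zero _) (by ring)]; exact map_zero _
    rw [h, h, h, add_zero]
  have hst : (σ * τ) y = y := by change σ (τ y) = y; rw [hτ, hσ]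
  have ha := rt_sq y
  rcases two_cases (chi σ y) with h1 | h1 <;> rcases two_cases (chi τ y) with h2 | h2
  · rw [h1, h2, add_zero, chi_eq_zero_iff hst ha]
    change σ (τ (rt y)) = _
    rw [(chi_eq_zero_iff hτ ha).1 h2, (chi_eq_zero_iff hσ ha).1 h1]
  · rw [h1, h2, zero_add, chi_eq_one_iff h0 hst ha]
    change σ (τ (rt y)) = _
    rw [(chi_eq_one_iff h0 hτ ha).1 h2, map_neg, (chi_eq_zero_iff hσ ha).1 h1]
  · rw [h1, h2, add_zero, chi_eq_one_iff h0 hst ha]
    change σ (τ (rt y)) = _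
    rw [(chi_eq_zero_iff hτ ha).1 h2, (chi_eq_one_iff h0 hσ ha).1 h1]
  · rw [h1, h2, show (1 : ZMod 2) + 1 = 0 from rfl, chi_eq_zero_iff hst ha]
    change σ (τ (rt y)) = _
    rw [(chi_eq_one_iff h0 hτ ha).1 h2, map_neg, (chi_eq_one_iff h0 hσ ha).1 h1, neg_neg]

theorem chi_one (y : L) : chi 1 y = 0 := by
  rw [chi_eq_zero_iff (r := rt y) rfl (rt_sq y)]; rfl

theorem chi_inv {σ : G} {y : L} (hσ : σ y = y) : chi σ⁻¹ y = chi σ y := by
  have h1 : σ⁻¹ y = y := by
    change σ.symm y = y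
    rw [AlgEquiv.symm_apply_eq]; exact hσ.symm
  have h2 := chi_comp (σ := σ) (τ := σ⁻¹) hσ h1
  rw [mul_inv_cancel, chi_one] at h2
  have h3 : ∀ a b : ZMod 2, 0 = a + b → b = a := by decide
  exact h3 _ _ h2

theorem chi_conj {σ g : G} {y : L} (hσ : σ y = y) : chi (g * σ * g⁻¹) (g y) = chi σ y := by
  have hg : ∀ z : L, g⁻¹ (g z) = z := fun z => g.symm_apply_apply z
  have h1 : (g * σ * g⁻¹) (g y) = g y := by
    change g (σ (g⁻¹ (g y))) = _
    rw [hg, hσ]
  have hr : (g (rt y)) ^ 2 = g y := by rw [← map_pow, rt_sq]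
  have h2 : chi (g * σ * g⁻¹) (g y) = 0 ↔ chi σ y = 0 := by
    rw [chi_eq_zero_iff h1 hr, chi_eq_zero_iff hσ (rt_sq y)]
    constructor
    · intro h
      change g (σ (g⁻¹ (g (rt y)))) = _ at h
      rw [hg] at h
      exact g.injective h
    · intro h
      change g (σ (g⁻¹ (g (rt y)))) = _
      rw [hg, h]
  rcases two_cases (chi (g * σ * g⁻¹) (g y)) with h | h <;> rcases two_cases (chi σ y) with h' | h'
  · rw [h, h']
  · rw [h2.1 h] at h'; exact absurd h' (by decide)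
  · rw [h2.2 h'] at h; exact absurd h (by decide)
  · rw [h, h']

end Arb49
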