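import Mathlib

namespace Arb49
open Finset

/-- separation by a functional -/
theorem dual_sep {α : Type*} [Fintype α] (I : Submodule (ZMod 2) (α → ZMod 2)) (v : α → ZMod 2)
    (hv : v ∉ I) : ∃ X : α → ZMod 2, (∀ i ∈ I, ∑ a, X a * i a = 0) ∧ ∑ a, X a * v a = 1 := by
  classical
  obtain ⟨f, hf, hI⟩ := Submodule.exists_le_ker_of_notMem (p := I) (v := v) hv
  have hrep : ∀ w : α → ZMod 2, f w = ∑ a, f (Pi.single a 1) * w a := by
    intro w
    conv_lhs => rw [← Finset.univ_sum_single w]
    rw [map_sum]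
    refine sum_congr rfl fun a _ => ?_
    have : (Pi.single a (w a) : α → ZMod 2) = w a • Pi.single a 1 := by
      rw [← Pi.single_smul, smul_eq_mul, mul_one]
    rw [this, map_smul, smul_eq_mul, mul_comm]
  refine ⟨fun a => f (Pi.single a 1), fun i hi => ?_, ?_⟩
  · rw [← hrep]; exact hI hi
  · rw [← hrep]
    have : ∀ x : ZMod 2, x ≠ 0 → x = 1 := by decide
    exact this _ hf

/-- module lemma: a stable subspace of `F_2^Ω` with a vector of odd sum is everything,
if the group acts transitively through a 2-group -/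
theorem mod_lemma {Q Ω : Type*} [Group Q] [Fintype Ω] [MulAction Q Ω]
    (k : ℕ) (h2 : ∀ (q : Q) (ω : Ω), q ^ (2 ^ k) • ω = ω)
    (htr : ∀ a b : Ω, ∃ q : Q, q • a = b)
    (W : Submodule (ZMod 2) (Ω → ZMod 2))
    (hW : ∀ (q : Q), ∀ X ∈ W, (fun ω => X (q • ω)) ∈ W)
    (X0 : Ω → ZMod 2) (hX0 : X0 ∈ W) (h1 : ∑ ω, X0 ω = 1) : W = ⊤ := by
  classical
  by_contra hne
  obtain ⟨v, hv⟩ : ∃ v, v ∉ W := by
    by_contra hc; push Not at hc
    exact hne (eq_top_iff.2 fun x _ => hc x)
  obtain ⟨Y, hY, hYv⟩ := dual_sep W v hv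
  -- the annihilator
  let A : Submodule (ZMod 2) (Ω → ZMod 2) :=
    { carrier := {X | ∀ i ∈ W, ∑ a, X a * i a = 0}
      add_mem' := by
        intro a b ha hb i hi
        simp only [Pi.add_apply, add_mul, sum_add_distrib]
        rw [ha i hi, hb i hi, add_zero]
      zero_mem' := by intro i _; simp
      smul_mem' := by
        intro c a ha i hi
        simp only [Pi.smul_apply, smul_eq_mul, mul_assoc, ← mul_sum]
        rw [ha i hi, mul_zero] }
  have hYA : Y ∈ A := hY
  have hY0 : Y ≠ 0 := by rintro rfl; simp at hYv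
  -- the finite group of permutations
  let P : Subgroup (Equiv.Perm Ω) := (MulAction.toPermHom Q Ω).range
  have hP : IsPGroup 2 P := by
    rintro ⟨p, hp⟩
    obtain ⟨q, rfl⟩ := hp
    refine ⟨k, ?_⟩
    apply Subtype.ext
    change (MulAction.toPermHom Q Ω q) ^ (2 ^ k) = 1
    rw [← map_pow]
    ext ω
    exact h2 q ω
  -- action on A
  have hstab : ∀ (p : P) (X : Ω → ZMod 2), X ∈ A → (fun ω => X (p.1.symm ω)) ∈ A := by
    rintro ⟨p, q, rfl⟩ X hX i hi
    have hi' := hW q i hi
    have h3 := hX _ hi'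
    rw [← h3]
    apply Fintype.sum_equiv (MulAction.toPermHom Q Ω q).symm
    intro ω
    change X ((MulAction.toPermHom Q Ω q).symm ω) * i ω = X ((MulAction.toPermHom Q Ω q).symm ω) * i (q • ((MulAction.toPermHom Q Ω q).symm ω))
    congr 2
    exact ((MulAction.toPermHom Q Ω q).apply_symm_apply ω).symm
  let act : MulAction P A :=
    { smul := fun p X => ⟨fun ω => X.1 (p.1.symm ω), hstab p X.1 X.2⟩
      one_smul := fun X => Subtype.ext rfl
      mul_smul := fun p q X => Subtype.ext rfl }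
  have : Fintype A := Fintype.ofFinite _
  have hcard : 2 ∣ Nat.card A := by
    have hfr := Module.card_eq_pow_finrank (K := ZMod 2) (V := A)
    rw [Nat.card_eq_fintype_card, hfr, ZMod.card]
    apply dvd_pow_self
    have : Nontrivial A := ⟨⟨⟨Y, hYA⟩, 0, fun h => hY0 (congrArg Subtype.val h)⟩⟩
    exact (Module.finrank_pos (R := ZMod 2) (M := A)).ne'
  have h0 : (0 : A) ∈ MulAction.fixedPoints P A := by
    intro p; apply Subtype.ext; rfl
  obtain ⟨b, hb, hb0⟩ := hP.exists_fixed_point_of_prime_dvd_card_of_fixed_point A hcard h0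
  -- b is constant
  have hconst : ∀ a c : Ω, b.1 a = b.1 c := by
    intro a c
    obtain ⟨q, hq⟩ := htr a c
    have h4 := hb ⟨MulAction.toPermHom Q Ω q, q, rfl⟩
    have h5 := congrFun (congrArg Subtype.val h4) c
    have h6 : ((MulAction.toPermHom Q Ω q).symm c) = a := by
      rw [Equiv.symm_apply_eq]; exact hq.symm
    change b.1 ((MulAction.toPermHom Q Ω q).symm c) = b.1 c at h5
    rw [h6] at h5; exact h5
  have hb1 : ∀ a, b.1 a = 1 := by
    by_contra hc
    push Not at hc
    obtain ⟨a, ha⟩ := hc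
    have : ∀ x : ZMod 2, x ≠ 1 → x = 0 := by decide
    apply hb0
    apply Subtype.ext
    funext c
    rw [hconst c a, this _ ha]; rfl
  have h7 := b.2 X0 hX0
  simp only [hb1, one_mul] at h7
  rw [h7] at h1
  exact absurd h1 (by decide)

end Arb49
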