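import Pool.Agent.Lib.MP_32d347_h49.Act
import Pool.Agent.Lib.MP_32d347_h49.Lin

namespace Arb49
open Finset Module

/-- the sign patterns realised by `N n` on level `n` -/
def V (n : ℕ) : Submodule (ZMod 2) (LL n → ZMod 2) where
  carrier := {X | ∃ σ ∈ N n, T n σ = X}
  add_mem' := by
    rintro _ _ ⟨σ, hσ, rfl⟩ ⟨τ, hτ, rfl⟩
    exact ⟨σ * τ, (N n).mul_mem hσ hτ, T_mul hσ hτ⟩
  zero_mem' := ⟨1, (N n).one_mem, T_one n⟩
  smul_mem' := by
    rintro c _ ⟨σ, hσ, rfl⟩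
    rcases two_cases c with h | h
    · rw [h, zero_smul]; exact ⟨1, (N n).one_mem, T_one n⟩
    · rw [h, one_smul]; exact ⟨σ, hσ, rfl⟩

theorem mem_V {n : ℕ} {X : LL n → ZMod 2} : X ∈ V n ↔ ∃ σ ∈ N n, T n σ = X := Iff.rfl

theorem T_mem_V {n : ℕ} {σ : G} (h : σ ∈ N n) : T n σ ∈ V n := ⟨σ, h, rfl⟩

/-- dimension of `V n` -/
noncomputable def v (n : ℕ) : ℕ := finrank (ZMod 2) (V n)

theorem card_V (n : ℕ) : Nat.card (V n) = 2 ^ v n := by
  have : Fintype (V n) := Fintype.ofFinite _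
  rw [Nat.card_eq_fintype_card, Module.card_eq_pow_finrank (K := ZMod 2) (V := V n), ZMod.card]; rfl

/-- the sign homomorphism -/
noncomputable def signHom (n : ℕ) : N n →* Multiplicative (LL n → ZMod 2) where
  toFun σ := Multiplicative.ofAdd (T n σ.1)
  map_one' := by rw [Subgroup.coe_one, T_one]; rfl
  map_mul' σ τ := by rw [Subgroup.coe_mul, T_mul σ.2 τ.2]; rfl

theorem relIndex_N (n : ℕ) : (N (n + 1)).relIndex (N n) = 2 ^ v n := by
  have hker : (signHom n).ker = (N (n + 1)).subgroupOf (N n) := by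
    ext σ
    rw [MonoidHom.mem_ker, Subgroup.mem_subgroupOf, ← T_eq_zero_iff σ.2]
    exact Iff.rfl
  rw [Subgroup.relIndex, ← hker, Subgroup.index_ker, ← card_V]
  refine Nat.card_congr ⟨fun x => ⟨x.1.toAdd, ?_⟩, fun x => ⟨Multiplicative.ofAdd x.1, ?_⟩, ?_, ?_⟩
  · obtain ⟨σ, hσ⟩ := x.2
    exact ⟨σ.1, σ.2, congrArg Multiplicative.toAdd hσ⟩
  · obtain ⟨σ, hσ, h⟩ := x.2
    exact ⟨⟨σ, hσ⟩, congrArg Multiplicative.ofAdd h⟩
  · intro x; rfl
  · intro x; rfl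

theorem index_N (n : ℕ) : (N n).index = 2 ^ ∑ k ∈ range n, v k := by
  induction n with
  | zero => rw [N_zero, Subgroup.index_top]; simp
  | succ n ih =>
    rw [← Subgroup.relIndex_mul_index (N_succ_le n), relIndex_N, ih, sum_range_succ, pow_add, mul_comm]

/-- transitivity -/
def Tr (n : ℕ) : Prop := ∀ a b : LL n, ∃ σ : G, σ • a = b

theorem Tr_zero : Tr 0 := by
  intro a b
  refine ⟨1, ?_⟩
  have h : Fintype.card (LL 0) = 1 := by rw [card_LL, pow_zero]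
  rw [Fintype.card_eq_one_iff] at h
  obtain ⟨c, hc⟩ := h
  rw [hc a, hc b, one_smul]

theorem V_conj {n : ℕ} (g : G) {X : LL n → ZMod 2} (h : X ∈ V n) : (fun w => X (g • w)) ∈ V n := by
  obtain ⟨σ, hσ, rfl⟩ := h
  refine ⟨g⁻¹ * σ * g, ?_, ?_⟩
  · have := N_conj hσ g⁻¹; rwa [inv_inv] at this
  · funext w
    have h1 : g⁻¹ * σ * g ∈ N n := by have := N_conj hσ g⁻¹; rwa [inv_inv] at this
    have h2 := T_conj h1 g w
    rw [← h2]
    congr 1
    group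

theorem Tr_succ {n : ℕ} (h : Tr n) (hV : V n ≠ ⊥) : Tr (n + 1) := by
  obtain ⟨X, hX, hX0⟩ := (Submodule.ne_bot_iff _).1 hV
  obtain ⟨w0, hw0⟩ : ∃ w, X w ≠ 0 := by
    by_contra hc; push Not at hc; exact hX0 (funext hc)
  -- every vertex has a flipping element in `N n`
  have hflip : ∀ u : LL n, ∃ σ ∈ N n, T n σ u = 1 := by
    intro u
    obtain ⟨g, hg⟩ := h u w0
    obtain ⟨σ, hσ, h1⟩ := V_conj g hX
    refine ⟨σ, hσ, ?_⟩
    rw [h1]
    change X (g • u) = 1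
    rw [hg]
    have : ∀ x : ZMod 2, x ≠ 0 → x = 1 := by decide
    exact this _ hw0
  intro a b
  obtain ⟨g, hg⟩ := h (par a) (par b)
  have h1 : par (g • a) = par b := by rw [par_smul, hg]
  rcases eq_or_of_par_eq h1 with h2 | h2
  · exact ⟨g, h2⟩
  · obtain ⟨σ, hσ, h3⟩ := hflip (par b)
    refine ⟨σ * g, ?_⟩
    rw [mul_smul, h2]
    have hb : b.1 ^ 2 = (par b).1 - 1 := by rw [par_val]; ring
    have h4 : σ b.1 = -b.1 :=
      (chi_eq_one_iff (sub_one_ne (par b).2) (fix_sub_one (hσ _ (par b).2)) hb).1 h3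
    apply Subtype.ext
    rw [smul_val, ng_val, map_neg, h4, neg_neg]

/-- module lemma on a level -/
theorem level_lemma {n : ℕ} (h : Tr n) (W : Submodule (ZMod 2) (LL n → ZMod 2))
    (hW : ∀ (g : G), ∀ X ∈ W, (fun w => X (g • w)) ∈ W)
    {X0 : LL n → ZMod 2} (hX0 : X0 ∈ W) (h1 : ∑ w, X0 w = 1) : W = ⊤ :=
  mod_lemma (Q := G) (Ω := LL n) n (fun q ω => mem_N_iff.1 (pow_two_pow_mem n q) ω) h W hW X0 hX0 h1

theorem V_ne_bot_of_pos {n : ℕ} (h : 0 < v n) : V n ≠ ⊥ := by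
  intro h0; rw [v, h0, finrank_bot] at h; exact lt_irrefl _ h

theorem finrank_fun (n : ℕ) : finrank (ZMod 2) (LL n → ZMod 2) = 2 ^ n := by
  rw [Module.finrank_fintype_fun_eq_card, card_LL]

theorem v_le (n : ℕ) : v n ≤ 2 ^ n := by
  rw [← finrank_fun n]; exact Submodule.finrank_le _

theorem v_of_top {n : ℕ} (h : V n = ⊤) : v n = 2 ^ n := by rw [v, h, finrank_top, finrank_fun]

end Arb49
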