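import Mathlib

/-! Arboreal Galois representation of `z^2+1` over `ℚ_[2]` (base point `0`): basic definitions. -/

namespace Arb49

open Polynomial

/-- algebraic closure of `ℚ_[2]` with its norm -/
abbrev L := PadicAlgCl 2
/-- absolute Galois group of `ℚ_[2]` -/
abbrev G := L ≃ₐ[ℚ_[2]] L

/-- the map `z ↦ z^2+1` -/
noncomputable def F (z : L) : L := z ^ 2 + 1

/-- level `n` of the tree: the roots of `f^n` -/
def Lev (n : ℕ) : Set L := {z | F^[n] z = 0}

/-- level `n` as a type -/
abbrev LL (n : ℕ) := ↥(Lev n)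

theorem mem_Lev (n : ℕ) (z : L) : z ∈ Lev n ↔ F^[n] z = 0 := Iff.rfl

theorem Lev_zero : Lev 0 = {0} := by
  ext z; simp [Lev]

theorem mem_Lev_succ (n : ℕ) (z : L) : z ∈ Lev (n + 1) ↔ F z ∈ Lev n := by
  simp [Lev, Function.iterate_succ_apply]

/-- a square root, chosen once and for all -/
noncomputable def rt (y : L) : L := (IsAlgClosed.exists_pow_nat_eq y (n := 2) two_pos).choose

theorem rt_sq (y : L) : rt y ^ 2 = y :=
  (IsAlgClosed.exists_pow_nat_eq y (n := 2) two_pos).choose_spec

open Classical in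
/-- the sign character of `√y`: meaningful if `σ y = y` -/
noncomputable def chi (σ : G) (y : L) : ZMod 2 := if σ (rt y) = rt y then 0 else 1

theorem F_aut (σ : G) (z : L) : σ (F z) = F (σ z) := by simp [F]

theorem F_iter_aut (σ : G) (n : ℕ) (z : L) : σ (F^[n] z) = F^[n] (σ z) := by
  induction n generalizing z with
  | zero => rfl
  | succ n ih => rw [Function.iterate_succ_apply, Function.iterate_succ_apply, ih, F_aut]

theorem Lev_aut (σ : G) {n : ℕ} {z : L} (h : z ∈ Lev n) : σ z ∈ Lev n := by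
  rw [mem_Lev] at *; rw [← F_iter_aut, h, map_zero]

/-- pointwise fixer of level `n` -/
def N (n : ℕ) : Subgroup G where
  carrier := {σ | ∀ z ∈ Lev n, σ z = z}
  one_mem' := by intro z _; rfl
  mul_mem' := by
    intro a b ha hb z hz
    change a (b z) = z
    rw [hb z hz, ha z hz]
  inv_mem' := by
    intro a ha z hz
    change a.symm z = z
    rw [AlgEquiv.symm_apply_eq]; exact (ha z hz).symm

theorem mem_N {n : ℕ} {σ : G} : σ ∈ N n ↔ ∀ z ∈ Lev n, σ z = z := Iff.rfl

/-- the parent -/
noncomputable def par {n : ℕ} (w : LL (n + 1)) : LL n := ⟨F w.1, (mem_Lev_succ n w.1).1 w.2⟩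

/-- one child (the other one is its negative) -/
noncomputable def ch {n : ℕ} (u : LL n) : LL (n + 1) :=
  ⟨rt (u.1 - 1), by rw [mem_Lev_succ, F, rt_sq, sub_add_cancel]; exact u.2⟩

/-- the sibling -/
noncomputable def ng {n : ℕ} (w : LL (n + 1)) : LL (n + 1) :=
  ⟨-w.1, by rw [mem_Lev_succ, F, neg_sq, ← F]; exact (mem_Lev_succ n w.1).1 w.2⟩

/-- the action on a level -/
noncomputable def act {n : ℕ} (σ : G) (w : LL n) : LL n := ⟨σ w.1, Lev_aut σ w.2⟩

/-- signs on `√(w-1)` -/
noncomputable def T (n : ℕ) (σ : G) : LL n → ZMod 2 := fun w => chi σ (w.1 - 1)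
/-- signs on `√(2-u)` -/
noncomputable def S (n : ℕ) (σ : G) : LL n → ZMod 2 := fun u => chi σ (2 - u.1)
/-- signs on `√(2-u)`, `u` the chosen child of `b` -/
noncomputable def U (n : ℕ) (σ : G) : LL n → ZMod 2 := fun b => chi σ (2 - (ch b).1)

/-- sum over the two children -/
noncomputable def sumch (n : ℕ) : (LL (n + 1) → ZMod 2) →ₗ[ZMod 2] (LL n → ZMod 2) where
  toFun X := fun u => X (ch u) + X (ng (ch u))
  map_add' X Y := by funext u; simp only [Pi.add_apply]; ring
  map_smul' c X := by funext u; simp only [Pi.smul_apply, smul_eq_mul, RingHom.id_apply]; ring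

/-- pull back along the parent map -/
noncomputable def pull (n : ℕ) : (LL n → ZMod 2) →ₗ[ZMod 2] (LL (n + 1) → ZMod 2) where
  toFun m := fun w => m (par w)
  map_add' X Y := by funext u; simp only [Pi.add_apply]
  map_smul' c X := by funext u; simp only [Pi.smul_apply, smul_eq_mul, RingHom.id_apply]

end Arb49
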