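import Pool.Agent.Lib.MP_32d347_h49.Size

namespace Arb49

theorem n_three : ‖(3 : L)‖ = 1 := by
  have : (3 : L) = 1 + 2 := by norm_num
  rw [this, norm_add_eq]
  · exact norm_one
  · rw [n2, norm_one]; norm_num
theorem n_four : ‖(4 : L)‖ = 1 / 4 := by
  have : (4 : L) = 2 * 2 := by norm_num
  rw [this, norm_mul, n2]; norm_num
theorem n_five : ‖(5 : L)‖ = 1 := by
  have : (5 : L) = 1 + 4 := by norm_num
  rw [this, norm_add_eq]
  · exact norm_one
  · rw [n_four, norm_one]; norm_num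
theorem n_eight : ‖(8 : L)‖ = 1 / 8 := by
  have : (8 : L) = 2 * 4 := by norm_num
  rw [this, norm_mul, n2, n_four]; norm_num
theorem n_sixteen : ‖(16 : L)‖ = 1 / 16 := by
  have : (16 : L) = 2 * 8 := by norm_num
  rw [this, norm_mul, n2, n_eight]; norm_num
theorem n_thirtytwo : ‖(32 : L)‖ = 1 / 32 := by
  have : (32 : L) = 2 * 16 := by norm_num
  rw [this, norm_mul, n2, n_sixteen]; norm_num
theorem five_ne : (5 : L) ≠ 0 := by norm_num
theorem neg_one_ne : (-1 : L) ≠ 0 := by norm_num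

theorem norm_sub_one_of_lt {v : L} (h : ‖v‖ < 1) : ‖v - 1‖ = 1 := by
  have : v - 1 = -1 + v := by ring
  rw [this, norm_add_eq]
  · rw [norm_neg, norm_one]
  · rw [norm_neg, norm_one]; exact h

theorem norm_eq_one_of {w : L} (h : ‖w - 1‖ < 1) : ‖w‖ = 1 := by
  have : w = 1 + (w - 1) := by ring
  rw [this, norm_add_eq]
  · exact norm_one
  · rw [norm_one]; exact h

/-- F1 -/
theorem fact_even {k : ℕ} (hk : Even k) {v : L} (hv : v ∈ Lev k) {σ : G} (hσ : σ v = v) :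
    chi σ (5 - v) = chi σ (-1) + chi σ 5 + chi σ (v - 1) := by
  have h1 := even_lt hk hv
  have hv1 := norm_sub_one_of_lt h1
  have hne : v - 1 ≠ 0 := sub_one_ne hv
  have h5 : 5 - v ≠ 0 := five_sub_ne hv
  have f1 := fix_sub_one hσ
  have f5 := fix_five_sub hσ
  have hx : chi σ ((5 - v) * ((-1) * 5 * (v - 1))) = 0 := by
    apply chi_of_near (y := 5 * (v - 1)) (mul_ne_zero five_ne hne)
    · have : (5 - v) * ((-1) * 5 * (v - 1)) - (5 * (v - 1)) ^ 2 = -(4 * (5 * (v * (v - 1)))) := by ring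
      rw [this, norm_neg, norm_mul, norm_mul, norm_mul, norm_mul, n_four, n_five, hv1]
      nlinarith
    · rw [map_mul, f5, map_mul, map_mul, fix_neg_one, fix_five, f1]
    · rw [map_mul, fix_five, f1]
  have f51 : σ ((-1) * 5) = (-1) * 5 := by rw [map_mul, fix_neg_one, fix_five]
  rw [chi_mul h5 (mul_ne_zero (mul_ne_zero neg_one_ne five_ne) hne) f5 (by rw [map_mul, f51, f1]),
    chi_mul (mul_ne_zero neg_one_ne five_ne) hne f51 f1, chi_mul neg_one_ne five_ne (fix_neg_one σ) (fix_five σ)] at hx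
  have : ∀ a b : ZMod 2, a + b = 0 → a = b := by decide
  exact this _ _ hx

/-- F2 -/
theorem fact_odd {k : ℕ} (hk : Odd k) (h3 : 3 ≤ k) {w : L} (hw : w ∈ Lev k) {σ : G} (hσ : σ w = w) :
    chi σ (5 - w) = chi σ (w - 1) + chi σ (5 - F (F w)) := by
  obtain ⟨j, rfl⟩ : ∃ j, k = j + 2 := ⟨k - 2, by omega⟩
  have hlt := odd_lt hk hw
  have hge := size_odd3 hk h3 hw
  have hFF : F (F w) ∈ Lev j := (mem_Lev_succ j _).1 ((mem_Lev_succ (j + 1) w).1 hw)
  have hne : w - 1 ≠ 0 := sub_one_ne hw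
  have h5 : 5 - w ≠ 0 := five_sub_ne hw
  have h5' : 5 - F (F w) ≠ 0 := five_sub_ne hFF
  have f1 := fix_sub_one hσ
  have f5 := fix_five_sub hσ
  have f5' : σ (5 - F (F w)) = 5 - F (F w) := fix_five_sub (fix_par (fix_par hσ))
  have hx : chi σ ((w - 1) * ((5 - w) * (5 - F (F w)))) = 0 := by
    apply chi_of_near (y := (w - 1) ^ 3) (pow_ne_zero 3 hne)
    · have : (w - 1) * ((5 - w) * (5 - F (F w))) - ((w - 1) ^ 3) ^ 2 =
        -((w - 1) ^ 2 * (8 * ((w - 1) ^ 2 + (3 * (w - 1) + 4)))) := by simp only [F]; ring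
      rw [this, norm_neg, norm_mul, norm_mul, norm_pow, norm_pow, n_eight]
      set p := ‖w - 1‖ with hp
      have hp0 : 0 ≤ p := norm_nonneg _
      have hp3 : 1 / 2 < p ^ 3 := by
        have : p ^ 8 < p ^ 3 := by
          have hppos : 0 < p := by
            rcases hp0.lt_or_eq with h | h
            · exact h
            · rw [← h] at hge; norm_num at hge
          exact pow_lt_pow_right_of_lt_one₀ hppos hlt (by norm_num)
        linarith
      have hp1 : 1 / 4 ≤ p := by nlinarith [pow_le_one₀ hp0 hlt.le (n := 2), sq_nonneg p]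
      have hb : ‖(w - 1) ^ 2 + (3 * (w - 1) + 4)‖ ≤ p := by
        apply norm_add_le'
        · rw [norm_pow]; nlinarith
        · apply norm_add_le'
          · rw [norm_mul, n_three, one_mul]
          · rw [n_four]; exact hp1
      have hp2 : 0 < p ^ 2 := by positivity
      calc p ^ 2 * (1 / 8 * ‖(w - 1) ^ 2 + (3 * (w - 1) + 4)‖) ≤ p ^ 2 * (1 / 8 * p) := by gcongr
        _ < (p ^ 3) ^ 2 / 4 := by nlinarith [mul_pos hp2 (lt_of_lt_of_le (by norm_num) hp1 : 0 < p)]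
    · rw [map_mul, map_mul, f1, f5, f5']
    · rw [map_pow, f1]
  rw [chi_mul hne (mul_ne_zero h5 h5') f1 (by rw [map_mul, f5, f5']), chi_mul h5 h5' f5 f5'] at hx
  have : ∀ a b c : ZMod 2, a + (b + c) = 0 → b = a + c := by decide
  exact this _ _ _ hx

theorem lev_one_sq {x : L} (hx : x ∈ Lev 1) : x ^ 2 = -1 := by
  have h1 : F x ∈ Lev 0 := (mem_Lev_succ 0 x).1 hx
  rw [Lev_zero, Set.mem_singleton_iff] at h1
  simp only [F] at h1; linear_combination h1

/-- F2 at level 1 -/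
theorem fact_one {x : L} (hx : x ∈ Lev 1) {σ : G} (hσ : σ x = x) :
    chi σ (5 - x) = chi σ 2 + chi σ (x - 1) + chi σ (2 - x) := by
  have hx2 := lev_one_sq hx
  have hx1 : ‖x‖ = 1 := norm_eq_one_of (odd_lt (by decide) hx)
  have hne : x - 1 ≠ 0 := sub_one_ne hx
  have h5 : 5 - x ≠ 0 := five_sub_ne hx
  have h2 : 2 - x ≠ 0 := two_sub_ne hx
  have hx0 : x ≠ 0 := ne_zero_of_mem hx
  have f1 := fix_sub_one hσ
  have f5 := fix_five_sub hσ
  have f2 := fix_two_sub hσ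
  have key : chi σ ((5 - x) * (2 * ((x - 1) * (2 - x)))) = 0 := by
    apply chi_of_near (y := 2 * x) (mul_ne_zero two_ne hx0)
    · have : (5 - x) * (2 * ((x - 1) * (2 - x))) - (2 * x) ^ 2 = 32 * x := by
        linear_combination (-20 + 2 * x) * hx2
      rw [this, norm_mul, norm_mul, n_thirtytwo, n2, hx1]; norm_num
    · rw [map_mul, map_mul, map_mul, f5, fix_two, f1, f2]
    · rw [map_mul, fix_two, hσ]
  rw [chi_mul h5 (mul_ne_zero two_ne (mul_ne_zero hne h2)) f5 (by rw [map_mul, map_mul, fix_two, f1, f2]),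
    chi_mul two_ne (mul_ne_zero hne h2) (fix_two σ) (by rw [map_mul, f1, f2]), chi_mul hne h2 f1 f2] at key
  have : ∀ a b c d : ZMod 2, a + (b + (c + d)) = 0 → a = b + c + d := by decide
  exact this _ _ _ _ key

/-- F3 -/
theorem fact_pair {x b1 b2 : L} (hx : x ^ 2 = -1) (h1 : b1 ^ 2 = x - 1) (h2 : b2 ^ 2 = -x - 1)
    {σ : G} (f1 : σ b1 = b1) (f2 : σ b2 = b2) (n21 : 2 - b1 ≠ 0) (n22 : 2 - b2 ≠ 0)
    (n11 : b1 - 1 ≠ 0) (n12 : b2 - 1 ≠ 0) :
    chi σ (2 - b1) + chi σ (2 - b2) = chi σ (b1 - 1) + chi σ (b2 - 1) := by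
  obtain ⟨q, hq⟩ : ∃ q, q = b1 * b2 := ⟨_, rfl⟩
  have hq2 : q ^ 2 = 2 := by rw [hq, mul_pow, h1, h2]; linear_combination -hx
  have hq0 : q ≠ 0 := by rintro h; rw [h] at hq2; norm_num at hq2
  obtain ⟨r, hr⟩ : ∃ r, r = (b1 + b2) / q := ⟨_, rfl⟩
  have hs : b1 + b2 = q * r := by rw [hr]; field_simp
  have hr2 : r ^ 2 = q - 1 := by
    have : q ^ 2 * r ^ 2 = q ^ 2 * (q - 1) := by
      rw [← mul_pow, ← hs, hq2]
      linear_combination h1 + h2 - 2 * hq
    exact mul_left_cancel₀ (pow_ne_zero 2 hq0) this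
  have hqn2 : ‖q‖ ^ 2 = 1 / 2 := by rw [← norm_pow, hq2, n2]
  have hqlt : ‖q‖ < 1 := by nlinarith [norm_nonneg q]
  have hqgt : 1 / 2 < ‖q‖ := by nlinarith [norm_nonneg q]
  have hqpos : 0 < ‖q‖ := by linarith
  have hrn : ‖r‖ = 1 := by
    have : ‖r ^ 2‖ = 1 := by rw [hr2]; exact norm_sub_one_of_lt hqlt
    rw [norm_pow] at this; nlinarith [norm_nonneg r]
  have hr1 : ‖r - 1‖ ^ 2 = ‖q‖ := by
    rw [← norm_pow]
    have : (r - 1) ^ 2 = q + -(2 * r) := by linear_combination hr2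
    rw [this, norm_add_eq]
    rw [norm_neg, norm_mul, n2, hrn]; linarith
  have hr1pos : 0 < ‖r - 1‖ := by
    rcases (norm_nonneg (r - 1)).lt_or_eq with h | h
    · exact h
    · rw [← h] at hr1; norm_num at hr1; rw [hr1] at hqpos; exact absurd hqpos (lt_irrefl _)
  have hqr : ‖q‖ < ‖r - 1‖ := by
    by_contra hc; push Not at hc
    have : ‖r - 1‖ ^ 2 ≤ ‖q‖ ^ 2 := by gcongr
    rw [hr1] at this; nlinarith
  have hyn : ‖r ^ 3 - 1‖ = ‖r - 1‖ := by
    have : r ^ 3 - 1 = (r - 1) * (r + q) := by linear_combination (r - 1) * hr2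
    rw [this, norm_mul, norm_add_eq, hrn, mul_one]
    rw [hrn]; exact hqlt
  have hy0 : r ^ 3 - 1 ≠ 0 := by rw [← norm_pos_iff, hyn]; exact hr1pos
  have fq : σ q = q := by rw [hq, map_mul, f1, f2]
  have fr : σ r = r := by rw [hr, map_div₀, map_add, f1, f2, fq]
  have fy : σ (r ^ 3 - 1) = r ^ 3 - 1 := by rw [map_sub, map_pow, fr, map_one]
  have g1 := fix_two_sub f1
  have g2 := fix_two_sub f2
  have g3 := fix_sub_one f1
  have g4 := fix_sub_one f2
  have key : chi σ ((2 - b1) * (2 - b2) * ((b1 - 1) * (b2 - 1))) = 0 := by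
    apply chi_of_near hy0
    · have e1 : (2 - b1) * (2 - b2) * ((b1 - 1) * (b2 - 1)) = (4 - 2 * (q * r) + q) * (q - q * r + 1) := by
        rw [← hs, hq]; ring
      have e2 : q = r ^ 2 + 1 := by linear_combination -hr2
      have e3 : (r ^ 2 + 1) ^ 2 = 2 := by rw [← e2]; exact hq2
      have e4 : (2 - b1) * (2 - b2) * ((b1 - 1) * (b2 - 1)) - (r ^ 3 - 1) ^ 2 = -(4 * ((r - 1) * (q + 2))) := by
        rw [e1, e2]
        linear_combination (r ^ 2 - 3 * r + 3) * e3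
      have hq2n : ‖q + 2‖ = ‖q‖ := norm_add_eq (by rw [n2]; exact hqgt)
      rw [e4, norm_neg, norm_mul, norm_mul, n_four, hyn, hq2n]
      nlinarith
    · rw [map_mul, map_mul, map_mul, g1, g2, g3, g4]
    · exact fy
  rw [chi_mul (mul_ne_zero n21 n22) (mul_ne_zero n11 n12) (by rw [map_mul, g1, g2]) (by rw [map_mul, g3, g4]),
    chi_mul n21 n22 g1 g2, chi_mul n11 n12 g3 g4] at key
  have : ∀ a b : ZMod 2, a + b = 0 → a = b := by decide
  exact this _ _ key

end Arb49
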