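import Pool.Agent.Lib.MP_32d347_h49.Norm

namespace Arb49
open Finset

/-- the critical orbit `1,2,5,26,…` -/
def crit : ℕ → ℕ
  | 0 => 1
  | n + 1 => crit n ^ 2 + 1

theorem crit_pos (n : ℕ) : 0 < crit n := by
  cases n with
  | zero => exact one_pos
  | succ n => exact Nat.succ_pos _

theorem F_iter_succ' (n : ℕ) (z : L) : F^[n + 1] z = (F^[n] z) ^ 2 + 1 := by
  rw [Function.iterate_succ_apply']; rfl

theorem F_iter_one (n : ℕ) : F^[n] (1 : L) = (crit n : L) := by
  induction n with
  | zero => simp [crit]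
  | succ n ih => rw [F_iter_succ', ih, crit]; push_cast; ring

theorem one_notMem (n : ℕ) : (1 : L) ∉ Lev n := by
  intro h
  rw [mem_Lev, F_iter_one] at h
  exact (crit_pos n).ne' (by exact_mod_cast h)

theorem F_zero : F (0 : L) = 1 := by simp [F]
theorem F_one : F (1 : L) = 2 := by simp only [F]; norm_num
theorem F_two : F (2 : L) = 5 := by simp only [F]; norm_num

theorem zero_notMem (n : ℕ) (hn : 0 < n) : (0 : L) ∉ Lev n := by
  obtain ⟨m, rfl⟩ := Nat.exists_eq_succ_of_ne_zero hn.ne'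
  rw [Nat.succ_eq_add_one, mem_Lev_succ, F_zero]; exact one_notMem m

theorem two_notMem (n : ℕ) : (2 : L) ∉ Lev n := by
  intro h
  have : F (1 : L) ∈ Lev n := by rw [F_one]; exact h
  rw [← mem_Lev_succ] at this
  exact one_notMem _ this

theorem five_notMem (n : ℕ) : (5 : L) ∉ Lev n := by
  intro h
  have : F (2 : L) ∈ Lev n := by rw [F_two]; exact h
  rw [← mem_Lev_succ] at this
  exact two_notMem _ this

theorem sub_one_ne {n : ℕ} {w : L} (h : w ∈ Lev n) : w - 1 ≠ 0 := by
  intro h0; rw [sub_eq_zero] at h0; rw [h0] at h; exact one_notMem n h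

theorem two_sub_ne {n : ℕ} {w : L} (h : w ∈ Lev n) : 2 - w ≠ 0 := by
  intro h0; rw [sub_eq_zero] at h0; rw [← h0] at h; exact two_notMem n h

theorem five_sub_ne {n : ℕ} {w : L} (h : w ∈ Lev n) : 5 - w ≠ 0 := by
  intro h0; rw [sub_eq_zero] at h0; rw [← h0] at h; exact five_notMem n h

theorem neg_mem {n : ℕ} {w : L} (h : w ∈ Lev (n + 1)) : -w ∈ Lev (n + 1) := (ng ⟨w, h⟩).2

theorem two_add_ne {n : ℕ} {w : L} (h : w ∈ Lev (n + 1)) : 2 + w ≠ 0 := by
  have := two_sub_ne (neg_mem h); rwa [sub_neg_eq_add] at this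

theorem ne_zero_of_mem {n : ℕ} {w : L} (h : w ∈ Lev (n + 1)) : w ≠ 0 := by
  rintro rfl; exact zero_notMem _ (Nat.succ_pos n) h

theorem child_mem {n : ℕ} {u w : L} (hu : u ∈ Lev n) (hw : w ^ 2 = u - 1) : w ∈ Lev (n + 1) := by
  rw [mem_Lev_succ, F, hw, sub_add_cancel]; exact hu

theorem Lev_finite (n : ℕ) : (Lev n).Finite := by
  induction n with
  | zero => rw [Lev_zero]; exact Set.finite_singleton _
  | succ n ih =>
    have : Lev (n + 1) = ⋃ u ∈ Lev n, {w : L | w ^ 2 = u - 1} := by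
      ext w
      simp only [Set.mem_iUnion, Set.mem_ofPred_eq, exists_prop]
      constructor
      · intro h; exact ⟨F w, (mem_Lev_succ n w).1 h, by simp [F]⟩
      · rintro ⟨u, hu, hw⟩; exact child_mem hu hw
    rw [this]
    refine ih.biUnion fun u _ => ?_
    have hsub : {w : L | w ^ 2 = u - 1} ⊆ {rt (u - 1), -rt (u - 1)} := by
      intro w hw
      have : w ^ 2 = rt (u - 1) ^ 2 := by rw [rt_sq]; exact hw
      exact sq_eq_sq_iff_eq_or_eq_neg.1 this
    exact (Set.toFinite _).subset hsub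

instance (n : ℕ) : Finite (LL n) := Lev_finite n
noncomputable instance (n : ℕ) : Fintype (LL n) := Fintype.ofFinite _
noncomputable instance (n : ℕ) : DecidableEq (LL n) := Classical.decEq _

theorem ch_sq {n : ℕ} (u : LL n) : (ch u).1 ^ 2 = u.1 - 1 := rt_sq _

theorem ng_val {n : ℕ} (w : LL (n + 1)) : (ng w).1 = -w.1 := rfl

theorem par_val {n : ℕ} (w : LL (n + 1)) : (par w).1 = w.1 ^ 2 + 1 := rfl

theorem par_ch {n : ℕ} (u : LL n) : par (ch u) = u := by
  apply Subtype.ext; rw [par_val, ch_sq, sub_add_cancel]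

theorem par_ng {n : ℕ} (w : LL (n + 1)) : par (ng w) = par w := by
  apply Subtype.ext; rw [par_val, ng_val, neg_sq, par_val]

theorem ng_ng {n : ℕ} (w : LL (n + 1)) : ng (ng w) = w := by
  apply Subtype.ext; rw [ng_val, ng_val, neg_neg]

theorem ng_ne {n : ℕ} (w : LL (n + 1)) : ng w ≠ w := by
  intro h
  have := congrArg Subtype.val h
  rw [ng_val] at this
  exact neg_ne_self (ne_zero_of_mem w.2) this

theorem eq_or_of_par_eq {n : ℕ} {w z : LL (n + 1)} (h : par w = par z) : w = z ∨ w = ng z := by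
  have h1 := congrArg Subtype.val h
  rw [par_val, par_val, add_left_inj] at h1
  rcases sq_eq_sq_iff_eq_or_eq_neg.1 h1 with h | h
  · left; exact Subtype.ext h
  · right; exact Subtype.ext h

theorem eq_ch_or {n : ℕ} (w : LL (n + 1)) : w = ch (par w) ∨ w = ng (ch (par w)) :=
  eq_or_of_par_eq (by rw [par_ch])

theorem sum_fiber {n : ℕ} {M : Type*} [AddCommMonoid M] (φ : LL (n + 1) → M) (u : LL n) :
    ∑ w ∈ univ.filter (fun w => par w = u), φ w = φ (ch u) + φ (ng (ch u)) := by
  have : univ.filter (fun w : LL (n + 1) => par w = u) = {ch u, ng (ch u)} := by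
    ext w
    simp only [mem_filter, mem_univ, true_and, mem_insert, mem_singleton]
    constructor
    · intro h; rcases eq_ch_or w with h1 | h1
      · left; rw [h1, h]
      · right; rw [h1, h]
    · rintro (h | h)
      · rw [h, par_ch]
      · rw [h, par_ng, par_ch]
  rw [this, sum_pair (ng_ne _).symm]

theorem sum_LL_succ {n : ℕ} {M : Type*} [AddCommMonoid M] (φ : LL (n + 1) → M) :
    ∑ w, φ w = ∑ u : LL n, (φ (ch u) + φ (ng (ch u))) := by
  rw [← sum_fiberwise_of_maps_to (s := univ) (t := univ) (g := par) (fun _ _ => mem_univ _)]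
  exact sum_congr rfl fun u _ => sum_fiber φ u

theorem card_LL (n : ℕ) : Fintype.card (LL n) = 2 ^ n := by
  induction n with
  | zero =>
    rw [pow_zero, Fintype.card_eq_one_iff]
    refine ⟨⟨0, by rw [Lev_zero]; rfl⟩, fun y => ?_⟩
    have h1 : (y.1 : L) ∈ ({0} : Set L) := by rw [← Lev_zero]; exact y.2
    exact Subtype.ext h1
  | succ n ih =>
    have h := sum_LL_succ (n := n) (fun _ => 1)
    simp only [sum_const, card_univ, smul_eq_mul, mul_one] at h
    rw [h, ih]; ring

theorem sumch_apply {n : ℕ} (X : LL (n + 1) → ZMod 2) (u : LL n) :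
    sumch n X u = X (ch u) + X (ng (ch u)) := rfl

theorem pull_apply {n : ℕ} (m : LL n → ZMod 2) (w : LL (n + 1)) : pull n m w = m (par w) := rfl

theorem sum_mul_pull {n : ℕ} (X : LL (n + 1) → ZMod 2) (m : LL n → ZMod 2) :
    ∑ w, X w * pull n m w = ∑ u, sumch n X u * m u := by
  rw [sum_LL_succ]
  refine sum_congr rfl fun u _ => ?_
  rw [pull_apply, pull_apply, par_ng, par_ch, sumch_apply]; ring

theorem sum_pull {n : ℕ} (m : LL n → ZMod 2) : ∑ w, pull n m w = 0 := by
  rw [sum_LL_succ]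
  refine sum_eq_zero fun u _ => ?_
  rw [pull_apply, pull_apply, par_ng, par_ch, CharTwo.add_self_eq_zero]

theorem sumch_pull {n : ℕ} (m : LL n → ZMod 2) : sumch n (pull n m) = 0 := by
  funext u
  rw [sumch_apply, pull_apply, pull_apply, par_ng, par_ch, CharTwo.add_self_eq_zero]; rfl

theorem pull_injective (n : ℕ) : Function.Injective (pull n) := by
  intro a b h
  funext u
  have := congrFun h (ch u)
  rwa [pull_apply, pull_apply, par_ch] at this

/-- kernel of `sumch` = image of `pull` -/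
theorem exists_pull_of_sumch_eq_zero {n : ℕ} {X : LL (n + 1) → ZMod 2} (h : sumch n X = 0) :
    ∃ m, X = pull n m := by
  refine ⟨fun u => X (ch u), ?_⟩
  funext w
  rw [pull_apply]
  have h1 := congrFun h (par w)
  rw [sumch_apply, Pi.zero_apply] at h1
  have h2 : ∀ a b : ZMod 2, a + b = 0 → b = a := by decide
  rcases eq_ch_or w with hw | hw
  · rw [← hw]
  · conv_lhs => rw [hw]
    exact h2 _ _ h1

theorem sum_eq_sum_sumch {n : ℕ} (X : LL (n + 1) → ZMod 2) : ∑ w, X w = ∑ u, sumch n X u := by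
  rw [sum_LL_succ]; rfl

end Arb49
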