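import Pool.Agent.Lib.MP_32d347_h49.Facts

namespace Arb49

theorem sq_lt_one_of {x : ℝ} (hx : 0 ≤ x) (h : x ^ 2 < 1) : x < 1 := by
  by_contra hc; push Not at hc; nlinarith

/-- `c^2 = 2-a`, `a ≡ 1`: then `c ≡ 1` -/
theorem near_one_of {a c : L} (ha : ‖a - 1‖ < 1) (hc : c ^ 2 = 2 - a) : ‖c - 1‖ < 1 := by
  have ha1 := norm_eq_one_of ha
  have hc1 : ‖c‖ ≤ 1 := by
    have : ‖c ^ 2‖ ≤ 1 := by
      rw [hc]; exact norm_sub_le' (by rw [n2]; norm_num) ha1.le
    rw [norm_pow] at this
    by_contra hcc; push Not at hcc; nlinarith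
  have h : ‖(c - 1) ^ 2‖ < 1 := by
    have : (c - 1) ^ 2 = -(a - 1) + -(2 * (c - 1)) := by linear_combination hc
    rw [this]
    apply norm_add_lt
    · rw [norm_neg]; exact ha
    · rw [norm_neg, norm_mul, n2]
      have : ‖c - 1‖ ≤ 1 := norm_sub_le' hc1 (by rw [norm_one])
      linarith
  rw [norm_pow] at h
  exact sq_lt_one_of (norm_nonneg _) h

theorem near_one_of' {a c : L} (ha : ‖a - 1‖ < 1) (hc : c ^ 2 = 2 + a) : ‖c - 1‖ < 1 := by
  have : ‖-a - 1‖ < 1 := by
    have : -a - 1 = -(a - 1) + -2 := by ring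
    rw [this]
    apply norm_add_lt
    · rw [norm_neg]; exact ha
    · rw [norm_neg, n2]; norm_num
  exact near_one_of this (by rw [hc]; ring)

/-- F4, even base level: the polynomial part -/
theorem four_even {σ : G} {a c c' s s' Q Q' : L} (ha : ‖a - 1‖ < 1)
    (hc : c ^ 2 = 2 - a) (hc' : c' ^ 2 = 2 + a) (hs : s ^ 2 = 2 * (c - 1)) (hs' : s' ^ 2 = 2 * (c' - 1))
    (hQ : Q = 4 + c - 2 * s) (hQ' : Q' = 4 + c' - 2 * s') (hQ0 : Q ≠ 0) (hQ0' : Q' ≠ 0)
    (fc : σ c = c) (fc' : σ c' = c') (fs : σ s = s) (fs' : σ s' = s')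
    (h2 : chi σ 2 = 0) (h5 : chi σ 5 = 0) : chi σ (Q * Q') = 0 := by
  have nc := near_one_of ha hc
  have nc' := near_one_of' ha hc'
  have nc1 := norm_eq_one_of nc
  have nc1' := norm_eq_one_of nc'
  have ns : ‖s‖ < 1 := by
    have : ‖s ^ 2‖ < 1 := by rw [hs, norm_mul, n2]; linarith
    rw [norm_pow] at this; exact sq_lt_one_of (norm_nonneg _) this
  have ns' : ‖s'‖ < 1 := by
    have : ‖s' ^ 2‖ < 1 := by rw [hs', norm_mul, n2]; linarith
    rw [norm_pow] at this; exact sq_lt_one_of (norm_nonneg _) this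
  obtain ⟨t, ht⟩ : ∃ t, t = c - s := ⟨_, rfl⟩
  obtain ⟨t', ht'⟩ : ∃ t', t' = c' - s' := ⟨_, rfl⟩
  have nt : ‖t - 1‖ < 1 := by
    have : t - 1 = (c - 1) - s := by rw [ht]; ring
    rw [this]; exact norm_sub_lt nc ns
  have nt' : ‖t' - 1‖ < 1 := by
    have : t' - 1 = (c' - 1) - s' := by rw [ht']; ring
    rw [this]; exact norm_sub_lt nc' ns'
  have nt1 := norm_eq_one_of nt
  have nt1' := norm_eq_one_of nt'
  have hc2 : c + 2 ≠ 0 := by
    rw [← norm_pos_iff, norm_add_eq (by rw [nc1, n2]; norm_num), nc1]; exact one_pos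
  have hc2' : c' + 2 ≠ 0 := by
    rw [← norm_pos_iff, norm_add_eq (by rw [nc1', n2]; norm_num), nc1']; exact one_pos
  have fQ : σ Q = Q := by rw [hQ, map_sub, map_add, map_mul, fc, fs, fix_two, map_ofNat]
  have fQ' : σ Q' = Q' := by rw [hQ', map_sub, map_add, map_mul, fc', fs', fix_two, map_ofNat]
  have fc2 : σ (c + 2) = c + 2 := by rw [map_add, fc, fix_two]
  have fc2' : σ (c' + 2) = c' + 2 := by rw [map_add, fc', fix_two]
  have ft : σ t = t := by rw [ht, map_sub, fc, fs]
  have ft' : σ t' = t' := by rw [ht', map_sub, fc', fs']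
  have fQQ : σ (Q * Q') = Q * Q' := by rw [map_mul, fQ, fQ']
  have fcc : σ ((c + 2) * (c' + 2)) = (c + 2) * (c' + 2) := by rw [map_mul, fc2, fc2']
  have hB : Q * (c + 2) = t ^ 2 + (10 + 4 * t) := by rw [hQ, ht]; linear_combination -hs
  have hB' : Q' * (c' + 2) = t' ^ 2 + (10 + 4 * t') := by rw [hQ', ht']; linear_combination -hs'
  have htt : t ^ 2 + t' ^ 2 = 2 * ((c - 1) + (c' - 1) + 2 - (c * s + c' * s')) := by
    rw [ht, ht']; linear_combination hc + hc' + hs + hs'
  -- main estimate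
  have hX : chi σ (5 * ((Q * Q') * ((c + 2) * (c' + 2)))) = 0 := by
    have ht0 : t * t' ≠ 0 := by rw [← norm_pos_iff, norm_mul, nt1, nt1']; norm_num
    apply chi_of_near ht0
    · have e : 5 * ((Q * Q') * ((c + 2) * (c' + 2))) - (t * t') ^ 2 =
          4 * ((t - 1) * (t * t' ^ 2 + t' ^ 2) + (t' - 1) * (t' + 1)) + 8 * 63
          + 4 * (25 * ((c - 1) + (c' - 1) + 2 - (c * s + c' * s')))
          + 4 * (5 * (t * t' * ((t - 1) + (t' - 1) + 2))) + 8 * (25 * (t + t') + 10 * (t * t')) := by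
        have : 5 * ((Q * Q') * ((c + 2) * (c' + 2))) = 5 * ((Q * (c + 2)) * (Q' * (c' + 2))) := by ring
        rw [this, hB, hB']
        linear_combination 50 * htt
      rw [e, norm_mul t t', nt1, nt1']
      have k1 : ‖(t - 1) * (t * t' ^ 2 + t' ^ 2) + (t' - 1) * (t' + 1)‖ < 1 := by
        apply norm_add_lt
        · rw [norm_mul]
          have : ‖t * t' ^ 2 + t' ^ 2‖ ≤ 1 := by
            apply norm_add_le'
            · rw [norm_mul, norm_pow, nt1, nt1']; norm_num
            · rw [norm_pow, nt1']; norm_num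
          nlinarith [norm_nonneg (t - 1)]
        · rw [norm_mul]
          have : ‖t' + 1‖ ≤ 1 := norm_add_le' nt1'.le (by rw [norm_one])
          nlinarith [norm_nonneg (t' - 1)]
      have k2 : ‖(c - 1) + (c' - 1) + 2 - (c * s + c' * s')‖ < 1 := by
        apply norm_sub_lt
        · apply norm_add_lt (norm_add_lt nc nc')
          rw [n2]; norm_num
        · apply norm_add_lt
          · rw [norm_mul, nc1, one_mul]; exact ns
          · rw [norm_mul, nc1', one_mul]; exact ns'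
      have k3 : ‖(t - 1) + (t' - 1) + 2‖ < 1 := by
        apply norm_add_lt (norm_add_lt nt nt')
        rw [n2]; norm_num
      have k25 : ‖(25 : L)‖ ≤ 1 := by have := norm_natCast_le 25; simpa using this
      have k10 : ‖(10 : L)‖ ≤ 1 := by have := norm_natCast_le 10; simpa using this
      have k63 : ‖(63 : L)‖ ≤ 1 := by have := norm_natCast_le 63; simpa using this
      have k5 : ‖(5 : L)‖ = 1 := n_five
      norm_num only
      refine norm_add_lt (norm_add_lt (norm_add_lt (norm_add_lt ?_ ?_) ?_) ?_) ?_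
      · rw [norm_mul, n_four]; linarith
      · have : (504 : L) = 8 * 63 := by norm_num
        rw [this, norm_mul, n_eight]; linarith
      · rw [norm_mul, norm_mul, n_four]
        nlinarith [norm_nonneg (c - 1 + (c' - 1) + 2 - (c * s + c' * s')), norm_nonneg (25 : L)]
      · rw [norm_mul, norm_mul, norm_mul, norm_mul, n_four, k5, nt1, nt1']; linarith
      · rw [norm_mul, n_eight]
        have : ‖25 * (t + t') + 10 * (t * t')‖ ≤ 1 := by
          apply norm_add_le'
          · rw [norm_mul]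
            have : ‖t + t'‖ ≤ 1 := norm_add_le' nt1.le nt1'.le
            nlinarith [norm_nonneg (25 : L), norm_nonneg (t + t')]
          · rw [norm_mul, norm_mul, nt1, nt1']; linarith
        linarith
    · rw [map_mul, map_mul, fix_five, fQQ, fcc]
    · rw [map_mul, ft, ft']
  have hcc : chi σ ((c + 2) * (c' + 2)) = 0 := by
    have h1 : chi σ (2 * ((c + 2) * (c' + 2))) = 0 := by
      have : 2 * ((c + 2) * (c' + 2)) = (c + c' + 2) ^ 2 := by linear_combination -hc - hc'
      rw [this]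
      exact chi_sq (by rw [map_add, map_add, fc, fc', fix_two])
    rw [chi_mul two_ne (mul_ne_zero hc2 hc2') (fix_two σ) fcc, h2, zero_add] at h1
    exact h1
  rw [chi_mul five_ne (mul_ne_zero (mul_ne_zero hQ0 hQ0') (mul_ne_zero hc2 hc2')) (fix_five σ)
    (by rw [map_mul, fQQ, fcc]), chi_mul (mul_ne_zero hQ0 hQ0') (mul_ne_zero hc2 hc2') fQQ fcc, h5, hcc,
    zero_add, add_zero] at hX
  exact hX

end Arb49
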