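import Pool.Agent.Lib.MP_32d347_h49.Four

namespace Arb49

/-- F4, odd base level: the polynomial part -/
theorem four_odd {σ : G} {a c c' s s' Q Q' : L} (ha : ‖a‖ < 1) (ha4 : 1 / 2 ≤ ‖a‖ ^ 4)
    (hc : c ^ 2 = 2 - a) (hc' : c' ^ 2 = 2 + a) (hs : s ^ 2 = 2 * (c - 1)) (hs' : s' ^ 2 = 2 * (c' - 1))
    (hQ : Q = 4 + c - 2 * s) (hQ' : Q' = 4 + c' - 2 * s') (hQ0 : Q ≠ 0) (hQ0' : Q' ≠ 0)
    (fa : σ a = a)
    (fc : σ c = c) (fc' : σ c' = c') (fs : σ s = s) (fs' : σ s' = s')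
    (h2 : chi σ 2 = 0) (h1 : chi σ (-1) = 0) : chi σ (Q * Q') = 0 := by
  obtain ⟨α, hα⟩ : ∃ α, α = ‖a‖ := ⟨_, rfl⟩
  rw [← hα] at ha ha4
  have hα0 : 0 ≤ α := by rw [hα]; exact norm_nonneg _
  have hαpos : 0 < α := by
    rcases hα0.lt_or_eq with h | h
    · exact h
    · rw [← h] at ha4; norm_num at ha4
  have hα3 : 1 / 2 < α ^ 3 := lt_of_le_of_lt ha4 (pow_lt_pow_right_of_lt_one₀ hαpos ha (by norm_num))
  have hα2 : 1 / 2 < α ^ 2 := lt_of_le_of_lt ha4 (pow_lt_pow_right_of_lt_one₀ hαpos ha (by norm_num))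
  have hα1 : 1 / 2 < α := by
    have : α ^ 2 < α := by nlinarith
    linarith
  have hα4 : α / 2 < α ^ 4 := by nlinarith
  have a0 : a ≠ 0 := by rw [← norm_pos_iff, ← hα]; exact hαpos
  have nc2 : ‖c‖ ^ 2 = α := by
    rw [← norm_pow, hc, show 2 - a = -a + 2 by ring, norm_add_eq, norm_neg, ← hα]
    rw [n2, norm_neg, ← hα]; exact hα1
  have nc2' : ‖c'‖ ^ 2 = α := by
    rw [← norm_pow, hc', show 2 + a = a + 2 by ring, norm_add_eq, ← hα]
    rw [n2, ← hα]; exact hα1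
  have nc : ‖c‖ < 1 := sq_lt_one_of (norm_nonneg _) (by rw [nc2]; exact ha)
  have nc' : ‖c'‖ < 1 := sq_lt_one_of (norm_nonneg _) (by rw [nc2']; exact ha)
  have ncg : 1 / 2 < ‖c‖ := by
    by_contra h; push Not at h
    have : ‖c‖ ^ 2 ≤ (1 / 2) ^ 2 := pow_le_pow_left₀ (norm_nonneg _) h 2
    rw [nc2] at this; norm_num at this; linarith
  have ncg' : 1 / 2 < ‖c'‖ := by
    by_contra h; push Not at h
    have : ‖c'‖ ^ 2 ≤ (1 / 2) ^ 2 := pow_le_pow_left₀ (norm_nonneg _) h 2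
    rw [nc2'] at this; norm_num at this; linarith
  have ns2 : ‖s‖ ^ 2 = 1 / 2 := by rw [← norm_pow, hs, norm_mul, n2, norm_sub_one_of_lt nc, mul_one]
  have ns2' : ‖s'‖ ^ 2 = 1 / 2 := by rw [← norm_pow, hs', norm_mul, n2, norm_sub_one_of_lt nc', mul_one]
  have nsg : 1 / 2 < ‖s‖ := by
    by_contra h; push Not at h
    have : ‖s‖ ^ 2 ≤ (1 / 2) ^ 2 := pow_le_pow_left₀ (norm_nonneg _) h 2
    rw [ns2] at this; norm_num at this
  have nsg' : 1 / 2 < ‖s'‖ := by
    by_contra h; push Not at h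
    have : ‖s'‖ ^ 2 ≤ (1 / 2) ^ 2 := pow_le_pow_left₀ (norm_nonneg _) h 2
    rw [ns2'] at this; norm_num at this
  have nsα : ‖s‖ ≤ α := by
    by_contra h; push Not at h
    have : α ^ 2 < ‖s‖ ^ 2 := by gcongr
    rw [ns2] at this; linarith
  have nsα' : ‖s'‖ ≤ α := by
    by_contra h; push Not at h
    have : α ^ 2 < ‖s'‖ ^ 2 := by gcongr
    rw [ns2'] at this; linarith
  have ns : ‖s‖ ≤ 1 := nsα.trans ha.le
  have ns' : ‖s'‖ ≤ 1 := nsα'.trans ha.le
  obtain ⟨g, hg⟩ : ∃ g, g = c * (2 - s) := ⟨_, rfl⟩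
  obtain ⟨g', hg'⟩ : ∃ g', g' = c' * (2 - s') := ⟨_, rfl⟩
  have ng2 : ‖g‖ ^ 2 = α / 2 := by
    rw [hg, norm_mul, mul_pow, nc2, show 2 - s = -s + 2 by ring, norm_add_eq, norm_neg, ns2]
    · ring
    · rw [n2, norm_neg]; exact nsg
  have ng2' : ‖g'‖ ^ 2 = α / 2 := by
    rw [hg', norm_mul, mul_pow, nc2', show 2 - s' = -s' + 2 by ring, norm_add_eq, norm_neg, ns2']
    · ring
    · rw [n2, norm_neg]; exact nsg'
  have lt_of_sq : ∀ x : ℝ, 0 ≤ x → x ^ 2 ≤ α / 2 → x < α ^ 2 := by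
    intro x _ hx2
    by_contra h; push Not at h
    have : (α ^ 2) ^ 2 ≤ x ^ 2 := by gcongr
    have e : (α ^ 2) ^ 2 = α ^ 4 := by ring
    rw [e] at this; linarith
  have hgα2 : ‖g‖ < α ^ 2 := lt_of_sq _ (norm_nonneg _) ng2.le
  have hgα2' : ‖g'‖ < α ^ 2 := lt_of_sq _ (norm_nonneg _) ng2'.le
  have hα21 : α ^ 2 < α := by nlinarith
  have hgα : ‖g‖ < α := hgα2.trans hα21
  have hgα' : ‖g'‖ < α := hgα2'.trans hα21
  obtain ⟨y, hy⟩ : ∃ y, y = -a + g := ⟨_, rfl⟩
  obtain ⟨y', hy'⟩ : ∃ y', y' = a + g' := ⟨_, rfl⟩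
  have ny : ‖y‖ = α := by rw [hy, norm_add_eq, norm_neg, ← hα]; rw [norm_neg, ← hα]; exact hgα
  have ny' : ‖y'‖ = α := by rw [hy', norm_add_eq, ← hα]; rw [← hα]; exact hgα'
  have y0 : y ≠ 0 := by rw [← norm_pos_iff, ny]; exact hαpos
  have y0' : y' ≠ 0 := by rw [← norm_pos_iff, ny']; exact hαpos
  obtain ⟨E, hE⟩ : ∃ E, E = 4 * (1 + c) + 8 * (a - s) := ⟨_, rfl⟩
  obtain ⟨E', hE'⟩ : ∃ E', E' = 4 * (1 + c') + 8 * (-a - s') := ⟨_, rfl⟩
  have hyE : y ^ 2 = -a * (Q * (c + 2)) + E := by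
    rw [hy, hg, hQ, hE]
    linear_combination (4 - 4 * s + a + s ^ 2) * hc + (2 - a) * hs
  have hyE' : y' ^ 2 = a * (Q' * (c' + 2)) + E' := by
    rw [hy', hg', hQ', hE']
    linear_combination (4 - 4 * s' - a + s' ^ 2) * hc' + (2 + a) * hs'
  have hc2 : c + 2 ≠ 0 := by
    rw [← norm_pos_iff, norm_add_eq (by rw [n2]; exact ncg)]; linarith
  have hc2' : c' + 2 ≠ 0 := by
    rw [← norm_pos_iff, norm_add_eq (by rw [n2]; exact ncg')]; linarith
  have fQ : σ Q = Q := by rw [hQ, map_sub, map_add, map_mul, fc, fs, fix_two, map_ofNat]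
  have fQ' : σ Q' = Q' := by rw [hQ', map_sub, map_add, map_mul, fc', fs', fix_two, map_ofNat]
  have fc2 : σ (c + 2) = c + 2 := by rw [map_add, fc, fix_two]
  have fc2' : σ (c' + 2) = c' + 2 := by rw [map_add, fc', fix_two]
  have fQQ : σ (Q * Q') = Q * Q' := by rw [map_mul, fQ, fQ']
  have fcc : σ ((c + 2) * (c' + 2)) = (c + 2) * (c' + 2) := by rw [map_mul, fc2, fc2']
  have fg : σ g = g := by rw [hg, map_mul, map_sub, fc, fs, fix_two]
  have fg' : σ g' = g' := by rw [hg', map_mul, map_sub, fc', fs', fix_two]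
  have fy : σ y = y := by rw [hy, map_add, map_neg, fa, fg]
  have fy' : σ y' = y' := by rw [hy', map_add, fa, fg']
  have hX : chi σ ((-1) * (a ^ 2 * ((Q * Q') * ((c + 2) * (c' + 2))))) = 0 := by
    apply chi_of_near (mul_ne_zero y0 y0')
    · have e : (-1) * (a ^ 2 * ((Q * Q') * ((c + 2) * (c' + 2)))) - (y * y') ^ 2 =
          -(4 * ((2 * a ^ 2 + (c + c') * a ^ 2) + -(2 * (a * ((1 + c') * g - (1 + c) * g')))
              + ((1 + c') * g ^ 2 + (1 + c) * g' ^ 2)))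
          + -(8 * ((-a - s') * y ^ 2 + (a - s) * y' ^ 2)) + E * E' := by
        have e1 : (-1) * (a ^ 2 * ((Q * Q') * ((c + 2) * (c' + 2)))) = (y ^ 2 - E) * (y' ^ 2 - E') := by
          rw [hyE, hyE']; ring
        have e2 : (2 * a ^ 2 + (c + c') * a ^ 2) + -(2 * (a * ((1 + c') * g - (1 + c) * g')))
              + ((1 + c') * g ^ 2 + (1 + c) * g' ^ 2) = (1 + c') * y ^ 2 + (1 + c) * y' ^ 2 := by
          rw [hy, hy']; ring
        rw [e1, e2]
        have e3 : (y ^ 2 - E) * (y' ^ 2 - E') - (y * y') ^ 2 = -(E' * y ^ 2 + E * y' ^ 2) + E * E' := by ring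
        rw [e3]
        have e4 : E' * y ^ 2 + E * y' ^ 2 = 4 * ((1 + c') * y ^ 2 + (1 + c) * y' ^ 2) +
          8 * ((-a - s') * y ^ 2 + (a - s) * y' ^ 2) := by rw [hE, hE']; ring
        rw [e4]; ring
      have hRHS : ‖y * y'‖ ^ 2 / 4 = α ^ 4 / 4 := by rw [norm_mul, ny, ny']; ring
      rw [e, hRHS]
      have n1c : ‖1 + c‖ ≤ 1 := norm_add_le' (by rw [norm_one]) nc.le
      have n1c' : ‖1 + c'‖ ≤ 1 := norm_add_le' (by rw [norm_one]) nc'.le
      refine norm_add_lt (norm_add_lt ?_ ?_) ?_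
      · rw [norm_neg, norm_mul, n_four]
        have hM : ‖(2 * a ^ 2 + (c + c') * a ^ 2) + -(2 * (a * ((1 + c') * g - (1 + c) * g')))
              + ((1 + c') * g ^ 2 + (1 + c) * g' ^ 2)‖ < α ^ 4 := by
          refine norm_add_lt (norm_add_lt (norm_add_lt ?_ ?_) ?_) (norm_add_lt ?_ ?_)
          · rw [norm_mul, n2, norm_pow, ← hα]; nlinarith
          · rw [norm_mul, norm_pow, ← hα]
            have hcc2 : ‖c + c'‖ ^ 2 ≤ α / 2 := by
              rw [← norm_pow]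
              have : (c + c') ^ 2 = 4 + 2 * (c * c') := by linear_combination hc + hc'
              rw [this]
              apply norm_add_le'
              · rw [n_four]; linarith
              · have hcc : ‖c * c'‖ ≤ α := by
                  by_contra h; push Not at h
                  have h3 : α ^ 2 < ‖c * c'‖ ^ 2 := by gcongr
                  rw [norm_mul, mul_pow, nc2, nc2'] at h3; nlinarith
                rw [norm_mul, n2]; linarith
            have := lt_of_sq _ (norm_nonneg _) hcc2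
            have hp : 0 < α ^ 2 := by positivity
            nlinarith
          · rw [norm_neg, norm_mul, norm_mul, n2, ← hα]
            have hk : ‖(1 + c') * g - (1 + c) * g'‖ ≤ α ^ 2 := by
              apply norm_sub_le'
              · rw [norm_mul]; nlinarith [norm_nonneg g, norm_nonneg (1 + c')]
              · rw [norm_mul]; nlinarith [norm_nonneg g', norm_nonneg (1 + c)]
            have hp : 0 < α ^ 3 := by positivity
            nlinarith
          · rw [norm_mul, norm_pow, ng2]; nlinarith [norm_nonneg (1 + c')]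
          · rw [norm_mul, norm_pow, ng2']; nlinarith [norm_nonneg (1 + c)]
        linarith
      · rw [norm_neg, norm_mul, n_eight]
        have hk : ‖(-a - s') * y ^ 2 + (a - s) * y' ^ 2‖ ≤ α ^ 3 := by
          apply norm_add_le'
          · rw [norm_mul, norm_pow, ny]
            have : ‖-a - s'‖ ≤ α := norm_sub_le' (by rw [norm_neg, ← hα]) nsα'
            have hp : 0 < α ^ 2 := by positivity
            nlinarith
          · rw [norm_mul, norm_pow, ny']
            have : ‖a - s‖ ≤ α := norm_sub_le' (by rw [← hα]) nsα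
            have hp : 0 < α ^ 2 := by positivity
            nlinarith
        nlinarith
      · rw [norm_mul]
        have nE : ‖E‖ ≤ 1 / 4 := by
          rw [hE]
          apply norm_add_le'
          · rw [norm_mul, n_four]; linarith
          · rw [norm_mul, n_eight]
            have : ‖a - s‖ ≤ 1 := norm_sub_le' (by rw [← hα]; exact ha.le) ns
            linarith
        have nE' : ‖E'‖ ≤ 1 / 4 := by
          rw [hE']
          apply norm_add_le'
          · rw [norm_mul, n_four]; linarith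
          · rw [norm_mul, n_eight]
            have : ‖-a - s'‖ ≤ 1 := norm_sub_le' (by rw [norm_neg, ← hα]; exact ha.le) ns'
            linarith
        have : ‖E‖ * ‖E'‖ ≤ 1 / 4 * (1 / 4) := by
          apply mul_le_mul nE nE' (norm_nonneg _) (by norm_num)
        linarith
    · rw [map_mul, map_mul, map_pow, fix_neg_one, fa, map_mul, fQQ, fcc]
    · rw [map_mul, fy, fy']
  have hcc : chi σ ((c + 2) * (c' + 2)) = 0 := by
    have h1 : chi σ (2 * ((c + 2) * (c' + 2))) = 0 := by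
      have : 2 * ((c + 2) * (c' + 2)) = (c + c' + 2) ^ 2 := by linear_combination -hc - hc'
      rw [this]
      exact chi_sq (by rw [map_add, map_add, fc, fc', fix_two])
    rw [chi_mul two_ne (mul_ne_zero hc2 hc2') (fix_two σ) fcc, h2, zero_add] at h1
    exact h1
  have hP0 : (Q * Q') * ((c + 2) * (c' + 2)) ≠ 0 := mul_ne_zero (mul_ne_zero hQ0 hQ0') (mul_ne_zero hc2 hc2')
  have fP : σ ((Q * Q') * ((c + 2) * (c' + 2))) = (Q * Q') * ((c + 2) * (c' + 2)) := by
    rw [map_mul, fQQ, fcc]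
  have fa2 : σ (a ^ 2) = a ^ 2 := by rw [map_pow, fa]
  rw [chi_mul neg_one_ne (mul_ne_zero (pow_ne_zero 2 a0) hP0) (fix_neg_one σ) (by rw [map_mul, fa2, fP]),
    chi_mul (pow_ne_zero 2 a0) hP0 fa2 fP, chi_sq fa,
    chi_mul (mul_ne_zero hQ0 hQ0') (mul_ne_zero hc2 hc2') fQQ fcc, h1, hcc,
    zero_add, zero_add, add_zero] at hX
  exact hX

end Arb49
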