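import Pool.Agent.Lib.MP_32d347_h49.Up

namespace Arb49
open Finset Module

/-- the span of the products `T τ * S σ` -/
def D (n : ℕ) : Submodule (ZMod 2) (LL n → ZMod 2) :=
  Submodule.span (ZMod 2) {X | ∃ τ ∈ N n, ∃ σ ∈ N (n + 1), X = T n τ * S n σ}

theorem mem_D {n : ℕ} {τ σ : G} (hτ : τ ∈ N n) (hσ : σ ∈ N (n + 1)) : T n τ * S n σ ∈ D n :=
  Submodule.subset_span ⟨τ, hτ, σ, hσ, rfl⟩

def Good (n : ℕ) : Prop := ∃ τ ∈ N n, ∃ σ ∈ N (n + 1), ∑ u : LL n, T n τ u * S n σ u = 1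

theorem conj_inv_mem {n : ℕ} {σ : G} (hσ : σ ∈ N n) (g : G) : g⁻¹ * σ * g ∈ N n := by
  have := N_conj hσ g⁻¹; rwa [inv_inv] at this

theorem T_conj' {n : ℕ} {σ : G} (hσ : σ ∈ N n) (g : G) (w : LL n) :
    T n (g⁻¹ * σ * g) w = T n σ (g • w) := by
  have h1 := T_conj (conj_inv_mem hσ g) g w
  rw [← h1]; congr 1; group

theorem S_conj' {n : ℕ} {σ : G} (hσ : σ ∈ N n) (g : G) (w : LL n) :
    S n (g⁻¹ * σ * g) w = S n σ (g • w) := by
  have h1 := S_conj (conj_inv_mem hσ g) g w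
  rw [← h1]; congr 1; group

theorem D_conj {n : ℕ} (g : G) : ∀ X ∈ D n, (fun w => X (g • w)) ∈ D n := by
  intro X hX
  induction hX using Submodule.span_induction with
  | mem X h =>
    obtain ⟨τ, hτ, σ, hσ, rfl⟩ := h
    have : (fun w => (T n τ * S n σ) (g • w)) = T n (g⁻¹ * τ * g) * S n (g⁻¹ * σ * g) := by
      funext w
      rw [Pi.mul_apply, Pi.mul_apply, T_conj' hτ, S_conj' (N_succ_le n hσ)]
    rw [this]
    exact mem_D (conj_inv_mem hτ g) (conj_inv_mem hσ g)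
  | zero => exact Submodule.zero_mem _
  | add X Y _ _ h1 h2 => exact Submodule.add_mem _ h1 h2
  | smul c X _ h1 => exact Submodule.smul_mem _ c h1

theorem D_top {n : ℕ} (hT : Tr n) (h : Good n) : D n = ⊤ := by
  obtain ⟨τ, hτ, σ, hσ, hs⟩ := h
  exact level_lemma hT (D n) D_conj (mem_D hτ hσ) hs

theorem D_le_comap (n : ℕ) : D n ≤ (V (n + 1)).comap (pull n) := by
  rw [D, Submodule.span_le]
  rintro _ ⟨τ, hτ, σ, hσ, rfl⟩
  change pull n (T n τ * S n σ) ∈ V (n + 1)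
  rw [← T_comm hτ hσ]
  exact T_mem_V ((N (n + 1)).mul_mem (N_conj hσ τ) ((N (n + 1)).inv_mem hσ))

/-- a functional on the sign vectors invariant under `N n` has children-sums orthogonal to `D n` -/
theorem G2 {n : ℕ} (X : LL (n + 1) → ZMod 2)
    (h : ∀ τ ∈ N n, ∀ r ∈ N (n + 1), ∑ w, X w * T (n + 1) (τ * r * τ⁻¹) w = ∑ w, X w * T (n + 1) r w) :
    ∀ m ∈ D n, ∑ u, sumch n X u * m u = 0 := by
  intro m hm
  induction hm using Submodule.span_induction with
  | mem m hm =>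
    obtain ⟨τ, hτ, r, hr, rfl⟩ := hm
    rw [← sum_mul_pull, ← T_comm hτ hr, T_mul (N_conj hr τ) ((N (n + 1)).inv_mem hr), T_inv hr]
    simp only [Pi.add_apply, mul_add, sum_add_distrib]
    rw [h τ hτ r hr, CharTwo.add_self_eq_zero]
  | zero => simp
  | add a b _ _ ha hb =>
    simp only [Pi.add_apply, mul_add, sum_add_distrib]
    rw [ha, hb, add_zero]
  | smul c a _ ha =>
    simp only [Pi.smul_apply, smul_eq_mul]
    have : ∀ u, sumch n X u * (c * a u) = c * (sumch n X u * a u) := fun u => by ring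
    simp only [this, ← mul_sum]
    rw [ha, mul_zero]

/-- the abstract step -/
theorem STEP {n : ℕ} (hn : 2 ≤ n) {τ : G} (hτ : τ ∈ N n) (hU : U n (τ ^ 2) = T n τ)
    (hD : T n τ * S n τ ∈ D n) : T n τ ∈ B n := by
  by_contra hB
  -- submodule of pairs
  let J : Submodule (ZMod 2) ((LL (n + 1) ⊕ LL n) → ZMod 2) :=
    { carrier := {X | ∃ r ∈ N (n + 1), X = Sum.elim (T (n + 1) r) (U n r)}
      add_mem' := by
        rintro _ _ ⟨σ, hσ, rfl⟩ ⟨ρ, hρ, rfl⟩
        refine ⟨σ * ρ, (N (n + 1)).mul_mem hσ hρ, ?_⟩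
        rw [T_mul hσ hρ, U_mul hσ hρ]
        funext x; rcases x with x | x <;> rfl
      zero_mem' := by
        refine ⟨1, (N (n + 1)).one_mem, ?_⟩
        funext x; rcases x with x | x
        · exact (chi_one _).symm
        · exact (chi_one _).symm
      smul_mem' := by
        rintro c _ ⟨σ, hσ, rfl⟩
        rcases two_cases c with h | h
        · rw [h, zero_smul]
          refine ⟨1, (N (n + 1)).one_mem, ?_⟩
          funext x; rcases x with x | x
          · exact (chi_one _).symm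
          · exact (chi_one _).symm
        · rw [h, one_smul]; exact ⟨σ, hσ, rfl⟩ }
  have hnot : (Sum.elim 0 (T n τ) : (LL (n + 1) ⊕ LL n) → ZMod 2) ∉ J := by
    rintro ⟨r, hr, h⟩
    apply hB
    have h1 : T (n + 1) r = 0 := by
      funext w; exact (congrFun h (Sum.inl w)).symm
    refine ⟨r, (T_eq_zero_iff hr).1 h1, ?_⟩
    funext w; exact (congrFun h (Sum.inr w)).symm
  obtain ⟨Z, hZ, hZ1⟩ := dual_sep J _ hnot
  have hrel : ∀ r ∈ N (n + 1), ∑ w, Z (Sum.inl w) * T (n + 1) r w = ∑ b, Z (Sum.inr b) * U n r b := by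
    intro r hr
    have h1 := hZ _ ⟨r, hr, rfl⟩
    rw [Fintype.sum_sum_type] at h1
    simp only [Sum.elim_inl, Sum.elim_inr] at h1
    have : ∀ a b : ZMod 2, a + b = 0 → a = b := by decide
    exact this _ _ h1
  have hone : ∑ b, Z (Sum.inr b) * T n τ b = 1 := by
    rw [Fintype.sum_sum_type] at hZ1
    simpa using hZ1
  have hinv : ∀ g ∈ N n, ∀ r ∈ N (n + 1),
      ∑ w, Z (Sum.inl w) * T (n + 1) (g * r * g⁻¹) w = ∑ w, Z (Sum.inl w) * T (n + 1) r w := by
    intro g hg r hr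
    rw [hrel r hr, hrel _ (N_conj hr g)]
    refine sum_congr rfl fun b _ => ?_
    have h1 := U_conj (k := n) (by omega) (N_le (by omega) hr) hr g b
    rw [mem_N_iff.1 hg b] at h1
    rw [h1]
  have horth := G2 (fun w => Z (Sum.inl w)) hinv _ hD
  rw [← sum_mul_pull, ← T_sq hτ, hrel _ (sq_mem_N hτ), hU, hone] at horth
  exact absurd horth (by decide)

/-- `U n (τ²) = T n τ` for `τ ∈ N n`, `n ≥ 3` -/
theorem U_sq {n : ℕ} (hn : 3 ≤ n) {τ : G} (hτ : τ ∈ N n) : U n (τ ^ 2) = T n τ := by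
  funext b
  change chi (τ ^ 2) (2 - (ch b).1) = chi τ (b.1 - 1)
  have hb := hτ _ b.2
  rw [chi_two_sub_sq hb (ch_sq b) (ne_zero_of_mem (ch b).2) (two_sub_ne (ch b).2)
    (two_add_ne (ch b).2), five_eq (by omega) b.2 (N_le hn hτ) hb]
  rcases two_cases (chi τ (b.1 - 1)) with h | h <;> rw [h] <;> rfl

theorem V_le_B {n : ℕ} (hn : 3 ≤ n) (hD : D n = ⊤) : V n ≤ B n := by
  rintro _ ⟨τ, hτ, rfl⟩
  exact STEP (by omega) hτ (U_sq hn hτ) (by rw [hD]; exact Submodule.mem_top)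

theorem GoodStep {n : ℕ} (hn : 3 ≤ n) (hT : Tr n) (h : Good n) : Good (n + 1) := by
  have hD := D_top hT h
  obtain ⟨τ, hτ, σ, hσ, hs⟩ := h
  obtain ⟨σ', hσ', hU⟩ := V_le_B hn hD (T_mem_V hτ)
  refine ⟨σ, hσ, σ', hσ', ?_⟩
  rw [S_eq_pull (by omega) (N_le (by omega) hσ') (N_succ_le _ hσ'), sum_mul_pull, ← S_eq_sumch hσ, hU, ← hs]
  exact sum_congr rfl fun u _ => mul_comm _ _

/-- lower bound recursion -/
theorem v_lower {n : ℕ} (hn : 3 ≤ n) (hD : D n = ⊤) (hD' : D (n + 1) = ⊤) :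
    2 ^ (n + 1) + v n ≤ v (n + 2) := by
  rw [v_split n (by omega)]
  have h1 : (V (n + 2)).comap (pull (n + 1)) = ⊤ := by
    rw [eq_top_iff, ← hD']; exact D_le_comap (n + 1)
  rw [h1, finrank_top, finrank_fun]
  have h2 := Submodule.finrank_mono (V_le_B hn hD)
  rw [v]; omega

end Arb49
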