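import Pool.Agent.Lib.MP_32d347_h49.Bounds

namespace Arb49
open Finset Module Polynomial

/-- the iterates `f^n` of `f = X^2 + 1` -/
noncomputable def fIter : ℕ → ℚ_[2][X]
  | 0 => X
  | n + 1 => (fIter n) ^ 2 + 1

theorem aeval_fIter (n : ℕ) (z : L) : aeval z (fIter n) = F^[n] z := by
  induction n with
  | zero => simp [fIter]
  | succ n ih => rw [F_iter_succ', fIter, map_add, map_pow, ih, map_one]

theorem fIter_ne (n : ℕ) : fIter n ≠ 0 := by
  intro h
  have h1 := aeval_fIter n 1
  rw [h, map_zero] at h1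
  exact one_notMem n h1.symm

theorem mem_rootSet_iff (n : ℕ) (z : L) : z ∈ (fIter n).rootSet L ↔ z ∈ Lev n := by
  rw [mem_rootSet, aeval_fIter, mem_Lev]
  exact ⟨fun h => h.2, fun h => ⟨fIter_ne n, h⟩⟩

instance fact_splits (n : ℕ) : Fact (((fIter n).map (algebraMap ℚ_[2] L)).Splits) :=
  ⟨IsAlgClosed.splits _⟩

theorem ker_restrict (n : ℕ) : (Polynomial.Gal.restrict (fIter n) L).ker = N n := by
  ext σ
  rw [MonoidHom.mem_ker, mem_N]
  constructor
  · intro h z hz
    have h1 := Polynomial.Gal.galActionHom_restrict (fIter n) L σ ⟨z, (mem_rootSet_iff n z).2 hz⟩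
    rw [h, map_one] at h1
    exact h1.symm
  · intro h
    apply Polynomial.Gal.galActionHom_injective (fIter n) L
    rw [map_one]
    ext ⟨z, hz⟩
    rw [Polynomial.Gal.galActionHom_restrict]
    exact h z ((mem_rootSet_iff n z).1 hz)

theorem card_Gal (n : ℕ) : Nat.card (fIter n).Gal = 2 ^ g n := by
  rw [← index_eq, ← ker_restrict, Subgroup.index_ker]
  have h : (Polynomial.Gal.restrict (fIter n) L).range = ⊤ :=
    MonoidHom.range_eq_top.2 (Polynomial.Gal.restrict_surjective (fIter n) L)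
  rw [h]
  exact (Nat.card_congr Subgroup.topEquiv.toEquiv).symm

end Arb49
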