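import Pool.Agent.Lib.MP_32d347_h49.Chi

namespace Arb49

theorem norm_aut (σ : G) (x : L) : ‖σ x‖ = ‖x‖ := by
  rw [← PadicAlgCl.spectralNorm_eq, ← PadicAlgCl.spectralNorm_eq]
  exact (spectralNorm_eq_of_equiv σ x).symm

theorem norm_two : ‖(2 : L)‖ = 1 / 2 := by
  have h := PadicAlgCl.norm_extends 2 (2 : ℚ_[2])
  have h2 : ‖(2 : ℚ_[2])‖ = 1 / 2 := by
    have := Padic.norm_p (p := 2); simpa using this
  rw [h2, map_ofNat] at h; exact h

theorem norm_intCast_le (n : ℤ) : ‖(n : L)‖ ≤ 1 := by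
  have h := PadicAlgCl.norm_extends 2 (n : ℚ_[2])
  have h2 : ‖(n : ℚ_[2])‖ ≤ 1 := Padic.norm_int_le_one n
  rw [← h, map_intCast] at h2; exact h2

theorem norm_natCast_le (n : ℕ) : ‖(n : L)‖ ≤ 1 := by
  have := norm_intCast_le (n : ℤ); simpa using this

/-- ultrametric inequality -/
theorem norm_add_le_max' (x y : L) : ‖x + y‖ ≤ max ‖x‖ ‖y‖ :=
  IsUltrametricDist.norm_add_le_max x y

theorem norm_add_lt {x y : L} {r : ℝ} (hx : ‖x‖ < r) (hy : ‖y‖ < r) : ‖x + y‖ < r :=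
  lt_of_le_of_lt (norm_add_le_max' x y) (max_lt hx hy)

theorem norm_add_le' {x y : L} {r : ℝ} (hx : ‖x‖ ≤ r) (hy : ‖y‖ ≤ r) : ‖x + y‖ ≤ r :=
  le_trans (norm_add_le_max' x y) (max_le hx hy)

theorem norm_sub_lt {x y : L} {r : ℝ} (hx : ‖x‖ < r) (hy : ‖y‖ < r) : ‖x - y‖ < r := by
  rw [sub_eq_add_neg]; exact norm_add_lt hx (by rwa [norm_neg])

theorem norm_sub_le' {x y : L} {r : ℝ} (hx : ‖x‖ ≤ r) (hy : ‖y‖ ≤ r) : ‖x - y‖ ≤ r := by
  rw [sub_eq_add_neg]; exact norm_add_le' hx (by rwa [norm_neg])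

/-- if `‖y‖ < ‖x‖` then `‖x+y‖ = ‖x‖` -/
theorem norm_add_eq {x y : L} (h : ‖y‖ < ‖x‖) : ‖x + y‖ = ‖x‖ := by
  apply le_antisymm
  · exact norm_add_le' le_rfl h.le
  · by_contra hc
    push Not at hc
    have : ‖x‖ < ‖x‖ := by
      calc ‖x‖ = ‖(x + y) - y‖ := by rw [add_sub_cancel_right]
        _ < ‖x‖ := norm_sub_lt hc h
    exact lt_irrefl _ this

/-- elements close to `1` have a canonical square root: their sign character is trivial -/
theorem chi_near {σ : G} {z : L} (hz : ‖z - 1‖ < 1 / 4) (hσ : σ z = z) : chi σ z = 0 := by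
  -- choose the root near 1
  have key : ∃ s : L, s ^ 2 = z ∧ ‖s - 1‖ < 1 / 2 := by
    have h1 : ‖rt z - 1‖ * ‖rt z + 1‖ < 1 / 4 := by
      rw [← norm_mul]
      have : (rt z - 1) * (rt z + 1) = z - 1 := by
        have := rt_sq z; linear_combination this
      rw [this]; exact hz
    by_cases h2 : ‖rt z - 1‖ < 1 / 2
    · exact ⟨rt z, rt_sq z, h2⟩
    · push Not at h2
      refine ⟨-rt z, by rw [neg_sq, rt_sq], ?_⟩
      have h3 : ‖rt z + 1‖ < 1 / 2 := by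
        by_contra hc
        push Not at hc
        have : (1 : ℝ) / 4 ≤ ‖rt z - 1‖ * ‖rt z + 1‖ := by nlinarith
        linarith
      rw [show -rt z - 1 = -(rt z + 1) by ring, norm_neg]; exact h3
  obtain ⟨s, hs, hs1⟩ := key
  rw [chi_eq_zero_iff hσ hs]
  rcases sq_eq_aut hσ hs with h | h
  · exact h
  · exfalso
    have h1 : ‖σ s - 1‖ < 1 / 2 := by
      have := norm_aut σ (s - 1)
      rw [map_sub, map_one] at this; rw [this]; exact hs1
    rw [h] at h1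
    have h2 : ‖(2 : L)‖ < 1 / 2 := by
      have : (2 : L) = -((-s - 1) + (s - 1)) := by ring
      rw [this, norm_neg]; exact norm_add_lt h1 hs1
    rw [norm_two] at h2; exact lt_irrefl _ h2

/-- usual form: `x = y^2 z`-type comparison -/
theorem chi_of_near {σ : G} {x y : L} (hy0 : y ≠ 0) (h : ‖x - y ^ 2‖ < ‖y‖ ^ 2 / 4)
    (hx : σ x = x) (hy : σ y = y) : chi σ x = 0 := by
  have hy2 : (0 : ℝ) < ‖y‖ ^ 2 := by positivity
  have hx0 : x ≠ 0 := by
    rintro rfl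
    rw [zero_sub, norm_neg, norm_pow] at h; linarith
  have hz : ‖x / y ^ 2 - 1‖ < 1 / 4 := by
    have : x / y ^ 2 - 1 = (x - y ^ 2) / y ^ 2 := by field_simp
    rw [this, norm_div, norm_pow, div_lt_iff₀ hy2]; linarith
  have hσ : σ (x / y ^ 2) = x / y ^ 2 := by rw [map_div₀, map_pow, hx, hy]
  have h1 := chi_near hz hσ
  have h2 := chi_mul_sq (σ := σ) (y := x / y ^ 2) (z := y) (div_ne_zero hx0 (pow_ne_zero 2 hy0)) hy0 hσ hy
  rw [div_mul_cancel₀ _ (pow_ne_zero 2 hy0), h1] at h2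
  exact h2

end Arb49
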