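import Pool.Agent.Lib.MP_32d347_h49.FourOdd
import Pool.Agent.Lib.MP_32d347_h49.Cnt

namespace Arb49
open Finset

/-- the root -/
noncomputable def root : LL 0 := ⟨0, by rw [Lev_zero]; rfl⟩

theorem root_val : root.1 = 0 := rfl

theorem eq_root (u : LL 0) : u = root := by
  apply Subtype.ext
  have h1 : (u.1 : L) ∈ ({0} : Set L) := by rw [← Lev_zero]; exact u.2
  exact h1

/-- `xx = i` -/
noncomputable def xx : LL 1 := ch root

theorem xx_sq : xx.1 ^ 2 = -1 := by rw [xx, ch_sq, root_val]; ring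

theorem eq_xx_or (u : LL 1) : u = xx ∨ u = ng xx := by
  rcases eq_ch_or u with h | h
  · left; rw [h, eq_root (par u)]; rfl
  · right; rw [h, eq_root (par u)]; rfl

theorem sum_LL_one {M : Type*} [AddCommMonoid M] (φ : LL 1 → M) : ∑ u, φ u = φ xx + φ (ng xx) := by
  rw [sum_LL_succ, Fintype.sum_eq_single root (fun u hu => absurd (eq_root u) hu)]; rfl

theorem N_le_one {n : ℕ} (h : 1 ≤ n) {σ : G} (hσ : σ ∈ N n) : σ ∈ N 1 := N_le h hσ

theorem c_neg_one {σ : G} (hσ : σ ∈ N 1) : chi σ (-1) = 0 := by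
  rw [chi_eq_zero_iff (fix_neg_one σ) xx_sq]; exact hσ _ xx.2

theorem c_two_eq {σ : G} (hσ : σ ∈ N 1) : chi σ 2 = chi σ (xx.1 - 1) + chi σ (-xx.1 - 1) := by
  have h1 : (2 : L) = (xx.1 - 1) * ((ng xx).1 - 1) := by rw [ng_val]; linear_combination xx_sq
  have h2 := fix_sub_one (hσ _ xx.2)
  have h3 := fix_sub_one (hσ _ (ng xx).2)
  have h4 : (-xx.1 - 1 : L) = (ng xx).1 - 1 := by rw [ng_val]
  rw [h4]
  conv_lhs => rw [h1]
  rw [chi_mul (sub_one_ne xx.2) (sub_one_ne (ng xx).2) h2 h3]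

theorem c_five_eq {σ : G} (hσ : σ ∈ N 1) : chi σ 5 = chi σ (2 - xx.1) + chi σ (2 + xx.1) := by
  have h1 : (5 : L) = (2 - xx.1) * (2 + xx.1) := by linear_combination xx_sq
  conv_lhs => rw [h1]
  rw [chi_mul (two_sub_ne xx.2) (two_add_ne xx.2) (fix_two_sub (hσ _ xx.2)) (fix_two_add (hσ _ xx.2))]

theorem T_zero_of_mem {n : ℕ} {σ : G} (hσ : σ ∈ N (n + 1)) (w : LL n) : chi σ (w.1 - 1) = 0 :=
  congrFun ((T_eq_zero_iff (N_succ_le n hσ)).2 hσ) w

theorem c_two {σ : G} (hσ : σ ∈ N 2) : chi σ 2 = 0 := by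
  rw [c_two_eq (N_le (by norm_num) hσ)]
  have h1 := T_zero_of_mem hσ xx
  have h2 := T_zero_of_mem hσ (ng xx)
  rw [ng_val] at h2
  rw [h1, h2, add_zero]

theorem S_zero_of_mem {n : ℕ} {σ : G} (hσ : σ ∈ N (n + 2)) (u : LL n) : chi σ (2 - u.1) = 0 := by
  have h1 := congrFun (S_eq_sumch (N_succ_le _ hσ)) u
  rw [sumch_apply] at h1
  change chi σ (2 - u.1) = chi σ ((ch u).1 - 1) + chi σ ((ng (ch u)).1 - 1) at h1
  rw [h1, T_zero_of_mem hσ, T_zero_of_mem hσ, add_zero]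

theorem c_five {σ : G} (hσ : σ ∈ N 3) : chi σ 5 = 0 := by
  rw [c_five_eq (N_le (by norm_num) hσ), S_zero_of_mem hσ xx]
  have := S_zero_of_mem hσ (ng xx)
  rw [ng_val, sub_neg_eq_add] at this
  rw [this, add_zero]

/-- `√(5-w)` for odd levels is fixed by the elements of `N 3` fixing a child of `w` -/
theorem five_odd_zero (m : ℕ) : ∀ w ∈ Lev (2 * m + 1), ∀ σ ∈ N 3, σ w = w →
    ∀ z : L, z ^ 2 = w - 1 → σ z = z → chi σ (5 - w) = 0 := by
  induction m with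
  | zero =>
    intro w hw σ hσ h1 z hz h2
    have hw' : w ∈ Lev 1 := hw
    rw [fact_one hw' h1, c_two (N_le (by norm_num) hσ), (chi_eq_zero_iff (fix_sub_one h1) hz).2 h2]
    have := S_zero_of_mem (n := 1) hσ ⟨w, hw'⟩
    rw [this]; rfl
  | succ m ih =>
    intro w hw σ hσ h1 z hz h2
    have hodd : Odd (2 * (m + 1) + 1) := ⟨m + 1, by ring⟩
    rw [fact_odd hodd (by omega) hw h1, (chi_eq_zero_iff (fix_sub_one h1) hz).2 h2, zero_add]
    have hF1 : F w ∈ Lev (2 * m + 2) := (mem_Lev_succ (2 * m + 2) w).1 hw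
    have hF2 : F (F w) ∈ Lev (2 * m + 1) := (mem_Lev_succ (2 * m + 1) _).1 hF1
    exact ih _ hF2 σ hσ (fix_par (fix_par h1)) (F w) (by simp [F]) (fix_par h1)

/-- `χ_(5-b) = χ_(b-1)` on `N 3` -/
theorem five_eq {k : ℕ} (hk : 2 ≤ k) {b : L} (hb : b ∈ Lev k) {σ : G} (hσ : σ ∈ N 3) (h1 : σ b = b) :
    chi σ (5 - b) = chi σ (b - 1) := by
  rcases Nat.even_or_odd k with he | ho
  · rw [fact_even he hb h1, c_neg_one (N_le (by norm_num) hσ), c_five hσ]; ring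
  · obtain ⟨m, rfl⟩ := ho
    obtain ⟨j, rfl⟩ : ∃ j, m = j + 1 := ⟨m - 1, by omega⟩
    have hodd : Odd (2 * (j + 1) + 1) := ⟨j + 1, rfl⟩
    rw [fact_odd hodd (by omega) hb h1]
    have hF1 : F b ∈ Lev (2 * j + 2) := (mem_Lev_succ (2 * j + 2) b).1 hb
    have hF2 : F (F b) ∈ Lev (2 * j + 1) := (mem_Lev_succ (2 * j + 1) _).1 hF1
    rw [five_odd_zero j _ hF2 σ hσ (fix_par (fix_par h1)) (F b) (by simp [F]) (fix_par h1), add_zero]

/-- `χ_(2-u) = χ_(2+u)` on `N 3` -/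
theorem two_sub_eq {k : ℕ} (hk : 1 ≤ k) {u : L} (hu : u ∈ Lev (k + 1)) {σ : G} (hσ : σ ∈ N 3)
    (h1 : σ u = u) : chi σ (2 - u) = chi σ (2 + u) := by
  have h2 : chi σ (5 - F u) = 0 := by
    rcases Nat.lt_or_ge 1 k with h | h
    · rw [five_eq h ((mem_Lev_succ k u).1 hu) hσ (fix_par h1)]
      have : F u - 1 = u ^ 2 := by simp [F]
      rw [this, chi_sq h1]
    · have hk1 : k = 1 := le_antisymm h hk
      subst hk1
      exact five_odd_zero 0 (F u) ((mem_Lev_succ 1 u).1 hu) σ hσ (fix_par h1) u (by simp [F]) h1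
  have h3 : 5 - F u = (2 - u) * (2 + u) := by simp only [F]; ring
  rw [h3, chi_mul (two_sub_ne hu) (two_add_ne hu) (fix_two_sub h1) (fix_two_add h1)] at h2
  have : ∀ a b : ZMod 2, a + b = 0 → a = b := by decide
  exact this _ _ h2

theorem S_ng {k : ℕ} (hk : 1 ≤ k) {σ : G} (hσ : σ ∈ N 3) (hσk : σ ∈ N (k + 1)) (u : LL (k + 1)) :
    S (k + 1) σ (ng u) = S (k + 1) σ u := by
  have := two_sub_eq hk u.2 hσ (hσk _ u.2)
  change chi σ (2 - (-u.1)) = chi σ (2 - u.1)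
  rw [this, sub_neg_eq_add]

theorem S_eq_pull {k : ℕ} (hk : 1 ≤ k) {σ : G} (hσ : σ ∈ N 3) (hσk : σ ∈ N (k + 1)) :
    S (k + 1) σ = pull k (U k σ) := by
  funext u
  rw [pull_apply]
  change _ = S (k + 1) σ (ch (par u))
  rcases eq_ch_or u with h | h
  · rw [← h]
  · conv_lhs => rw [h]
    exact S_ng hk hσ hσk _

/-- conjugation on `U` -/
theorem U_conj {k : ℕ} (hk : 1 ≤ k) {σ : G} (hσ : σ ∈ N 3) (hσk : σ ∈ N (k + 1)) (g : G) (b : LL k) :
    U k (g * σ * g⁻¹) (g • b) = U k σ b := by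
  have h1 := S_conj hσk g (ch b)
  have h2 : g * σ * g⁻¹ ∈ N 3 := N_conj hσ g
  have h3 : g * σ * g⁻¹ ∈ N (k + 1) := N_conj hσk g
  have h4 := congrFun (S_eq_pull hk h2 h3) (g • ch b)
  rw [pull_apply, par_smul, par_ch] at h4
  rw [← h4, h1]; rfl

/-- on level 2 the signs `S` are constant on `N 3` -/
theorem S_two_const {σ : G} (hσ : σ ∈ N 3) (u u' : LL 2) : S 2 σ u = S 2 σ u' := by
  have hσ2 : σ ∈ N 2 := N_le (by norm_num) hσ
  -- reduce to `ch xx`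
  have key : S 2 σ (ch xx) = S 2 σ (ch (ng xx)) := by
    have h1 : (ch xx).1 ^ 2 = xx.1 - 1 := ch_sq _
    have h2 : (ch (ng xx)).1 ^ 2 = -xx.1 - 1 := ch_sq _
    have h3 := fact_pair xx_sq h1 h2 (hσ2 _ (ch xx).2) (hσ2 _ (ch (ng xx)).2) (two_sub_ne (ch xx).2)
      (two_sub_ne (ch (ng xx)).2) (sub_one_ne (ch xx).2) (sub_one_ne (ch (ng xx)).2)
    rw [T_zero_of_mem hσ, T_zero_of_mem hσ, add_zero] at h3
    have : ∀ a b : ZMod 2, a + b = 0 → a = b := by decide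
    exact this _ _ h3
  have all : ∀ u : LL 2, S 2 σ u = S 2 σ (ch xx) := by
    intro u
    have h1 : S 2 σ u = S 2 σ (ch (par u)) := by
      rcases eq_ch_or u with h | h
      · rw [← h]
      · conv_lhs => rw [h]
        exact S_ng le_rfl hσ hσ2 _
    rw [h1]
    rcases eq_xx_or (par u) with h | h
    · rw [h]
    · rw [h, key]
  rw [all u, all u']

/-- the four-fold relation -/
theorem four_fold {m : ℕ} {σ : G} (hσ : σ ∈ N 3) (hσm : σ ∈ N (m + 3)) :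
    sumch m (sumch (m + 1) (U (m + 2) σ)) = 0 := by
  funext v
  rw [sumch_apply, sumch_apply, sumch_apply, Pi.zero_apply]
  set a := ch v with ha
  set b := ch a with hb
  set b' := ch (ng a) with hb'
  change chi σ (2 - (ch b).1) + chi σ (2 - (ch (ng b)).1)
    + (chi σ (2 - (ch b').1) + chi σ (2 - (ch (ng b')).1)) = 0
  set u1 := ch b with hu1
  set u2 := ch (ng b) with hu2
  set u3 := ch b' with hu3
  set u4 := ch (ng b') with hu4
  have ea : a.1 ^ 2 = v.1 - 1 := ch_sq _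
  have eb : b.1 ^ 2 = a.1 - 1 := ch_sq _
  have eb' : b'.1 ^ 2 = -a.1 - 1 := ch_sq _
  have e1 : u1.1 ^ 2 = b.1 - 1 := ch_sq _
  have e2 : u2.1 ^ 2 = -b.1 - 1 := ch_sq _
  have e3 : u3.1 ^ 2 = b'.1 - 1 := ch_sq _
  have e4 : u4.1 ^ 2 = -b'.1 - 1 := ch_sq _
  have f1 : σ u1.1 = u1.1 := hσm _ u1.2
  have f2 : σ u2.1 = u2.1 := hσm _ u2.2
  have f3 : σ u3.1 = u3.1 := hσm _ u3.2
  have f4 : σ u4.1 = u4.1 := hσm _ u4.2
  have fa : σ a.1 = a.1 := (N_le (by omega) hσm : σ ∈ N (m + 1)) _ a.2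
  have n1 := two_sub_ne u1.2
  have n2' := two_sub_ne u2.2
  have n3 := two_sub_ne u3.2
  have n4 := two_sub_ne u4.2
  have g1 := fix_two_sub f1
  have g2 := fix_two_sub f2
  have g3 := fix_two_sub f3
  have g4 := fix_two_sub f4
  have hc2 : chi σ 2 = 0 := c_two (N_le (by norm_num) hσ)
  have hc5 : chi σ 5 = 0 := c_five hσ
  have hc1 : chi σ (-1) = 0 := c_neg_one (N_le (by norm_num) hσ)
  rw [← chi_mul n1 n2' g1 g2, ← chi_mul n3 n4 g3 g4,
    ← chi_mul (mul_ne_zero n1 n2') (mul_ne_zero n3 n4) (by rw [map_mul, g1, g2]) (by rw [map_mul, g3, g4])]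
  have hc : (u1.1 * u2.1) ^ 2 = 2 - a.1 := by rw [mul_pow, e1, e2]; linear_combination -eb
  have hc' : (u3.1 * u4.1) ^ 2 = 2 + a.1 := by rw [mul_pow, e3, e4]; linear_combination -eb'
  have hs : (u1.1 + u2.1) ^ 2 = 2 * (u1.1 * u2.1 - 1) := by linear_combination e1 + e2
  have hs' : (u3.1 + u4.1) ^ 2 = 2 * (u3.1 * u4.1 - 1) := by linear_combination e3 + e4
  have hQ : (2 - u1.1) * (2 - u2.1) = 4 + u1.1 * u2.1 - 2 * (u1.1 + u2.1) := by ring
  have hQ' : (2 - u3.1) * (2 - u4.1) = 4 + u3.1 * u4.1 - 2 * (u3.1 + u4.1) := by ring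
  have fc : σ (u1.1 * u2.1) = u1.1 * u2.1 := by rw [map_mul, f1, f2]
  have fc' : σ (u3.1 * u4.1) = u3.1 * u4.1 := by rw [map_mul, f3, f4]
  have fs : σ (u1.1 + u2.1) = u1.1 + u2.1 := by rw [map_add, f1, f2]
  have fs' : σ (u3.1 + u4.1) = u3.1 + u4.1 := by rw [map_add, f3, f4]
  rcases Nat.even_or_odd m with he | ho
  · have hodd : Odd (m + 1) := he.add_one
    exact four_even (odd_lt hodd a.2) hc hc' hs hs' hQ hQ' (mul_ne_zero n1 n2') (mul_ne_zero n3 n4)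
      fc fc' fs fs' hc2 hc5
  · have heven : Even (m + 1) := ho.add_one
    have h2 : 2 ≤ m + 1 := by
      obtain ⟨j, rfl⟩ := ho; omega
    exact four_odd (even_lt heven a.2) (size_even heven h2 a.2) hc hc' hs hs' hQ hQ'
      (mul_ne_zero n1 n2') (mul_ne_zero n3 n4) fa fc fc' fs fs' hc2 hc1

end Arb49
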