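import Pool.Agent.Lib.MP_32d347_h49.Act

namespace Arb49

theorem n2 : ‖(2 : L)‖ = 1 / 2 := norm_two

/-- parity alternative for levels: even levels lie in the open unit disc, odd levels in `1 + ` it -/
theorem lev_disc (k : ℕ) : (∀ v ∈ Lev (2 * k), ‖v‖ < 1) ∧ (∀ w ∈ Lev (2 * k + 1), ‖w - 1‖ < 1) := by
  have step : ∀ m, (∀ v ∈ Lev m, ‖v‖ < 1) → ∀ w ∈ Lev (m + 1), ‖w - 1‖ < 1 := by
    intro m h w hw
    have h1 := h _ ((mem_Lev_succ m w).1 hw)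
    -- (w-1)^2 = F w - 2 w
    have h2 : (w - 1) ^ 2 = F w - 2 * w := by simp only [F]; ring
    have hw1 : ‖w‖ ≤ 1 := by
      by_contra hc; push Not at hc
      have : ‖w ^ 2‖ ≤ 1 := by
        have : w ^ 2 = F w - 1 := by simp [F]
        rw [this]; exact norm_sub_le' h1.le (by rw [norm_one])
      rw [norm_pow] at this; nlinarith
    have h3 : ‖(w - 1) ^ 2‖ < 1 := by
      rw [h2]
      refine norm_sub_lt h1 ?_
      rw [norm_mul, n2]; nlinarith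
    rw [norm_pow] at h3
    by_contra hc; push Not at hc; nlinarith
  have step2 : ∀ m, (∀ v ∈ Lev m, ‖v - 1‖ < 1) → ∀ w ∈ Lev (m + 1), ‖w‖ < 1 := by
    intro m h w hw
    have h1 := h _ ((mem_Lev_succ m w).1 hw)
    have h2 : w ^ 2 = F w - 1 := by simp [F]
    rw [← h2, norm_pow] at h1
    by_contra hc; push Not at hc; nlinarith [norm_nonneg w]
  induction k with
  | zero =>
    have h0 : ∀ v ∈ Lev (2 * 0), ‖v‖ < 1 := by
      intro v hv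
      have hv' : v ∈ Lev 0 := hv
      rw [Lev_zero, Set.mem_singleton_iff] at hv'
      rw [hv', norm_zero]; exact one_pos
    exact ⟨h0, step _ h0⟩
  | succ k ih =>
    have h1 : ∀ v ∈ Lev (2 * (k + 1)), ‖v‖ < 1 := step2 _ ih.2
    exact ⟨h1, step _ h1⟩

theorem even_lt {k : ℕ} (hk : Even k) {v : L} (hv : v ∈ Lev k) : ‖v‖ < 1 := by
  obtain ⟨m, rfl⟩ := hk
  rw [← two_mul] at hv; exact (lev_disc m).1 v hv

theorem odd_lt {k : ℕ} (hk : Odd k) {w : L} (hw : w ∈ Lev k) : ‖w - 1‖ < 1 := by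
  obtain ⟨m, rfl⟩ := hk; exact (lev_disc m).2 w hw

/-- exact sizes: `‖w-1‖^(2^k) = 1/2` (odd `k`), `‖v‖^(2^k) = 1/2` (even `k ≥ 2`) -/
theorem lev_size (k : ℕ) : (∀ w ∈ Lev (2 * k + 1), ‖w - 1‖ ^ (2 ^ (2 * k + 1)) = 1 / 2) ∧
    (∀ v ∈ Lev (2 * k + 2), ‖v‖ ^ (2 ^ (2 * k + 2)) = 1 / 2) := by
  have step2 : ∀ m, (∀ w ∈ Lev m, ‖w - 1‖ ^ (2 ^ m) = 1 / 2) →
      ∀ v ∈ Lev (m + 1), ‖v‖ ^ (2 ^ (m + 1)) = 1 / 2 := by
    intro m h v hv
    have h1 := h _ ((mem_Lev_succ m v).1 hv)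
    have h2 : v ^ 2 = F v - 1 := by simp [F]
    rw [← h2, norm_pow, ← pow_mul, ← pow_succ'] at h1
    exact h1
  have step : ∀ m, 1 ≤ m → (∀ v ∈ Lev m, ‖v‖ < 1 ∧ ‖v‖ ^ (2 ^ m) = 1 / 2) →
      ∀ w ∈ Lev (m + 1), ‖w - 1‖ < 1 → ‖w - 1‖ ^ (2 ^ (m + 1)) = 1 / 2 := by
    intro m hm h w hw hlt
    obtain ⟨h0, h1⟩ := h _ ((mem_Lev_succ m w).1 hw)
    have hbig : 1 / 2 < ‖F w‖ := by
      by_contra hc; push Not at hc
      have h3 : ‖F w‖ ^ (2 ^ m) ≤ (1 / 2) ^ (2 ^ m) := pow_le_pow_left₀ (norm_nonneg _) hc _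
      have h4 : ((1 : ℝ) / 2) ^ (2 ^ m) ≤ (1 / 2) ^ 2 := by
        apply pow_le_pow_of_le_one (by norm_num) (by norm_num)
        calc 2 = 2 ^ 1 := rfl
          _ ≤ 2 ^ m := Nat.pow_le_pow_right (by norm_num) hm
      rw [h1] at h3; norm_num at h3 h4; linarith
    have h2 : (w - 1) ^ 2 = F w - 2 * w := by simp only [F]; ring
    have hw1 : ‖w‖ ≤ 1 := by
      have : w = (w - 1) + 1 := by ring
      rw [this]; exact norm_add_le' hlt.le (by rw [norm_one])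
    have h5 : ‖(w - 1) ^ 2‖ = ‖F w‖ := by
      rw [h2, sub_eq_add_neg]
      apply norm_add_eq
      rw [norm_neg, norm_mul, n2]; nlinarith
    rw [pow_succ', pow_mul, ← norm_pow, h5, h1]
  induction k with
  | zero =>
    have h0 : ∀ w ∈ Lev (2 * 0 + 1), ‖w - 1‖ ^ (2 ^ (2 * 0 + 1)) = 1 / 2 := by
      intro w hw
      have h1 : F w ∈ Lev 0 := (mem_Lev_succ 0 w).1 hw
      rw [Lev_zero, Set.mem_singleton_iff] at h1
      have h2 : (w - 1) ^ 2 = -(2 * w) := by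
        have : F w = 0 := h1
        simp only [F] at this; linear_combination this
      have h3 : w ^ 2 = -1 := by
        have : F w = 0 := h1
        simp only [F] at this; linear_combination this
      have h4 : ‖w‖ = 1 := by
        have : ‖w ^ 2‖ = 1 := by rw [h3, norm_neg, norm_one]
        rw [norm_pow] at this
        nlinarith [norm_nonneg w]
      rw [mul_zero, zero_add, pow_one, ← norm_pow, h2, norm_neg, norm_mul, n2, h4, mul_one]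
    exact ⟨h0, step2 _ h0⟩
  | succ k ih =>
    have hlt : ∀ v ∈ Lev (2 * k + 2), ‖v‖ < 1 := (lev_disc (k + 1)).1
    have h1 : ∀ w ∈ Lev (2 * (k + 1) + 1), ‖w - 1‖ ^ (2 ^ (2 * (k + 1) + 1)) = 1 / 2 := by
      intro w hw
      exact step (2 * k + 2) (by omega) (fun v hv => ⟨hlt v hv, ih.2 v hv⟩) w hw ((lev_disc (k + 1)).2 w hw)
    exact ⟨h1, step2 _ h1⟩

theorem pow_ge_of {x : ℝ} {a b : ℕ} (hx0 : 0 ≤ x) (hx1 : x < 1) (hab : a ≤ b) (h : x ^ b = 1 / 2) :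
    1 / 2 ≤ x ^ a := by
  rw [← h]; exact pow_le_pow_of_le_one hx0 hx1.le hab

theorem size_even {k : ℕ} (hk : Even k) (h2 : 2 ≤ k) {v : L} (hv : v ∈ Lev k) : 1 / 2 ≤ ‖v‖ ^ 4 := by
  have h1 := even_lt hk hv
  obtain ⟨m, rfl⟩ := hk
  obtain ⟨j, rfl⟩ : ∃ j, m = j + 1 := ⟨m - 1, by omega⟩
  have h3 : v ∈ Lev (2 * j + 2) := by convert hv using 2; ring
  refine pow_ge_of (norm_nonneg _) h1 ?_ ((lev_size j).2 v h3)
  calc 4 = 2 ^ 2 := by norm_num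
    _ ≤ 2 ^ (2 * j + 2) := Nat.pow_le_pow_right (by norm_num) (by omega)

theorem size_odd {k : ℕ} (hk : Odd k) {w : L} (hw : w ∈ Lev k) : 1 / 2 ≤ ‖w - 1‖ ^ 2 := by
  have h1 := odd_lt hk hw
  obtain ⟨m, rfl⟩ := hk
  refine pow_ge_of (norm_nonneg _) h1 ?_ ((lev_size m).1 w hw)
  calc 2 = 2 ^ 1 := by norm_num
    _ ≤ 2 ^ (2 * m + 1) := Nat.pow_le_pow_right (by norm_num) (by omega)

theorem size_odd3 {k : ℕ} (hk : Odd k) (h3 : 3 ≤ k) {w : L} (hw : w ∈ Lev k) : 1 / 2 ≤ ‖w - 1‖ ^ 8 := by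
  have h1 := odd_lt hk hw
  obtain ⟨m, rfl⟩ := hk
  refine pow_ge_of (norm_nonneg _) h1 ?_ ((lev_size m).1 w hw)
  calc 8 = 2 ^ 3 := by norm_num
    _ ≤ 2 ^ (2 * m + 1) := Nat.pow_le_pow_right (by norm_num) (by omega)

end Arb49
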