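import Pool.Agent.Lib.MP_32d347_h49.Rel

namespace Arb49
open Finset Module

/-- rank formula along `sumch` / `pull` -/
theorem RK (n : ℕ) (W : Submodule (ZMod 2) (LL (n + 1) → ZMod 2)) :
    finrank (ZMod 2) W = finrank (ZMod 2) (W.map (sumch n)) + finrank (ZMod 2) (W.comap (pull n)) := by
  have h1 := LinearMap.finrank_range_add_finrank_ker ((sumch n).domRestrict W)
  rw [LinearMap.range_domRestrict] at h1
  have h2 : finrank (ZMod 2) (LinearMap.ker ((sumch n).domRestrict W)) =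
      finrank (ZMod 2) (W.comap (pull n)) := by
    symm
    let φ : (W.comap (pull n)) →ₗ[ZMod 2] (LinearMap.ker ((sumch n).domRestrict W)) :=
      { toFun := fun m => ⟨⟨pull n m.1, m.2⟩, by
          rw [LinearMap.mem_ker, LinearMap.domRestrict_apply]; exact sumch_pull m.1⟩
        map_add' := fun a b => by
          apply Subtype.ext; apply Subtype.ext
          change pull n (a.1 + b.1) = pull n a.1 + pull n b.1
          rw [map_add]
        map_smul' := fun c a => by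
          apply Subtype.ext; apply Subtype.ext
          change pull n (c • a.1) = c • pull n a.1
          rw [map_smul] }
    apply LinearEquiv.finrank_eq (LinearEquiv.ofBijective φ ⟨?_, ?_⟩)
    · intro a b h
      apply Subtype.ext
      apply pull_injective n
      exact congrArg (fun x => x.1.1) h
    · rintro ⟨⟨X, hX⟩, hk⟩
      rw [LinearMap.mem_ker, LinearMap.domRestrict_apply] at hk
      obtain ⟨m, hm⟩ := exists_pull_of_sumch_eq_zero hk
      have hm' : m ∈ W.comap (pull n) := by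
        rw [Submodule.mem_comap, ← hm]; exact hX
      refine ⟨⟨m, hm'⟩, ?_⟩
      apply Subtype.ext; apply Subtype.ext
      exact hm.symm
  rw [← h1, h2]

/-- values of `U n` on `N (n+2)` -/
def B (n : ℕ) : Submodule (ZMod 2) (LL n → ZMod 2) where
  carrier := {X | ∃ σ ∈ N (n + 2), U n σ = X}
  add_mem' := by
    rintro _ _ ⟨σ, hσ, rfl⟩ ⟨τ, hτ, rfl⟩
    exact ⟨σ * τ, (N (n + 2)).mul_mem hσ hτ, U_mul (N_succ_le _ hσ) (N_succ_le _ hτ)⟩
  zero_mem' := ⟨1, (N (n + 2)).one_mem, by funext w; exact chi_one _⟩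
  smul_mem' := by
    rintro c _ ⟨σ, hσ, rfl⟩
    rcases two_cases c with h | h
    · rw [h, zero_smul]; exact ⟨1, (N (n + 2)).one_mem, by funext w; exact chi_one _⟩
    · rw [h, one_smul]; exact ⟨σ, hσ, rfl⟩

theorem mem_B {n : ℕ} {X : LL n → ZMod 2} : X ∈ B n ↔ ∃ σ ∈ N (n + 2), U n σ = X := Iff.rfl

theorem map_V (n : ℕ) (hn : 1 ≤ n) : (V (n + 2)).map (sumch (n + 1)) = (B n).map (pull n) := by
  ext X
  rw [Submodule.mem_map, Submodule.mem_map]
  constructor
  · rintro ⟨_, ⟨σ, hσ, rfl⟩, rfl⟩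
    refine ⟨U n σ, ⟨σ, hσ, rfl⟩, ?_⟩
    rw [← S_eq_sumch hσ, S_eq_pull hn (N_le (by omega) hσ) (N_succ_le _ hσ)]
  · rintro ⟨_, ⟨σ, hσ, rfl⟩, rfl⟩
    refine ⟨T (n + 2) σ, ⟨σ, hσ, rfl⟩, ?_⟩
    rw [← S_eq_sumch hσ, S_eq_pull hn (N_le (by omega) hσ) (N_succ_le _ hσ)]

theorem finrank_map_pull {n : ℕ} (W : Submodule (ZMod 2) (LL n → ZMod 2)) :
    finrank (ZMod 2) (W.map (pull n)) = finrank (ZMod 2) W :=
  (Submodule.equivMapOfInjective (pull n) (pull_injective n) W).symm.finrank_eq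

/-- the two parts of `V (n+2)` -/
theorem v_split (n : ℕ) (hn : 1 ≤ n) :
    v (n + 2) = finrank (ZMod 2) (B n) + finrank (ZMod 2) ((V (n + 2)).comap (pull (n + 1))) := by
  rw [v, RK (n + 1) (V (n + 2)), map_V n hn, finrank_map_pull]

theorem finrank_le_pow {n : ℕ} (W : Submodule (ZMod 2) (LL n → ZMod 2)) :
    finrank (ZMod 2) W ≤ 2 ^ n := by rw [← finrank_fun n]; exact Submodule.finrank_le _

/-- a bound for spaces of functions with vanishing four-fold sums -/
theorem finrank_four {m : ℕ} (W : Submodule (ZMod 2) (LL (m + 2) → ZMod 2))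
    (h : ∀ X ∈ W, sumch m (sumch (m + 1) X) = 0) : finrank (ZMod 2) W ≤ 3 * 2 ^ m := by
  rw [RK (m + 1) W, RK m (W.map (sumch (m + 1)))]
  have h0 : (W.map (sumch (m + 1))).map (sumch m) = ⊥ := by
    rw [eq_bot_iff]
    rintro _ ⟨_, ⟨X, hX, rfl⟩, rfl⟩
    rw [h X hX]; exact Submodule.zero_mem _
  rw [h0, finrank_bot]
  have h1 := finrank_le_pow ((W.map (sumch (m + 1))).comap (pull m))
  have h2 := finrank_le_pow (W.comap (pull (m + 1)))
  rw [pow_succ] at h2
  omega

theorem B_four {m : ℕ} (X : LL (m + 2) → ZMod 2) (hX : X ∈ B (m + 2)) :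
    sumch m (sumch (m + 1) X) = 0 := by
  obtain ⟨σ, hσ, rfl⟩ := hX
  exact four_fold (N_le (by omega) hσ) (N_succ_le _ hσ)

theorem finrank_B_le (m : ℕ) : finrank (ZMod 2) (B (m + 2)) ≤ 3 * 2 ^ m := finrank_four _ B_four

/-- upper bound -/
theorem v_upper (m : ℕ) : v (m + 4) ≤ 11 * 2 ^ m := by
  rw [v_split (m + 2) (by omega)]
  have h1 := finrank_B_le m
  have h2 := finrank_le_pow ((V (m + 2 + 2)).comap (pull (m + 2 + 1)))
  have h3 : 2 ^ (m + 2 + 1) = 8 * 2 ^ m := by ring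
  rw [h3] at h2
  omega

theorem v_three_le : v 3 ≤ 5 := by
  rw [v, RK 2 (V 3)]
  have h1 : finrank (ZMod 2) ((V 3).map (sumch 2)) ≤ 1 := by
    have : (V 3).map (sumch 2) ≤ Submodule.span (ZMod 2) {(fun _ => 1 : LL 2 → ZMod 2)} := by
      rintro _ ⟨_, ⟨σ, hσ, rfl⟩, rfl⟩
      rw [← S_eq_sumch hσ]
      have hc : S 2 σ = (S 2 σ (ch xx)) • (fun _ => 1 : LL 2 → ZMod 2) := by
        funext u
        rw [Pi.smul_apply, smul_eq_mul, mul_one]
        exact S_two_const hσ _ _
      rw [hc]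
      exact Submodule.smul_mem _ _ (Submodule.mem_span_singleton_self _)
    refine (Submodule.finrank_mono this).trans ?_
    refine (finrank_span_le_card _).trans ?_
    simp
  have h2 := finrank_le_pow ((V 3).comap (pull 2))
  norm_num at h2
  omega

end Arb49
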